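import Mathlib

/-!
The phase factor `χ` of the functional equation of zeta on the critical line and its
behaviour under shifts.
-/

set_option autoImplicit false

open Filter Topology Set
open scoped ComplexConjugate

namespace Pool.Agent.H20.Chi

/-! ### comparison of a sum with an integral -/

section SumInt

variable {b : ℝ}

/-- the summand -/
noncomputable def g (b x : ℝ) : ℝ := x / (x ^ 2 + b ^ 2)

/-- primitive of `g` -/
noncomputable def F (b x : ℝ) : ℝ := Real.log (x ^ 2 + b ^ 2) / 2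

/-- primitive of the majorant of the derivative of `g` -/
noncomputable def A (b x : ℝ) : ℝ := Real.arctan (x / b) / b

lemma hasDerivAt_F (hb : 0 < b) (x : ℝ) : HasDerivAt (F b) (g b x) x := by
  have hp : 0 < x ^ 2 + b ^ 2 := by positivity
  have h1 : HasDerivAt (fun x : ℝ => x ^ 2 + b ^ 2) (2 * x) x := by
    simpa using (hasDerivAt_pow 2 x).add_const (b ^ 2)
  have h2 := (h1.log hp.ne').div_const 2
  refine h2.congr_deriv ?_
  unfold g
  field_simp

lemma hasDerivAt_A (hb : 0 < b) (x : ℝ) : HasDerivAt (A b) (1 / (x ^ 2 + b ^ 2)) x := by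
  have hp : 0 < x ^ 2 + b ^ 2 := by positivity
  have h1 : HasDerivAt (fun x : ℝ => x / b) (1 / b) x := (hasDerivAt_id x).div_const b
  have h2 := (h1.arctan).div_const b
  refine h2.congr_deriv ?_
  field_simp
  ring

lemma hasDerivAt_g (hb : 0 < b) (x : ℝ) :
    HasDerivAt (g b) ((b ^ 2 - x ^ 2) / (x ^ 2 + b ^ 2) ^ 2) x := by
  have hp : 0 < x ^ 2 + b ^ 2 := by positivity
  have h1 : HasDerivAt (fun x : ℝ => x ^ 2 + b ^ 2) (2 * x) x := by
    simpa using (hasDerivAt_pow 2 x).add_const (b ^ 2)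
  have h2 := (hasDerivAt_id x).div h1 hp.ne'
  refine h2.congr_deriv ?_
  simp only [id]
  field_simp
  ring

lemma A_mono (hb : 0 < b) : Monotone (A b) := by
  apply monotone_of_deriv_nonneg
  · exact fun x => (hasDerivAt_A hb x).differentiableAt
  · intro x
    rw [(hasDerivAt_A hb x).deriv]
    positivity

lemma Ag_mono (hb : 0 < b) : Monotone (fun x => A b x + g b x) := by
  apply monotone_of_deriv_nonneg
  · exact fun x => ((hasDerivAt_A hb x).fun_add (hasDerivAt_g hb x)).differentiableAt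
  · intro x
    rw [((hasDerivAt_A hb x).fun_add (hasDerivAt_g hb x)).deriv]
    have hp : 0 < x ^ 2 + b ^ 2 := by positivity
    have : 1 / (x ^ 2 + b ^ 2) + (b ^ 2 - x ^ 2) / (x ^ 2 + b ^ 2) ^ 2
        = 2 * b ^ 2 / (x ^ 2 + b ^ 2) ^ 2 := by field_simp; ring
    rw [this]
    positivity

lemma Ag_mono' (hb : 0 < b) : Monotone (fun x => A b x - g b x) := by
  apply monotone_of_deriv_nonneg
  · exact fun x => ((hasDerivAt_A hb x).fun_sub (hasDerivAt_g hb x)).differentiableAt
  · intro x
    rw [((hasDerivAt_A hb x).fun_sub (hasDerivAt_g hb x)).deriv]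
    have hp : 0 < x ^ 2 + b ^ 2 := by positivity
    have : 1 / (x ^ 2 + b ^ 2) - (b ^ 2 - x ^ 2) / (x ^ 2 + b ^ 2) ^ 2
        = 2 * x ^ 2 / (x ^ 2 + b ^ 2) ^ 2 := by field_simp; ring
    rw [this]
    positivity

lemma g_sub_le (hb : 0 < b) {u v x y : ℝ} (hx : x ∈ Icc u v) (hy : y ∈ Icc u v) :
    |g b x - g b y| ≤ A b v - A b u := by
  have h : ∀ x y : ℝ, x ≤ y → |g b x - g b y| ≤ A b y - A b x := by
    intro x y hxy
    have h1 := Ag_mono hb hxy
    have h2 := Ag_mono' hb hxy
    simp only at h1 h2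
    rw [abs_le]
    constructor <;> linarith
  rcases le_total x y with hxy | hxy
  · refine (h x y hxy).trans ?_
    have := A_mono hb hx.1
    have := A_mono hb hy.2
    linarith
  · rw [abs_sub_comm]
    refine (h y x hxy).trans ?_
    have := A_mono hb hy.1
    have := A_mono hb hx.2
    linarith

/-- sum versus integral -/
lemma sum_g (hb : 0 < b) (n : ℕ) :
    |∑ k ∈ Finset.range n, g b (k + 1 / 4) - (F b n - F b 0)| ≤ A b n - A b 0 := by
  induction n with
  | zero => simp
  | succ n ih =>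
    rw [Finset.sum_range_succ]
    have hlt : (n : ℝ) < n + 1 := by linarith
    obtain ⟨ξ, hξ, hs⟩ := exists_hasDerivAt_eq_slope (F b) (g b) hlt
      (fun x _ => (hasDerivAt_F hb x).continuousAt.continuousWithinAt)
      (fun x _ => hasDerivAt_F hb x)
    have e : F b (n + 1) - F b n = g b ξ := by rw [hs]; ring
    have h1 : |g b (n + 1 / 4) - g b ξ| ≤ A b (n + 1) - A b n := by
      apply g_sub_le hb
      · constructor <;> linarith
      · exact ⟨hξ.1.le, hξ.2.le⟩
    push_cast
    have e2 : ∑ k ∈ Finset.range n, g b (k + 1 / 4) + g b (n + 1 / 4) - (F b (n + 1) - F b 0)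
        = (∑ k ∈ Finset.range n, g b (k + 1 / 4) - (F b n - F b 0))
          + (g b (n + 1 / 4) - g b ξ) := by linarith [e]
    rw [e2]
    refine (abs_add_le _ _).trans ?_
    linarith

lemma A_sub_le (hb : 0 < b) (n : ℕ) : A b n - A b 0 ≤ 2 / b := by
  unfold A
  rw [zero_div, Real.arctan_zero, zero_div, sub_zero]
  have h1 := (Real.arctan_lt_pi_div_two (n / b)).le
  have h2 := Real.pi_le_four
  gcongr
  linarith

/-- the phase derivative is small -/
lemma bracket (hb : 0 < b) {n : ℕ} (hn : 1 ≤ n) :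
    |∑ k ∈ Finset.range (n + 1), g b (k + 1 / 4) - Real.log n + Real.log b|
      ≤ 2 / b + (2 * n + 1 + b ^ 2) / (2 * n ^ 2) := by
  have hn' : (0 : ℝ) < n := by exact_mod_cast hn
  have h1 := (sum_g hb (n + 1)).trans (A_sub_le hb (n + 1))
  push_cast at h1
  have hF0 : F b 0 = Real.log b := by
    unfold F
    rw [zero_pow two_ne_zero, zero_add, Real.log_pow]
    push_cast; ring
  have hF : F b (n + 1) = Real.log n + Real.log (((n + 1 : ℝ) ^ 2 + b ^ 2) / n ^ 2) / 2 := by
    unfold F
    rw [Real.log_div (by positivity) (by positivity), Real.log_pow]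
    push_cast; ring
  have h2 : 0 ≤ Real.log (((n + 1 : ℝ) ^ 2 + b ^ 2) / n ^ 2) := by
    apply Real.log_nonneg
    rw [le_div_iff₀ (by positivity)]
    nlinarith [sq_nonneg b]
  have h3 : Real.log (((n + 1 : ℝ) ^ 2 + b ^ 2) / n ^ 2) ≤ (2 * n + 1 + b ^ 2) / n ^ 2 := by
    refine (Real.log_le_sub_one_of_pos (by positivity)).trans (le_of_eq ?_)
    field_simp
    ring
  rw [hF, hF0] at h1
  have e : ∑ k ∈ Finset.range (n + 1), g b (k + 1 / 4) - Real.log n + Real.log b
      = (∑ k ∈ Finset.range (n + 1), g b (k + 1 / 4) -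
        (Real.log n + Real.log (((n + 1 : ℝ) ^ 2 + b ^ 2) / n ^ 2) / 2 - Real.log b))
        + Real.log (((n + 1 : ℝ) ^ 2 + b ^ 2) / n ^ 2) / 2 := by ring
  rw [e]
  refine (abs_add_le _ _).trans (add_le_add h1 ?_)
  rw [abs_of_nonneg (by positivity)]
  calc _ ≤ (2 * n + 1 + b ^ 2) / n ^ 2 / 2 := by gcongr
    _ = _ := by field_simp

end SumInt

/-! ### the phase functions -/

/-- the main phase -/
noncomputable def ph (u : ℝ) : ℝ := u * Real.log (u / (2 * Real.pi)) - u

/-- phase of the finite product -/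
noncomputable def Th (n : ℕ) (u : ℝ) : ℝ :=
  u * Real.log Real.pi - u * Real.log n
    + 2 * ∑ k ∈ Finset.range (n + 1), Real.arctan (u / 2 / (k + 1 / 4)) + ph u

lemma hasDerivAt_ph {u : ℝ} (hu : 0 < u) : HasDerivAt ph (Real.log (u / (2 * Real.pi))) u := by
  have hpi := Real.pi_pos
  have h1 : HasDerivAt (fun u : ℝ => u / (2 * Real.pi)) (1 / (2 * Real.pi)) u :=
    (hasDerivAt_id u).div_const _
  have h2 := ((hasDerivAt_id u).mul (h1.log (by positivity))).sub (hasDerivAt_id u)
  refine h2.congr_deriv ?_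
  simp only [id]
  field_simp
  ring

lemma hasDerivAt_Th (n : ℕ) {u : ℝ} (hu : 0 < u) :
    HasDerivAt (Th n) (Real.log Real.pi - Real.log n
      + ∑ k ∈ Finset.range (n + 1), g (u / 2) (k + 1 / 4) + Real.log (u / (2 * Real.pi))) u := by
  have h1 : HasDerivAt (fun u : ℝ => u * Real.log Real.pi - u * Real.log n)
      (Real.log Real.pi - Real.log n) u := by
    simpa using ((hasDerivAt_id u).mul_const (Real.log Real.pi)).fun_sub
      ((hasDerivAt_id u).mul_const (Real.log n))
  have h2 : HasDerivAt (fun u : ℝ => 2 * ∑ k ∈ Finset.range (n + 1),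
      Real.arctan (u / 2 / (k + 1 / 4)))
      (∑ k ∈ Finset.range (n + 1), g (u / 2) (k + 1 / 4)) u := by
    have : ∀ k ∈ Finset.range (n + 1), HasDerivAt (fun u : ℝ => Real.arctan (u / 2 / (k + 1 / 4)))
        (g (u / 2) (k + 1 / 4) / 2) u := by
      intro k _
      have hk : (0 : ℝ) < k + 1 / 4 := by positivity
      have h3 : HasDerivAt (fun u : ℝ => u / 2 / (k + 1 / 4)) (1 / 2 / (k + 1 / 4)) u :=
        ((hasDerivAt_id u).div_const 2).div_const _
      refine h3.arctan.congr_deriv ?_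
      unfold g
      field_simp
    have h4 := (HasDerivAt.fun_sum this).const_mul 2
    refine h4.congr_deriv ?_
    rw [Finset.mul_sum]
    exact Finset.sum_congr rfl (fun k _ => by ring)
  exact (h1.add h2).add (hasDerivAt_ph hu)

lemma deriv_Th_le {n : ℕ} (hn : 1 ≤ n) {u : ℝ} (hu : 0 < u) :
    |Real.log Real.pi - Real.log n
      + ∑ k ∈ Finset.range (n + 1), g (u / 2) (k + 1 / 4) + Real.log (u / (2 * Real.pi))|
      ≤ 4 / u + (2 * n + 1 + u ^ 2) / (2 * n ^ 2) := by
  have hpi := Real.pi_pos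
  have hn' : (0 : ℝ) < n := by exact_mod_cast hn
  have h := bracket (b := u / 2) (by positivity) hn
  have e : Real.log Real.pi - Real.log n
      + ∑ k ∈ Finset.range (n + 1), g (u / 2) (k + 1 / 4) + Real.log (u / (2 * Real.pi))
      = ∑ k ∈ Finset.range (n + 1), g (u / 2) (k + 1 / 4) - Real.log n + Real.log (u / 2) := by
    have : u / (2 * Real.pi) = u / 2 / Real.pi := by field_simp
    rw [this, Real.log_div (by positivity) hpi.ne']
    ring
  rw [e]
  refine h.trans (add_le_add (le_of_eq (by field_simp; norm_num)) ?_)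
  gcongr
  linarith

/-- Lipschitz bound for the phases on `[a,∞)`, up to a vanishing error -/
lemma Th_sub_le {n : ℕ} (hn : 1 ≤ n) {a c x y : ℝ} (ha : 0 < a) (hx : x ∈ Icc a c)
    (hy : y ∈ Icc a c) :
    |Th n x - Th n y| ≤ (4 / a + (2 * n + 1 + c ^ 2) / (2 * n ^ 2)) * |x - y| := by
  have hn' : (0 : ℝ) < n := by exact_mod_cast hn
  have := Convex.norm_image_sub_le_of_norm_hasDerivWithin_le (𝕜 := ℝ) (f := Th n)
    (f' := fun u => Real.log Real.pi - Real.log n
      + ∑ k ∈ Finset.range (n + 1), g (u / 2) (k + 1 / 4) + Real.log (u / (2 * Real.pi)))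
    (s := Icc a c) (C := 4 / a + (2 * n + 1 + c ^ 2) / (2 * n ^ 2))
    (fun u hu => (hasDerivAt_Th n (ha.trans_le hu.1)).hasDerivWithinAt)
    (fun u hu => by
      rw [Real.norm_eq_abs]
      have hu0 : 0 < u := ha.trans_le hu.1
      refine (deriv_Th_le hn hu0).trans ?_
      have h1 := hu.1
      have h2 := hu.2
      gcongr)
    (convex_Icc a c) hy hx
  simpa [Real.norm_eq_abs] using this

/-! ### the factor of the functional equation -/

/-- the factor of the functional equation on the critical line -/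
noncomputable def chi (t : ℝ) : ℂ :=
  Complex.Gammaℝ (1 / 2 - Complex.I * t) / Complex.Gammaℝ (1 / 2 + Complex.I * t)

lemma gam_ne (t : ℝ) : Complex.Gammaℝ (1 / 2 + Complex.I * t) ≠ 0 :=
  Complex.Gammaℝ_ne_zero_of_re_pos (by simp)

/-- the functional equation -/
theorem zeta_eq (t : ℝ) :
    riemannZeta (1 / 2 + Complex.I * t) = chi t * conj (riemannZeta (1 / 2 + Complex.I * t)) := by
  have h0 : (1 / 2 + Complex.I * t : ℂ) ≠ 0 := by
    intro h
    have := congrArg Complex.re h
    simp at this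
  have h0' : (1 / 2 - Complex.I * t : ℂ) ≠ 0 := by
    intro h
    have := congrArg Complex.re h
    simp at this
  have hc : conj (1 / 2 + Complex.I * t : ℂ) = 1 / 2 - Complex.I * t := by
    simp only [map_add, map_mul, map_div₀, map_one, Complex.conj_I, Complex.conj_ofReal,
      map_ofNat]
    ring
  rw [← riemannZeta_conj, hc, riemannZeta_def_of_ne_zero h0, riemannZeta_def_of_ne_zero h0']
  have h1 : (1 / 2 - Complex.I * t : ℂ) = 1 - (1 / 2 + Complex.I * t) := by ring
  have h2 : completedRiemannZeta (1 / 2 - Complex.I * t)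
      = completedRiemannZeta (1 / 2 + Complex.I * t) := by
    rw [h1, completedRiemannZeta_one_sub]
  rw [h2]
  have h3 := gam_ne t
  have h4 : Complex.Gammaℝ (1 / 2 - Complex.I * t) ≠ 0 :=
    Complex.Gammaℝ_ne_zero_of_re_pos (by simp)
  unfold chi
  generalize Complex.Gammaℝ (1 / 2 - Complex.I * t) = a at *
  generalize Complex.Gammaℝ (1 / 2 + Complex.I * t) = b at *
  generalize completedRiemannZeta (1 / 2 + Complex.I * t) = z at *
  field_simp

lemma exp_two_arctan (x : ℝ) :
    Complex.exp (2 * Real.arctan x * Complex.I) = (1 + x * Complex.I) / (1 - x * Complex.I) := by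
  have hpos : 0 < 1 + x ^ 2 := by positivity
  have hne : (1 - x * Complex.I : ℂ) ≠ 0 := by
    intro h
    have := congrArg Complex.re h
    simp at this
  have h1 : Complex.exp (Real.arctan x * Complex.I)
      = (1 + x * Complex.I) / (Real.sqrt (1 + x ^ 2) : ℝ) := by
    rw [Complex.exp_mul_I, ← Complex.ofReal_cos, ← Complex.ofReal_sin, Real.cos_arctan,
      Real.sin_arctan]
    push_cast
    ring
  have h2 : Complex.exp (2 * Real.arctan x * Complex.I)
      = Complex.exp (Real.arctan x * Complex.I) ^ 2 := by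
    rw [← Complex.exp_nat_mul]
    congr 1
    push_cast
    ring
  have h3 : ((Real.sqrt (1 + x ^ 2) : ℝ) : ℂ) ^ 2 = (1 + x * Complex.I) * (1 - x * Complex.I) := by
    rw [← Complex.ofReal_pow, Real.sq_sqrt hpos.le]
    push_cast
    ring_nf
    rw [Complex.I_sq]
    ring
  have hne' : (1 + x * Complex.I : ℂ) ≠ 0 := by
    intro h
    have := congrArg Complex.re h
    simp at this
  rw [h2, h1, div_pow, h3]
  field_simp

lemma one_sub_ne (x : ℝ) : (1 - x * Complex.I : ℂ) ≠ 0 := by
  intro h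
  have := congrArg Complex.re h
  simp at this

lemma factor (a u : ℝ) (ha : 0 < a) :
    ((a : ℂ) + Complex.I * u / 2) / ((a : ℂ) - Complex.I * u / 2)
      = Complex.exp (2 * Real.arctan (u / 2 / a) * Complex.I) := by
  rw [exp_two_arctan]
  have ha' : (a : ℂ) ≠ 0 := by exact_mod_cast ha.ne'
  have h1 := one_sub_ne (u / 2 / a)
  have h2 : ((a : ℂ) - Complex.I * u / 2) ≠ 0 := by
    intro h
    have h' := congrArg Complex.re h
    simp at h'
    linarith
  rw [div_eq_div_iff h2 h1]
  push_cast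
  field_simp

/-- the Gamma quotient as a limit of unimodular numbers -/
lemma tendsto_Th (u : ℝ) :
    Tendsto (fun n : ℕ => Complex.exp (Th n u * Complex.I)) atTop
      (𝓝 (chi u * Complex.exp (ph u * Complex.I))) := by
  have hs : ∀ v : ℝ, Tendsto (Complex.GammaSeq (1 / 4 + Complex.I * v / 2)) atTop
      (𝓝 (Complex.Gamma (1 / 4 + Complex.I * v / 2))) := fun v =>
    Complex.GammaSeq_tendsto_Gamma _
  have hne : Complex.Gamma (1 / 4 + Complex.I * u / 2) ≠ 0 :=
    Complex.Gamma_ne_zero_of_re_pos (by simp)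
  have h1 := (hs (-u)).div (hs u) hne
  have hchi : chi u = Complex.exp ((u * Real.log Real.pi : ℝ) * Complex.I) *
      (Complex.Gamma (1 / 4 + Complex.I * (-u : ℝ) / 2) /
        Complex.Gamma (1 / 4 + Complex.I * u / 2)) := by
    unfold chi
    rw [Complex.Gammaℝ_def, Complex.Gammaℝ_def]
    have e1 : (1 / 2 - Complex.I * u : ℂ) / 2 = 1 / 4 + Complex.I * (-u : ℝ) / 2 := by
      push_cast; ring
    have e2 : (1 / 2 + Complex.I * u : ℂ) / 2 = 1 / 4 + Complex.I * u / 2 := by ring
    have hpi : (Real.pi : ℂ) ≠ 0 := by exact_mod_cast Real.pi_ne_zero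
    have e3 : (Real.pi : ℂ) ^ (-(1 / 2 - Complex.I * u) / 2)
        = Complex.exp ((u * Real.log Real.pi : ℝ) * Complex.I) *
          (Real.pi : ℂ) ^ (-(1 / 2 + Complex.I * u) / 2) := by
      rw [Complex.cpow_def_of_ne_zero hpi, Complex.cpow_def_of_ne_zero hpi, ← Complex.exp_add,
        ← Complex.ofReal_log Real.pi_pos.le]
      congr 1
      push_cast
      ring
    rw [e1, e2, e3]
    have hpn : (Real.pi : ℂ) ^ (-(1 / 2 + Complex.I * u) / 2) ≠ 0 := by
      rw [Complex.cpow_def_of_ne_zero hpi]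
      exact Complex.exp_ne_zero _
    field_simp
  have h2 := (h1.const_mul (Complex.exp ((u * Real.log Real.pi : ℝ) * Complex.I))).mul_const
    (Complex.exp (ph u * Complex.I))
  rw [← hchi] at h2
  refine h2.congr' ?_
  filter_upwards [eventually_ge_atTop 1] with n hn
  have hn' : (n : ℂ) ≠ 0 := by exact_mod_cast (by omega : n ≠ 0)
  simp only [Pi.div_apply, Complex.GammaSeq]
  have hfac : (n.factorial : ℂ) ≠ 0 := by exact_mod_cast n.factorial_ne_zero
  have hcp : ∀ s : ℂ, (n : ℂ) ^ s ≠ 0 := fun s => by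
    rw [Complex.cpow_def_of_ne_zero hn']; exact Complex.exp_ne_zero _
  have e4 : (n : ℂ) ^ (1 / 4 + Complex.I * (-u : ℝ) / 2)
      = Complex.exp ((-(u * Real.log n) : ℝ) * Complex.I) *
        (n : ℂ) ^ (1 / 4 + Complex.I * u / 2) := by
    rw [Complex.cpow_def_of_ne_zero hn', Complex.cpow_def_of_ne_zero hn', ← Complex.exp_add,
      ← Complex.natCast_log]
    congr 1
    push_cast
    ring
  have hz : ∀ k : ℕ, ∀ v : ℝ, (1 / 4 + Complex.I * v / 2 + k : ℂ) ≠ 0 := by
    intro k v h
    have h' := congrArg Complex.re h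
    have : (1 / 4 + (k : ℝ)) = 0 := by simpa using h'
    have : (0 : ℝ) < 1 / 4 + k := by positivity
    linarith
  have e5 : (∏ k ∈ Finset.range (n + 1), (1 / 4 + Complex.I * u / 2 + k : ℂ)) /
      (∏ k ∈ Finset.range (n + 1), (1 / 4 + Complex.I * (-u : ℝ) / 2 + k : ℂ))
      = Complex.exp ((2 * ∑ k ∈ Finset.range (n + 1), Real.arctan (u / 2 / (k + 1 / 4)) : ℝ)
        * Complex.I) := by
    rw [← Finset.prod_div_distrib, Finset.mul_sum, Complex.ofReal_sum, Finset.sum_mul,
      Complex.exp_sum]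
    refine Finset.prod_congr rfl (fun k _ => ?_)
    have hk : (0 : ℝ) < k + 1 / 4 := by positivity
    have e6 := factor (k + 1 / 4) u hk
    have e7 : (1 / 4 + Complex.I * u / 2 + k : ℂ)
        = (((k + 1 / 4 : ℝ) : ℂ) + Complex.I * u / 2) := by push_cast; ring
    have e8 : (1 / 4 + Complex.I * (-u : ℝ) / 2 + k : ℂ)
        = (((k + 1 / 4 : ℝ) : ℂ) - Complex.I * u / 2) := by push_cast; ring
    rw [e7, e8, e6]
    congr 1
    push_cast
    ring
  have hP1 : (∏ k ∈ Finset.range (n + 1), (1 / 4 + Complex.I * u / 2 + k : ℂ)) ≠ 0 :=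
    Finset.prod_ne_zero_iff.mpr (fun k _ => hz k u)
  have hP2 : (∏ k ∈ Finset.range (n + 1), (1 / 4 + Complex.I * (-u : ℝ) / 2 + k : ℂ)) ≠ 0 :=
    Finset.prod_ne_zero_iff.mpr (fun k _ => hz k (-u))
  rw [div_eq_iff hP2] at e5
  rw [e4, e5]
  have e9 : Complex.exp (Th n u * Complex.I)
      = Complex.exp ((u * Real.log Real.pi : ℝ) * Complex.I) *
        Complex.exp ((-(u * Real.log n) : ℝ) * Complex.I) *
        Complex.exp ((2 * ∑ k ∈ Finset.range (n + 1), Real.arctan (u / 2 / (k + 1 / 4)) : ℝ)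
          * Complex.I) * Complex.exp (ph u * Complex.I) := by
    rw [← Complex.exp_add, ← Complex.exp_add, ← Complex.exp_add]
    congr 1
    unfold Th
    push_cast
    ring
  rw [e9]
  have hE := Complex.exp_ne_zero ((2 * ∑ k ∈ Finset.range (n + 1),
    Real.arctan (u / 2 / (k + 1 / 4)) : ℝ) * Complex.I)
  have hc1 := hcp (1 / 4 + Complex.I * u / 2)
  clear e9 e5 e4 hz h2 hchi h1 hs hne hcp
  generalize (n : ℂ) ^ (1 / 4 + Complex.I * u / 2) = c1 at *
  generalize Complex.exp ((2 * ∑ k ∈ Finset.range (n + 1),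
    Real.arctan (u / 2 / (k + 1 / 4)) : ℝ) * Complex.I) = c2 at *
  generalize (∏ k ∈ Finset.range (n + 1), (1 / 4 + Complex.I * (-u : ℝ) / 2 + k : ℂ)) = c3 at *
  field_simp

lemma norm_exp_mul_I (x : ℝ) : ‖Complex.exp (x * Complex.I)‖ = 1 :=
  Complex.norm_exp_ofReal_mul_I x

theorem norm_chi (u : ℝ) : ‖chi u‖ = 1 := by
  have h := (tendsto_Th u).norm
  simp only [norm_exp_mul_I, norm_mul, mul_one] at h
  exact (tendsto_nhds_unique h tendsto_const_nhds)

/-- Lipschitz bound for the corrected factor -/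
lemma chi_ph_sub_le {a x y : ℝ} (ha : 0 < a) (hx : a ≤ x) (hy : a ≤ y) :
    ‖chi x * Complex.exp (ph x * Complex.I) - chi y * Complex.exp (ph y * Complex.I)‖
      ≤ 4 / a * |x - y| := by
  have h1 := ((tendsto_Th x).sub (tendsto_Th y)).norm
  set c := max x y
  have h2 : Tendsto (fun n : ℕ => (4 / a + (2 * (n : ℝ) + 1 + c ^ 2) / (2 * n ^ 2)) * |x - y|) atTop
      (𝓝 ((4 / a + 0) * |x - y|)) := by
    refine (Tendsto.const_add _ ?_).mul_const _
    have h3 : Tendsto (fun n : ℕ => ((n : ℝ))⁻¹) atTop (𝓝 0) :=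
      tendsto_inv_atTop_zero.comp tendsto_natCast_atTop_atTop
    have h4 : Tendsto (fun n : ℕ => (n : ℝ)⁻¹ + (1 + c ^ 2) / 2 * ((n : ℝ)⁻¹ * (n : ℝ)⁻¹)) atTop
        (𝓝 (0 + (1 + c ^ 2) / 2 * (0 * 0))) := h3.add ((h3.mul h3).const_mul _)
    rw [mul_zero, mul_zero, add_zero] at h4
    refine h4.congr' ?_
    filter_upwards [eventually_ge_atTop 1] with n hn
    have hn' : (0 : ℝ) < n := by exact_mod_cast hn
    field_simp
    ring
  rw [add_zero] at h2
  refine le_of_tendsto_of_tendsto h1 h2 ?_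
  filter_upwards [eventually_ge_atTop 1] with n hn
  refine le_trans ?_ (Th_sub_le hn ha (c := c) ⟨hx, le_max_left _ _⟩ ⟨hy, le_max_right _ _⟩)
  have e : Complex.exp (Th n x * Complex.I) - Complex.exp (Th n y * Complex.I)
      = Complex.exp (Th n y * Complex.I) *
        (Complex.exp ((Th n x - Th n y : ℝ) * Complex.I) - 1) := by
    rw [mul_sub, ← Complex.exp_add, mul_one]
    congr 2
    push_cast; ring
  rw [e, norm_mul, norm_exp_mul_I, one_mul, mul_comm _ Complex.I]
  exact Real.norm_exp_I_mul_ofReal_sub_one_le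

lemma ph_shift {t w : ℝ} (ht : 0 < t) (hw : |w| ≤ t / 2) :
    |ph (t + w) - ph t - w * Real.log (t / (2 * Real.pi))| ≤ w ^ 2 / t := by
  have hpi := Real.pi_pos
  have hw' := abs_le.mp hw
  have htw : 0 < t + w := by linarith
  have e1 : ph (t + w) - ph t - w * Real.log (t / (2 * Real.pi))
      = (t + w) * Real.log ((t + w) / t) - w := by
    unfold ph
    rw [Real.log_div htw.ne' (by positivity), Real.log_div ht.ne' (by positivity),
      Real.log_div htw.ne' ht.ne']
    ring
  rw [e1, abs_le]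
  constructor
  · have h1 := Real.one_sub_inv_le_log_of_pos (div_pos htw ht)
    have h2 : (t + w) * (1 - ((t + w) / t)⁻¹) = w := by field_simp; ring
    have h3 : (t + w) * (1 - ((t + w) / t)⁻¹) ≤ (t + w) * Real.log ((t + w) / t) := by gcongr
    have h4 : 0 ≤ w ^ 2 / t := by positivity
    linarith
  · have h1 := Real.log_le_sub_one_of_pos (div_pos htw ht)
    have h3 : (t + w) * Real.log ((t + w) / t) ≤ (t + w) * ((t + w) / t - 1) := by gcongr
    have h2 : (t + w) * ((t + w) / t - 1) - w = w ^ 2 / t := by field_simp; ring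
    linarith

/-- **Shift of the factor of the functional equation.** -/
theorem chi_shift_of_le {t w : ℝ} (ht : 0 < t) (hw : |w| ≤ t / 2) :
    ‖chi (t + w) - chi t * Complex.exp (-(Complex.I * w * Real.log (t / (2 * Real.pi))))‖
      ≤ (8 * |w| + w ^ 2) / t := by
  have hw' := abs_le.mp hw
  have h1 := chi_ph_sub_le (a := t / 2) (x := t + w) (y := t) (by linarith) (by linarith)
    (by linarith)
  have h2 := ph_shift ht hw
  have e1 : chi (t + w) - chi t * Complex.exp (-(Complex.I * w * Real.log (t / (2 * Real.pi))))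
      = Complex.exp (-(ph (t + w)) * Complex.I) *
        ((chi (t + w) * Complex.exp (ph (t + w) * Complex.I) -
          chi t * Complex.exp (ph t * Complex.I)) - chi t * Complex.exp (ph t * Complex.I) *
          (Complex.exp ((ph (t + w) - ph t - w * Real.log (t / (2 * Real.pi)) : ℝ) * Complex.I)
            - 1)) := by
    have e2 : Complex.exp (-(ph (t + w)) * Complex.I) * Complex.exp (ph (t + w) * Complex.I) = 1 := by
      rw [← Complex.exp_add]
      have : -(ph (t + w) : ℂ) * Complex.I + ph (t + w) * Complex.I = 0 := by ring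
      rw [this, Complex.exp_zero]
    have e3 : Complex.exp (-(Complex.I * w * Real.log (t / (2 * Real.pi))))
        = Complex.exp (-(ph (t + w)) * Complex.I) * Complex.exp (ph t * Complex.I) *
          Complex.exp ((ph (t + w) - ph t - w * Real.log (t / (2 * Real.pi)) : ℝ) * Complex.I) := by
      rw [← Complex.exp_add, ← Complex.exp_add]
      congr 1
      push_cast
      ring
    rw [e3]
    linear_combination (-(chi (t + w))) * e2
  have hn : ‖Complex.exp (-(ph (t + w)) * Complex.I)‖ = 1 := by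
    have := norm_exp_mul_I (-(ph (t + w)))
    push_cast at this
    exact this
  rw [e1, norm_mul, hn, one_mul]
  refine (norm_sub_le _ _).trans ?_
  have h3 : ‖chi t * Complex.exp (ph t * Complex.I) *
          (Complex.exp ((ph (t + w) - ph t - w * Real.log (t / (2 * Real.pi)) : ℝ) * Complex.I)
            - 1)‖ ≤ w ^ 2 / t := by
    rw [norm_mul, norm_mul, norm_chi, norm_exp_mul_I, one_mul, one_mul,
      mul_comm _ Complex.I]
    exact (Real.norm_exp_I_mul_ofReal_sub_one_le).trans h2
  have h4 : 4 / (t / 2) * |t + w - t| = 8 * |w| / t := by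
    rw [add_sub_cancel_left]
    field_simp
    ring
  rw [h4] at h1
  calc _ ≤ 8 * |w| / t + w ^ 2 / t := add_le_add h1 h3
    _ = _ := by ring

/-- the same for all shifts, when `t ≥ 1` -/
theorem chi_shift {t : ℝ} (ht : 1 ≤ t) (w : ℝ) :
    ‖chi (t + w) - chi t * Complex.exp (-(Complex.I * w * Real.log (t / (2 * Real.pi))))‖
      ≤ 8 * (|w| + w ^ 2) / t := by
  have ht0 : 0 < t := by linarith
  rcases le_or_gt |w| (t / 2) with h | h
  · refine (chi_shift_of_le ht0 h).trans ?_
    have := sq_nonneg w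
    gcongr
    linarith
  · have h1 : ‖chi (t + w) - chi t * Complex.exp (-(Complex.I * w *
        Real.log (t / (2 * Real.pi))))‖ ≤ 2 := by
      refine (norm_sub_le _ _).trans ?_
      have h2 : ‖Complex.exp (-(Complex.I * w * Real.log (t / (2 * Real.pi))))‖ = 1 := by
        have := norm_exp_mul_I (-(w * Real.log (t / (2 * Real.pi))))
        rw [← this]
        congr 2
        push_cast
        ring
      rw [norm_chi, norm_mul, norm_chi, h2]
      norm_num
    refine h1.trans ?_
    rw [le_div_iff₀ ht0]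
    have h3 : 0 ≤ w ^ 2 := sq_nonneg w
    nlinarith [abs_nonneg w]

lemma differentiable_chi : Differentiable ℝ chi := by
  have h1 : Differentiable ℝ (fun t : ℝ => (Complex.Gammaℝ (1 / 2 + Complex.I * t))⁻¹) := by
    have : Differentiable ℝ (fun t : ℝ => (1 / 2 + Complex.I * t : ℂ)) := by fun_prop
    exact (Complex.differentiable_Gammaℝ_inv.restrictScalars ℝ).comp this
  have h2 : Differentiable ℝ (fun t : ℝ => (Complex.Gammaℝ (1 / 2 - Complex.I * t))⁻¹) := by
    have : Differentiable ℝ (fun t : ℝ => (1 / 2 - Complex.I * t : ℂ)) := by fun_prop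
    exact (Complex.differentiable_Gammaℝ_inv.restrictScalars ℝ).comp this
  have h3 : Differentiable ℝ (fun t : ℝ => Complex.Gammaℝ (1 / 2 - Complex.I * t)) := by
    have := h2.fun_inv (fun t => inv_ne_zero (Complex.Gammaℝ_ne_zero_of_re_pos (by simp)))
    simpa only [inv_inv] using this
  have h4 := h3.fun_mul h1
  have h5 : chi = fun t : ℝ => Complex.Gammaℝ (1 / 2 - Complex.I * t) *
      (Complex.Gammaℝ (1 / 2 + Complex.I * t))⁻¹ := by
    funext t
    rw [chi, div_eq_mul_inv]
  rw [h5]
  exact h4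

lemma continuous_chi : Continuous chi := differentiable_chi.continuous

/-- the logarithmic derivative of `χ` -/
theorem deriv_chi_le {t : ℝ} (ht : 0 < t) :
    ‖deriv chi t + Complex.I * Real.log (t / (2 * Real.pi)) * chi t‖ ≤ 8 / t := by
  set ℓ := Real.log (t / (2 * Real.pi)) with hℓ
  have h1 : HasDerivAt (fun w : ℝ => chi (t + w)) (deriv chi t) 0 := by
    have h := (differentiable_chi (t + 0)).hasDerivAt
    have h' := HasDerivAt.comp_const_add t 0 h
    rwa [add_zero] at h'
  have h2 : HasDerivAt (fun w : ℝ => chi t * Complex.exp (-(Complex.I * w * ℓ)))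
      (chi t * (-(Complex.I * ℓ))) 0 := by
    have h3 : HasDerivAt (fun w : ℝ => (-(Complex.I * w * ℓ) : ℂ)) (-(Complex.I * ℓ)) 0 := by
      have h4 : HasDerivAt (fun w : ℝ => (w : ℂ)) 1 0 := Complex.ofRealCLM.hasDerivAt (x := (0:ℝ))
      have h5 := (h4.const_mul (-(Complex.I * ℓ)))
      rw [mul_one] at h5
      refine h5.congr_of_eventuallyEq (Eventually.of_forall fun w => ?_)
      simp only
      ring
    have h6 := (h3.cexp).const_mul (chi t)
    refine h6.congr_deriv ?_
    simp
  have h3 := h1.fun_sub h2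
  have h4 : ‖deriv chi t - chi t * (-(Complex.I * ℓ))‖ ≤ 8 / t := by
    refine le_of_forall_pos_le_add (fun ε hε => ?_)
    refine HasDerivAt.le_of_lip' h3 (by positivity) ?_
    have hball : ∀ᶠ w : ℝ in 𝓝 0, |w| < min (t / 2) (ε * t) := by
      have : (0 : ℝ) < min (t / 2) (ε * t) := by positivity
      have h := Metric.ball_mem_nhds (0 : ℝ) this
      filter_upwards [h] with w hw
      simpa [Real.dist_eq] using hw
    filter_upwards [hball] with w hw
    have hw1 : |w| ≤ t / 2 := (hw.trans_le (min_le_left _ _)).le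
    have hw2 : |w| ≤ ε * t := (hw.trans_le (min_le_right _ _)).le
    have h5 := chi_shift_of_le ht hw1
    rw [← hℓ] at h5
    have e0 : chi (t + 0) - chi t * Complex.exp (-(Complex.I * (0 : ℝ) * ℓ)) = 0 := by simp
    rw [e0, sub_zero, sub_zero, Real.norm_eq_abs]
    refine h5.trans ?_
    rw [div_le_iff₀ ht]
    have h6 : w ^ 2 = |w| * |w| := by rw [abs_mul_abs_self]; ring
    rw [h6]
    have h7 : |w| * |w| ≤ |w| * (ε * t) := by gcongr
    have h8 : (8 / t + ε) * |w| * t = 8 * |w| + |w| * (ε * t) := by field_simp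
    rw [h8]
    linarith
  have e : deriv chi t + Complex.I * ℓ * chi t = deriv chi t - chi t * (-(Complex.I * ℓ)) := by
    ring
  rw [e]
  exact h4

lemma chi_ne_zero (t : ℝ) : chi t ≠ 0 := by
  intro h
  have := norm_chi t
  rw [h, norm_zero] at this
  exact zero_ne_one this

lemma conj_chi (t : ℝ) : conj (chi t) = (chi t)⁻¹ := by
  rw [Complex.inv_eq_conj (norm_chi t)]

end Pool.Agent.H20.Chi
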