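import Mathlib
import Pool.Agent.Lib.MP_f9aece_nt.EM
import Pool.Agent.Lib.MP_f9aece_nt_h20.Chi

/-!
Smooth Dirichlet polynomials as integrals of zeta on the critical line, and their reflection
by the functional equation.
-/

set_option autoImplicit false

namespace Pool.Agent.H20.Smooth

open MeasureTheory Complex Set Filter Topology FourierTransform
open scoped SchwartzMap ComplexConjugate ContDiff
open Pool.Agent.Lib.MP_f9aece_nt (trap quad zeta_eq_sum trap_bound quad_ne_one tail_sum_sq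
  summable_trap)

/-! ### the Fourier transform -/

/-- the Fourier transform with positive sign and without normalisation -/
noncomputable def KF (κ : 𝓢(ℝ, ℂ)) (v : ℝ) : ℂ := ∫ x, κ x * cexp (I * v * x)

/-- the scaling `v ↦ -v/(2π)` -/
noncomputable def scl : ℝ ≃L[ℝ] ℝ :=
  ContinuousLinearEquiv.unitsEquivAut ℝ (Units.mk0 (-(1 / (2 * Real.pi)))
    (by have := Real.pi_pos; exact neg_ne_zero.mpr (by positivity)))

lemma scl_apply (v : ℝ) : scl v = -(1 / (2 * Real.pi)) * v := by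
  simp [scl, mul_comm]

/-- the transform as a Schwartz function -/
noncomputable def KS (κ : 𝓢(ℝ, ℂ)) : 𝓢(ℝ, ℂ) :=
  SchwartzMap.compCLMOfContinuousLinearEquiv ℂ scl (𝓕 κ)

lemma KS_apply (κ : 𝓢(ℝ, ℂ)) (v : ℝ) : KS κ v = KF κ v := by
  have h1 : KS κ v = (𝓕 κ : 𝓢(ℝ, ℂ)) (scl v) := by
    simp [KS]
  rw [h1, SchwartzMap.fourier_coe, Real.fourier_real_eq_integral_exp_smul, scl_apply]
  unfold KF
  refine integral_congr_ae (Eventually.of_forall fun x => ?_)
  simp only [smul_eq_mul]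
  rw [mul_comm]
  congr 2
  have := Real.pi_ne_zero
  push_cast
  field_simp

lemma KF_eq (κ : 𝓢(ℝ, ℂ)) : KF κ = KS κ := funext fun v => (KS_apply κ v).symm

lemma integrable_KF (κ : 𝓢(ℝ, ℂ)) : Integrable (KF κ) := by
  rw [KF_eq]; exact (KS κ).integrable

lemma integrable_pow_KF (κ : 𝓢(ℝ, ℂ)) (k : ℕ) : Integrable (fun v => |v| ^ k * ‖KF κ v‖) := by
  rw [KF_eq]
  simpa [Real.norm_eq_abs] using (KS κ).integrable_pow_mul volume k

/-- Fourier inversion -/
lemma inversion (κ : 𝓢(ℝ, ℂ)) (x : ℝ) :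
    κ x = 1 / (2 * Real.pi) * ∫ v, KF κ v * cexp (-(I * v * x)) := by
  have hpi := Real.pi_pos
  have h1 : (𝓕⁻ (𝓕 κ) : 𝓢(ℝ, ℂ)) x = κ x := by rw [fourierInv_fourier_eq]
  rw [SchwartzMap.fourierInv_coe, Real.fourierInv_eq'] at h1
  have h2 := Measure.integral_comp_mul_left (fun w : ℝ =>
    cexp ((2 * Real.pi * inner ℝ w x : ℝ) * I) • (𝓕 κ : 𝓢(ℝ, ℂ)) w) (-(1 / (2 * Real.pi)))
  rw [h1] at h2
  have h3 : |(-(1 / (2 * Real.pi)))⁻¹| = 2 * Real.pi := by
    rw [abs_inv, abs_neg, abs_of_pos (by positivity), one_div, inv_inv]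
  rw [h3] at h2
  have h4 : ∫ v, KF κ v * cexp (-(I * v * x)) = (2 * Real.pi) • κ x := by
    rw [← h2]
    refine integral_congr_ae (Eventually.of_forall fun v => ?_)
    simp only [smul_eq_mul]
    have h5 : KF κ v = (𝓕 κ : 𝓢(ℝ, ℂ)) (-(1 / (2 * Real.pi)) * v) := by
      rw [← KS_apply, ← scl_apply]; simp [KS]
    rw [h5, mul_comm]
    congr 2
    simp only [RCLike.inner_apply, conj_trivial]
    push_cast
    have : (Real.pi : ℂ) ≠ 0 := by exact_mod_cast hpi.ne'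
    field_simp
  rw [h4, Complex.real_smul]
  push_cast
  have : (Real.pi : ℂ) ≠ 0 := by exact_mod_cast hpi.ne'
  field_simp

/-! ### partial sums of zeta -/

/-- partial sums of zeta with the pole term -/
noncomputable def ZN (N : ℕ) (s : ℂ) : ℂ :=
  ∑ n ∈ Finset.Icc 1 N, (n : ℂ) ^ (-s) - (N : ℂ) ^ (1 - s) / (1 - s)

lemma natCast_cpow_conj (n : ℕ) (s : ℂ) : (n : ℂ) ^ (conj s) = conj ((n : ℂ) ^ s) := by
  have := Complex.cpow_conj (n : ℂ) s (by
    rw [Complex.natCast_arg]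
    exact Real.pi_ne_zero.symm)
  rw [Complex.conj_natCast] at this
  exact this

lemma ZN_conj (N : ℕ) (s : ℂ) : ZN N (conj s) = conj (ZN N s) := by
  unfold ZN
  rw [map_sub, map_sum, map_div₀, map_sub, map_one]
  congr 1
  · refine Finset.sum_congr rfl (fun n _ => ?_)
    rw [← natCast_cpow_conj, map_neg]
  · rw [← natCast_cpow_conj, map_sub, map_one]

lemma norm_s_le (t : ℝ) : ‖(1 / 2 + I * t : ℂ)‖ ≤ |t| + 1 / 2 := by
  calc ‖(1 / 2 + I * t : ℂ)‖ ≤ ‖(1 / 2 : ℂ)‖ + ‖I * (t : ℂ)‖ := norm_add_le _ _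
    _ = 1 / 2 + |t| := by
        rw [norm_mul, Complex.norm_I, Complex.norm_real, Real.norm_eq_abs]
        norm_num
    _ = _ := by ring

lemma zeta_sub_ZN_pos {t : ℝ} (ht : 0 < t) {N : ℕ} (hN : 1 ≤ N) :
    ‖riemannZeta (1 / 2 + I * t) - ZN N (1 / 2 + I * t)‖
      ≤ 2 * (1 + |t|) ^ 2 * (N : ℝ) ^ (-(1 / 2) : ℝ) := by
  set s : ℂ := 1 / 2 + I * t with hs
  have hsre : s.re = 1 / 2 := by simp [hs]
  have hsim : s.im = t := by simp [hs]
  have hq : s ∈ quad := by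
    constructor
    · rw [hsre]; norm_num
    · rw [hsim]; exact ht
  have hN0 : (0 : ℝ) < N := by exact_mod_cast hN
  have hN1 : (1 : ℝ) ≤ N := by exact_mod_cast hN
  have hs1 := quad_ne_one hq
  rw [zeta_eq_sum hq hN]
  have h1s : (1 : ℂ) - s ≠ 0 := sub_ne_zero.mpr (Ne.symm hs1)
  have h2s : s - 1 ≠ 0 := sub_ne_zero.mpr hs1
  have e : ∑ n ∈ Finset.Icc 1 N, (n : ℂ) ^ (-s) - (N : ℂ) ^ (-s) / 2
      + (N : ℂ) ^ (1 - s) / (s - 1) + ∑' n : ℕ, trap (n + N) s - ZN N s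
      = - ((N : ℂ) ^ (-s) / 2) + ∑' n : ℕ, trap (n + N) s := by
    unfold ZN
    have : (N : ℂ) ^ (1 - s) / (s - 1) = -((N : ℂ) ^ (1 - s) / (1 - s)) := by
      rw [← neg_sub 1 s, div_neg]
    rw [this]; ring
  rw [e]
  refine (norm_add_le _ _).trans ?_
  have hA : ‖-((N : ℂ) ^ (-s) / 2)‖ ≤ (N : ℝ) ^ (-(1 / 2) : ℝ) / 2 := by
    rw [norm_neg, norm_div, Complex.norm_natCast_cpow_of_pos hN]
    simp only [Complex.neg_re, hsre, Complex.norm_ofNat]
    exact le_rfl
  have hns : ‖s‖ ≤ |t| + 1 / 2 := norm_s_le t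
  have hns1 : ‖s + 1‖ ≤ |t| + 3 / 2 := by
    calc ‖s + 1‖ ≤ ‖s‖ + ‖(1 : ℂ)‖ := norm_add_le _ _
      _ ≤ _ := by rw [norm_one]; linarith
  have hsum : Summable (fun n : ℕ => 1 / ((n + N : ℕ) : ℝ) ^ 2) := by
    exact (summable_nat_add_iff (f := fun n : ℕ => 1 / ((n : ℕ) : ℝ) ^ 2) N).mpr
      (Real.summable_one_div_nat_pow.mpr (by norm_num : 1 < 2))
  have hterm : ∀ n : ℕ, ‖trap (n + N) s‖
      ≤ ((|t| + 1 / 2) * (|t| + 3 / 2) / 2) * (1 / ((n + N : ℕ) : ℝ) ^ 2) := by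
    intro n
    have hnN : 1 ≤ n + N := by omega
    refine (Pool.Agent.Lib.MP_f9aece_nt.trap_bound' hnN hq.1.le hs1).trans ?_
    gcongr
  have hB : ‖∑' n : ℕ, trap (n + N) s‖ ≤ (|t| + 1 / 2) * (|t| + 3 / 2) * (N : ℝ) ^ (-(1 / 2) : ℝ) := by
    calc ‖∑' n : ℕ, trap (n + N) s‖
        ≤ ∑' n : ℕ, ((|t| + 1 / 2) * (|t| + 3 / 2) / 2) * (1 / ((n + N : ℕ) : ℝ) ^ 2) :=
          tsum_of_norm_bounded ((hsum.mul_left _).hasSum) hterm
      _ = ((|t| + 1 / 2) * (|t| + 3 / 2) / 2) * ∑' n : ℕ, (1 / ((n + N : ℕ) : ℝ) ^ 2) :=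
          tsum_mul_left
      _ ≤ ((|t| + 1 / 2) * (|t| + 3 / 2) / 2) * (2 / N) := by
          gcongr
          exact tail_sum_sq N hN
      _ = (|t| + 1 / 2) * (|t| + 3 / 2) * (N : ℝ)⁻¹ := by field_simp
      _ ≤ (|t| + 1 / 2) * (|t| + 3 / 2) * (N : ℝ) ^ (-(1 / 2) : ℝ) := by
          gcongr
          rw [← Real.rpow_neg_one]
          exact Real.rpow_le_rpow_of_exponent_le hN1 (by norm_num)
  refine (add_le_add hA hB).trans ?_
  have hp : 0 ≤ (N : ℝ) ^ (-(1 / 2) : ℝ) := by positivity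
  have ht0 := abs_nonneg t
  calc (N : ℝ) ^ (-(1 / 2) : ℝ) / 2 + (|t| + 1 / 2) * (|t| + 3 / 2) * (N : ℝ) ^ (-(1 / 2) : ℝ)
      = (1 / 2 + (|t| + 1 / 2) * (|t| + 3 / 2)) * (N : ℝ) ^ (-(1 / 2) : ℝ) := by ring
    _ ≤ (2 * (1 + |t|) ^ 2) * (N : ℝ) ^ (-(1 / 2) : ℝ) := by
        gcongr
        nlinarith
    _ = _ := by ring

lemma conj_half (t : ℝ) : conj (1 / 2 + I * t : ℂ) = 1 / 2 + I * ((-t : ℝ) : ℂ) := by
  simp only [map_add, map_mul, map_div₀, map_one, Complex.conj_I, Complex.conj_ofReal,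
    map_ofNat]
  push_cast
  ring

lemma zeta_sub_ZN {t : ℝ} (ht : t ≠ 0) {N : ℕ} (hN : 1 ≤ N) :
    ‖riemannZeta (1 / 2 + I * t) - ZN N (1 / 2 + I * t)‖
      ≤ 2 * (1 + |t|) ^ 2 * (N : ℝ) ^ (-(1 / 2) : ℝ) := by
  rcases lt_or_gt_of_ne ht with h | h
  · have h1 := zeta_sub_ZN_pos (t := -t) (by linarith) hN
    rw [← conj_half, riemannZeta_conj, ZN_conj, ← map_sub, Complex.norm_conj, abs_neg] at h1
    exact h1
  · exact zeta_sub_ZN_pos h hN

lemma half_ne_one (t : ℝ) : (1 / 2 + I * t : ℂ) ≠ 1 := by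
  intro h
  have := congrArg Complex.re h
  norm_num at this

lemma continuous_zeta : Continuous (fun t : ℝ => riemannZeta (1 / 2 + I * t)) := by
  rw [continuous_iff_continuousAt]
  intro t
  have h1 : ContinuousAt riemannZeta (1 / 2 + I * t) :=
    (differentiableAt_riemannZeta (half_ne_one t)).continuousAt
  have h2 : ContinuousAt (fun t : ℝ => (1 / 2 + I * t : ℂ)) t := by fun_prop
  exact ContinuousAt.comp (f := fun t : ℝ => (1 / 2 + I * t : ℂ)) h1 h2

lemma half_le_norm (t : ℝ) : 1 / 2 ≤ ‖(1 - (1 / 2 + I * t) : ℂ)‖ := by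
  have h := Complex.abs_re_le_norm (1 - (1 / 2 + I * t) : ℂ)
  have h2 : (1 - (1 / 2 + I * t) : ℂ).re = 1 / 2 := by simp; norm_num
  rw [h2] at h
  rwa [abs_of_pos (by norm_num)] at h

lemma norm_ZN_one (t : ℝ) : ‖ZN 1 (1 / 2 + I * t)‖ ≤ 3 := by
  unfold ZN
  simp only [Finset.Icc_self, Finset.sum_singleton, Nat.cast_one, one_cpow]
  refine (norm_sub_le _ _).trans ?_
  rw [norm_one, norm_div, norm_one]
  have h := half_le_norm t
  have : 1 / ‖(1 - (1 / 2 + I * t) : ℂ)‖ ≤ 2 := by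
    rw [div_le_iff₀ (by linarith)]; linarith
  linarith

/-- crude growth on the critical line -/
lemma norm_zeta_le (t : ℝ) : ‖riemannZeta (1 / 2 + I * t)‖ ≤ 5 * (1 + |t|) ^ 2 := by
  have hne : ∀ t : ℝ, t ≠ 0 → ‖riemannZeta (1 / 2 + I * t)‖ ≤ 5 * (1 + |t|) ^ 2 := by
    intro t ht
    have h1 := zeta_sub_ZN ht (N := 1) le_rfl
    rw [Nat.cast_one, Real.one_rpow, mul_one] at h1
    have h2 := norm_ZN_one t
    have h3 : ‖riemannZeta (1 / 2 + I * t)‖ ≤ ‖riemannZeta (1 / 2 + I * t) - ZN 1 (1 / 2 + I * t)‖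
        + ‖ZN 1 (1 / 2 + I * t)‖ := by
      have := norm_add_le (riemannZeta (1 / 2 + I * t) - ZN 1 (1 / 2 + I * t))
        (ZN 1 (1 / 2 + I * t))
      simpa using this
    have h4 : 1 ≤ (1 + |t|) ^ 2 := by nlinarith [abs_nonneg t]
    linarith
  rcases eq_or_ne t 0 with rfl | ht
  · have h1 : Tendsto (fun t : ℝ => ‖riemannZeta (1 / 2 + I * t)‖) (𝓝[≠] 0)
        (𝓝 ‖riemannZeta (1 / 2 + I * (0 : ℝ))‖) :=
      (continuous_zeta.norm.tendsto 0).mono_left nhdsWithin_le_nhds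
    have h2 : Tendsto (fun t : ℝ => 5 * (1 + |t|) ^ 2) (𝓝[≠] 0) (𝓝 (5 * (1 + |0|) ^ 2)) := by
      have : Continuous (fun t : ℝ => 5 * (1 + |t|) ^ 2) := by fun_prop
      exact (this.tendsto 0).mono_left nhdsWithin_le_nhds
    refine le_of_tendsto_of_tendsto h1 h2 ?_
    filter_upwards [self_mem_nhdsWithin] with t ht
    exact hne t ht
  · exact hne t ht

lemma norm_ZN_le {t : ℝ} (ht : t ≠ 0) {N : ℕ} (hN : 1 ≤ N) :
    ‖ZN N (1 / 2 + I * t)‖ ≤ 7 * (1 + |t|) ^ 2 := by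
  have h1 := zeta_sub_ZN ht hN
  have h2 := norm_zeta_le t
  have hN1 : (1 : ℝ) ≤ N := by exact_mod_cast hN
  have h3 : (N : ℝ) ^ (-(1 / 2) : ℝ) ≤ 1 := Real.rpow_le_one_of_one_le_of_nonpos hN1 (by norm_num)
  have h4 : ‖ZN N (1 / 2 + I * t)‖ ≤ ‖riemannZeta (1 / 2 + I * t)‖ +
      ‖riemannZeta (1 / 2 + I * t) - ZN N (1 / 2 + I * t)‖ := by
    have := norm_sub_le (riemannZeta (1 / 2 + I * t))
      (riemannZeta (1 / 2 + I * t) - ZN N (1 / 2 + I * t))
    simpa using this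
  have h5 : 2 * (1 + |t|) ^ 2 * (N : ℝ) ^ (-(1 / 2) : ℝ) ≤ 2 * (1 + |t|) ^ 2 * 1 := by gcongr
  linarith

/-! ### the identity -/

lemma exp_term (κ : 𝓢(ℝ, ℂ)) (n : ℕ) (hn : 1 ≤ n) (t : ℝ) :
    κ (Real.log n) * (n : ℂ) ^ (-(1 / 2 + I * t : ℂ))
      = 1 / (2 * Real.pi) * ∫ v : ℝ, KF κ v * (n : ℂ) ^ (-(1 / 2 + I * (t + v : ℝ) : ℂ)) := by
  have hn' : (n : ℂ) ≠ 0 := by exact_mod_cast (by omega : n ≠ 0)
  have e : ∀ v : ℝ, KF κ v * (n : ℂ) ^ (-(1 / 2 + I * (t + v : ℝ) : ℂ))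
      = (KF κ v * cexp (-(I * v * Real.log n))) * (n : ℂ) ^ (-(1 / 2 + I * t : ℂ)) := by
    intro v
    rw [mul_assoc, Complex.cpow_def_of_ne_zero hn', Complex.cpow_def_of_ne_zero hn',
      ← Complex.exp_add, Complex.natCast_log]
    congr 2
    push_cast
    ring
  simp_rw [e]
  rw [integral_mul_const, inversion κ (Real.log n), mul_assoc]

lemma int_term (κ : 𝓢(ℝ, ℂ)) {N : ℕ} (hN : 1 ≤ N) (t : ℝ) :
    ∫ x in Iic (Real.log N), κ x * cexp ((1 / 2 - I * t) * x)
      = 1 / (2 * Real.pi) * ∫ v : ℝ, KF κ v * ((N : ℂ) ^ (1 - (1 / 2 + I * (t + v : ℝ)) : ℂ) /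
        (1 - (1 / 2 + I * (t + v : ℝ)))) := by
  have hN' : (N : ℂ) ≠ 0 := by exact_mod_cast (by omega : N ≠ 0)
  have e1 : ∀ v : ℝ, ((N : ℂ) ^ (1 - (1 / 2 + I * (t + v : ℝ)) : ℂ) /
        (1 - (1 / 2 + I * (t + v : ℝ))))
      = ∫ x in Iic (Real.log N), cexp ((1 / 2 - I * (t + v)) * x) := by
    intro v
    rw [integral_exp_mul_complex_Iic (by simp)]
    rw [Complex.cpow_def_of_ne_zero hN', ← Complex.natCast_log]
    have : (1 - (1 / 2 + I * (t + v : ℝ)) : ℂ) = 1 / 2 - I * (t + v) := by push_cast; ring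
    rw [this]
    congr 2
    ring
  simp_rw [e1]
  have hfub : Integrable (fun p : ℝ × ℝ => KF κ p.1 * cexp ((1 / 2 - I * (t + p.1)) * p.2))
      (volume.prod (volume.restrict (Iic (Real.log N)))) := by
    have h1 : Integrable (fun p : ℝ × ℝ => KF κ p.1 * (Real.exp (1 / 2 * p.2) : ℂ))
        (volume.prod (volume.restrict (Iic (Real.log N)))) := by
      refine (integrable_KF κ).mul_prod (f := KF κ) (g := fun x : ℝ => (Real.exp (1 / 2 * x) : ℂ)) ?_
      have := integrableOn_exp_mul_complex_Iic (a := (1 / 2 : ℂ)) (by simp) (Real.log N)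
      refine this.congr (Eventually.of_forall fun x => ?_)
      simp
    refine h1.mono ?_ (Eventually.of_forall fun p => ?_)
    · have hc : Continuous (KF κ) := by rw [KF_eq]; exact (KS κ).continuous
      have : Continuous (fun p : ℝ × ℝ => KF κ p.1 * cexp ((1 / 2 - I * (t + p.1)) * p.2)) := by
        fun_prop
      exact this.aestronglyMeasurable
    · rw [norm_mul, norm_mul, Complex.norm_exp]
      have : ((1 / 2 - I * (t + p.1)) * p.2 : ℂ).re = 1 / 2 * p.2 := by simp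
      rw [this, Complex.norm_real, Real.norm_eq_abs, abs_of_pos (Real.exp_pos _)]
  have h2 : ∫ v : ℝ, KF κ v * ∫ x in Iic (Real.log N), cexp ((1 / 2 - I * (t + v)) * x)
      = ∫ v : ℝ, ∫ x in Iic (Real.log N), KF κ v * cexp ((1 / 2 - I * (t + v)) * x) := by
    refine integral_congr_ae (Eventually.of_forall fun v => ?_)
    simp only
    rw [← integral_const_mul]
  rw [h2, integral_integral_swap hfub, ← integral_const_mul]
  refine integral_congr_ae (Eventually.of_forall fun x => ?_)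
  simp only
  have e2 : ∀ v : ℝ, KF κ v * cexp ((1 / 2 - I * (t + v)) * x)
      = (KF κ v * cexp (-(I * v * x))) * cexp ((1 / 2 - I * t) * x) := by
    intro v
    rw [mul_assoc, ← Complex.exp_add]
    congr 2
    ring
  simp_rw [e2]
  rw [integral_mul_const, inversion κ x, mul_assoc]

lemma finite_identity (κ : 𝓢(ℝ, ℂ)) {N : ℕ} (hN : 1 ≤ N) (t : ℝ) :
    ∑ n ∈ Finset.Icc 1 N, κ (Real.log n) * (n : ℂ) ^ (-(1 / 2 + I * t : ℂ))
      - ∫ x in Iic (Real.log N), κ x * cexp ((1 / 2 - I * t) * x)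
      = 1 / (2 * Real.pi) * ∫ v : ℝ, KF κ v * ZN N (1 / 2 + I * (t + v : ℝ)) := by
  have hint : ∀ n : ℕ, 1 ≤ n → Integrable (fun v : ℝ =>
      KF κ v * (n : ℂ) ^ (-(1 / 2 + I * (t + v : ℝ) : ℂ))) := by
    intro n hn
    have hn' : (n : ℂ) ≠ 0 := by exact_mod_cast (by omega : n ≠ 0)
    refine (integrable_KF κ).mul_bdd (c := 1) ?_ (Eventually.of_forall fun v => ?_)
    · have : Continuous (fun v : ℝ => (n : ℂ) ^ (-(1 / 2 + I * (t + v : ℝ) : ℂ))) := by
        refine Continuous.const_cpow (by fun_prop) (Or.inl hn')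
      exact this.aestronglyMeasurable
    · rw [Complex.norm_natCast_cpow_of_pos hn]
      have : (1 : ℝ) ≤ n := by exact_mod_cast hn
      refine Real.rpow_le_one_of_one_le_of_nonpos this ?_
      simp
  have hint2 : Integrable (fun v : ℝ => KF κ v *
      ((N : ℂ) ^ (1 - (1 / 2 + I * (t + v : ℝ)) : ℂ) / (1 - (1 / 2 + I * (t + v : ℝ))))) := by
    have hN' : (N : ℂ) ≠ 0 := by exact_mod_cast (by omega : N ≠ 0)
    refine (integrable_KF κ).mul_bdd (c := 2 * (N : ℝ) ^ (1 / 2 : ℝ)) ?_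
      (Eventually.of_forall fun v => ?_)
    · have h1 : Continuous (fun v : ℝ => (N : ℂ) ^ (1 - (1 / 2 + I * (t + v : ℝ)) : ℂ)) :=
        Continuous.const_cpow (by fun_prop) (Or.inl hN')
      have h2 : Continuous (fun v : ℝ => (1 - (1 / 2 + I * (t + v : ℝ)) : ℂ)) := by fun_prop
      have h3 : ∀ v : ℝ, (1 - (1 / 2 + I * (t + v : ℝ)) : ℂ) ≠ 0 := fun v h => by
        have := half_le_norm (t + v)
        rw [h, norm_zero] at this
        norm_num at this
      exact (h1.div h2 h3).aestronglyMeasurable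
    · rw [norm_div, Complex.norm_natCast_cpow_of_pos hN]
      have h1 : (1 - (1 / 2 + I * (t + v : ℝ)) : ℂ).re = 1 / 2 := by simp; norm_num
      rw [h1]
      have h2 := half_le_norm (t + v)
      rw [div_le_iff₀ (by linarith)]
      have h3 : 0 ≤ (N : ℝ) ^ (1 / 2 : ℝ) := by positivity
      nlinarith
  have e1 : ∀ v : ℝ, KF κ v * ZN N (1 / 2 + I * (t + v : ℝ))
      = ∑ n ∈ Finset.Icc 1 N, KF κ v * (n : ℂ) ^ (-(1 / 2 + I * (t + v : ℝ) : ℂ))
        - KF κ v * ((N : ℂ) ^ (1 - (1 / 2 + I * (t + v : ℝ)) : ℂ) /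
          (1 - (1 / 2 + I * (t + v : ℝ)))) := by
    intro v
    unfold ZN
    rw [mul_sub, Finset.mul_sum]
  simp_rw [e1]
  rw [integral_sub (integrable_finsetSum _ (fun n hn => hint n (Finset.mem_Icc.mp hn).1)) hint2,
    integral_finsetSum _ (fun n hn => hint n (Finset.mem_Icc.mp hn).1), mul_sub, Finset.mul_sum,
    int_term κ hN t]
  congr 1
  exact Finset.sum_congr rfl (fun n hn => exp_term κ n (Finset.mem_Icc.mp hn).1 t)

/-- **Smooth Dirichlet polynomials through zeta on the critical line.** -/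
theorem smooth_sum (κ : 𝓢(ℝ, ℂ)) {N : ℕ} (hN : 1 ≤ N)
    (hκ : ∀ x, Real.log N < x → κ x = 0) (t : ℝ) :
    ∑ n ∈ Finset.Icc 1 N, κ (Real.log n) * (n : ℂ) ^ (-(1 / 2 + I * t : ℂ))
      = (∫ x, κ x * cexp ((1 / 2 - I * t) * x))
      + 1 / (2 * Real.pi) * ∫ v : ℝ, KF κ v * riemannZeta (1 / 2 + I * (t + v : ℝ)) := by
  have hN0 : (0 : ℝ) < N := by exact_mod_cast hN
  -- the left side does not depend on `M ≥ N`
  have hconst : ∀ M : ℕ, N ≤ M →
      ∑ n ∈ Finset.Icc 1 M, κ (Real.log n) * (n : ℂ) ^ (-(1 / 2 + I * t : ℂ))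
        - ∫ x in Iic (Real.log M), κ x * cexp ((1 / 2 - I * t) * x)
      = ∑ n ∈ Finset.Icc 1 N, κ (Real.log n) * (n : ℂ) ^ (-(1 / 2 + I * t : ℂ))
        - ∫ x, κ x * cexp ((1 / 2 - I * t) * x) := by
    intro M hM
    congr 1
    · symm
      apply Finset.sum_subset (Finset.Icc_subset_Icc_right hM)
      intro n hn hn'
      simp only [Finset.mem_Icc, not_and, not_le] at hn hn'
      have h1 : N < n := hn' hn.1
      have h2 : Real.log N < Real.log n := Real.log_lt_log hN0 (by exact_mod_cast h1)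
      rw [hκ _ h2, zero_mul]
    · apply setIntegral_eq_integral_of_forall_compl_eq_zero
      intro x hx
      rw [mem_Iic, not_le] at hx
      have h2 : Real.log N ≤ Real.log M := Real.log_le_log hN0 (by exact_mod_cast hM)
      rw [hκ x (h2.trans_lt hx), zero_mul]
  have hlim : Tendsto (fun M : ℕ => ∫ v : ℝ, KF κ v * ZN M (1 / 2 + I * (t + v : ℝ))) atTop
      (𝓝 (∫ v : ℝ, KF κ v * riemannZeta (1 / 2 + I * (t + v : ℝ)))) := by
    have hc : Continuous (KF κ) := by rw [KF_eq]; exact (KS κ).continuous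
    refine tendsto_integral_of_dominated_convergence
      (fun v => 7 * (1 + |t| + |v|) ^ 2 * ‖KF κ v‖) ?_ ?_ ?_ ?_
    · intro M
      refine (hc.aestronglyMeasurable).mul ?_
      unfold ZN
      refine AEStronglyMeasurable.sub ?_ ?_
      · refine Finset.aestronglyMeasurable_fun_sum _ (fun n hn => ?_)
        have hn' : (n : ℂ) ≠ 0 := by
          exact_mod_cast (by have := (Finset.mem_Icc.mp hn).1; omega : n ≠ 0)
        have : Continuous (fun v : ℝ => (n : ℂ) ^ (-(1 / 2 + I * (t + v : ℝ) : ℂ))) :=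
          Continuous.const_cpow (by fun_prop) (Or.inl hn')
        exact this.aestronglyMeasurable
      · have h2 : Continuous (fun v : ℝ => (1 - (1 / 2 + I * (t + v : ℝ)) : ℂ)) := by fun_prop
        have h3 : ∀ v : ℝ, (1 - (1 / 2 + I * (t + v : ℝ)) : ℂ) ≠ 0 := fun v h => by
          have := half_le_norm (t + v)
          rw [h, norm_zero] at this
          norm_num at this
        have h1 : Continuous (fun v : ℝ => (M : ℂ) ^ (1 - (1 / 2 + I * (t + v : ℝ)) : ℂ)) :=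
          Continuous.const_cpow (by fun_prop) (Or.inr h3)
        exact (h1.div h2 h3).aestronglyMeasurable
    · have h1 := (integrable_pow_KF κ 0).const_mul (7 * (1 + |t|) ^ 2)
      have h2 := (integrable_pow_KF κ 1).const_mul (14 * (1 + |t|))
      have h3 := (integrable_pow_KF κ 2).const_mul 7
      refine ((h1.add h2).add h3).congr (Eventually.of_forall fun v => ?_)
      simp only [Pi.add_apply]
      ring
    · intro M
      have hae : ∀ᵐ v : ℝ, v ≠ -t := by simp [ae_iff]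
      filter_upwards [hae] with v hv
      rcases Nat.eq_zero_or_pos M with rfl | hM
      · have h3 : (1 - (1 / 2 + I * (t + v : ℝ)) : ℂ) ≠ 0 := fun h => by
          have := half_le_norm (t + v)
          rw [h, norm_zero] at this
          norm_num at this
        have : ZN 0 (1 / 2 + I * (t + v : ℝ)) = 0 := by
          unfold ZN
          rw [Nat.cast_zero, Complex.zero_cpow h3]
          simp
        rw [this, mul_zero, norm_zero]
        positivity
      · have hne : t + v ≠ 0 := fun h => hv (by linarith)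
        rw [norm_mul, mul_comm]
        have h1 := norm_ZN_le hne hM
        have h2 : |t + v| ≤ |t| + |v| := abs_add_le _ _
        have h3 : (1 + |t + v|) ^ 2 ≤ (1 + |t| + |v|) ^ 2 := by
          have := abs_nonneg (t + v)
          exact pow_le_pow_left₀ (by linarith) (by linarith) 2
        exact mul_le_mul_of_nonneg_right (by linarith) (norm_nonneg _)
    · have hae : ∀ᵐ v : ℝ, v ≠ -t := by simp [ae_iff]
      filter_upwards [hae] with v hv
      have hne : t + v ≠ 0 := fun h => hv (by linarith)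
      refine Tendsto.const_mul _ ?_
      rw [tendsto_iff_norm_sub_tendsto_zero]
      have h1 : Tendsto (fun M : ℕ => 2 * (1 + |t + v|) ^ 2 * (M : ℝ) ^ (-(1 / 2) : ℝ)) atTop
          (𝓝 (2 * (1 + |t + v|) ^ 2 * 0)) := by
        refine Tendsto.const_mul _ ?_
        exact (tendsto_rpow_neg_atTop (by norm_num)).comp tendsto_natCast_atTop_atTop
      rw [mul_zero] at h1
      refine squeeze_zero' (Eventually.of_forall fun M => norm_nonneg _) ?_ h1
      filter_upwards [eventually_ge_atTop 1] with M hM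
      rw [norm_sub_rev]
      exact zeta_sub_ZN hne hM
  have hlim2 := hlim.const_mul (1 / (2 * Real.pi) : ℂ)
  have hc2 : Tendsto (fun M : ℕ => (1 / (2 * Real.pi) : ℂ) *
      ∫ v : ℝ, KF κ v * ZN M (1 / 2 + I * (t + v : ℝ))) atTop
      (𝓝 (∑ n ∈ Finset.Icc 1 N, κ (Real.log n) * (n : ℂ) ^ (-(1 / 2 + I * t : ℂ))
        - ∫ x, κ x * cexp ((1 / 2 - I * t) * x))) := by
    refine tendsto_const_nhds.congr' ?_
    filter_upwards [eventually_ge_atTop N] with M hM
    rw [← finite_identity κ (hN.trans hM) t, hconst M hM]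
  have := tendsto_nhds_unique hc2 hlim2
  rw [← this]
  ring

/-! ### growth of zeta -/

lemma sum_inv_sqrt_le (N : ℕ) :
    ∑ n ∈ Finset.Icc 1 N, (n : ℝ) ^ (-(1 / 2) : ℝ) ≤ 2 * Real.sqrt N := by
  induction N with
  | zero => simp
  | succ N ih =>
    rw [Finset.sum_Icc_succ_top (by omega)]
    have h0 : (0 : ℝ) ≤ N := Nat.cast_nonneg N
    have h1 : ((N + 1 : ℕ) : ℝ) ^ (-(1 / 2) : ℝ) = 1 / Real.sqrt (N + 1) := by
      rw [Real.rpow_neg (by positivity), ← Real.sqrt_eq_rpow, one_div]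
      push_cast
      rfl
    rw [h1]
    push_cast
    have h2 : 0 < Real.sqrt (N + 1) := Real.sqrt_pos.mpr (by positivity)
    have h3 : 1 / Real.sqrt (N + 1) ≤ 2 * (Real.sqrt (N + 1) - Real.sqrt N) := by
      rw [div_le_iff₀ h2]
      have h4 : Real.sqrt (N + 1) ^ 2 = N + 1 := Real.sq_sqrt (by positivity)
      have h5 : Real.sqrt N ^ 2 = N := Real.sq_sqrt h0
      have h6 : 0 ≤ Real.sqrt N := Real.sqrt_nonneg _
      nlinarith [sq_nonneg (Real.sqrt (N + 1) - Real.sqrt N)]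
    linarith

/-- `|ζ(1/2+it)| ≤ 20 (1+|t|)^{1/2}` -/
lemma norm_zeta_le_sqrt (t : ℝ) :
    ‖riemannZeta (1 / 2 + I * t)‖ ≤ 20 * Real.sqrt (1 + |t|) := by
  have hpos : ∀ t : ℝ, 0 ≤ t → ‖riemannZeta (1 / 2 + I * t)‖ ≤ 20 * Real.sqrt (1 + |t|) := by
    intro t ht0
    rw [abs_of_nonneg ht0]
    rcases le_or_gt t 1 with ht | ht
    · have h1 := norm_zeta_le t
      rw [abs_of_nonneg ht0] at h1
      have h2 : 1 ≤ Real.sqrt (1 + t) := by
        rw [Real.one_le_sqrt]; linarith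
      nlinarith
    · have hN : 1 ≤ ⌈t⌉₊ := Nat.one_le_ceil_iff.mpr (by linarith)
      have h1 := Pool.Agent.Lib.MP_f9aece_nt.zeta_approx ht.le hN
      have hc1 : t ≤ (⌈t⌉₊ : ℝ) := Nat.le_ceil t
      have hc2 : (⌈t⌉₊ : ℝ) < t + 1 := Nat.ceil_lt_add_one ht0
      set N : ℕ := ⌈t⌉₊
      have hN1 : (1 : ℝ) ≤ N := by exact_mod_cast hN
      have hs : ‖∑ n ∈ Finset.Icc 1 N, (n : ℂ) ^ (-(1 / 2 + I * t : ℂ))‖
          ≤ 2 * Real.sqrt (1 + t) := by
        refine (norm_sum_le _ _).trans ?_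
        have : ∀ n ∈ Finset.Icc 1 N, ‖(n : ℂ) ^ (-(1 / 2 + I * t : ℂ))‖
            = (n : ℝ) ^ (-(1 / 2) : ℝ) := by
          intro n hn
          rw [Complex.norm_natCast_cpow_of_pos (Finset.mem_Icc.mp hn).1]
          simp
        rw [Finset.sum_congr rfl this]
        refine (sum_inv_sqrt_le N).trans ?_
        gcongr
        linarith
      have hA : (N : ℝ) ^ (-(1 / 2) : ℝ) ≤ 1 :=
        Real.rpow_le_one_of_one_le_of_nonpos hN1 (by norm_num)
      have hB : (N : ℝ) ^ (1 / 2 : ℝ) / t ≤ Real.sqrt (1 + t) := by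
        rw [← Real.sqrt_eq_rpow]
        have : Real.sqrt N ≤ Real.sqrt (1 + t) := Real.sqrt_le_sqrt (by linarith)
        rw [div_le_iff₀ (by linarith)]
        have h0 : 0 ≤ Real.sqrt (1 + t) := Real.sqrt_nonneg _
        nlinarith
      have hC : 9 * t ^ 2 * (N : ℝ) ^ (-(3 / 2) : ℝ) ≤ 9 * Real.sqrt (1 + t) := by
        have h2 : (N : ℝ) ^ (-(3 / 2) : ℝ) ≤ t ^ (-(3 / 2) : ℝ) :=
          Real.rpow_le_rpow_of_nonpos (by linarith) hc1 (by norm_num)
        have h3 : t ^ 2 * t ^ (-(3 / 2) : ℝ) = Real.sqrt t := by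
          rw [Real.sqrt_eq_rpow, ← Real.rpow_natCast, ← Real.rpow_add (by linarith)]
          norm_num
        have h4 : Real.sqrt t ≤ Real.sqrt (1 + t) := Real.sqrt_le_sqrt (by linarith)
        calc 9 * t ^ 2 * (N : ℝ) ^ (-(3 / 2) : ℝ) ≤ 9 * t ^ 2 * t ^ (-(3 / 2) : ℝ) := by gcongr
          _ = 9 * Real.sqrt t := by rw [mul_assoc, h3]
          _ ≤ _ := by gcongr
      have h1s : 1 ≤ Real.sqrt (1 + t) := by
        rw [Real.one_le_sqrt]; linarith
      have h5 : ‖riemannZeta (1 / 2 + I * t)‖ ≤ ‖riemannZeta (1 / 2 + I * t) -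
          ∑ n ∈ Finset.Icc 1 N, (n : ℂ) ^ (-(1 / 2 + I * t : ℂ))‖ +
          ‖∑ n ∈ Finset.Icc 1 N, (n : ℂ) ^ (-(1 / 2 + I * t : ℂ))‖ := by
        have := norm_add_le (riemannZeta (1 / 2 + I * t) -
          ∑ n ∈ Finset.Icc 1 N, (n : ℂ) ^ (-(1 / 2 + I * t : ℂ)))
          (∑ n ∈ Finset.Icc 1 N, (n : ℂ) ^ (-(1 / 2 + I * t : ℂ)))
        simpa using this
      linarith
  rcases le_total 0 t with h | h
  · exact hpos t h
  · have h1 := hpos (-t) (by linarith)
    rw [← conj_half, riemannZeta_conj, Complex.norm_conj, abs_neg] at h1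
    exact h1

/-! ### the polar term -/

lemma polar_one {f : ℝ → ℂ} (hf : ContDiff ℝ 1 f) (hc : HasCompactSupport f) {a : ℂ} :
    ∫ x : ℝ, deriv f x * cexp (a * x) = -(a * ∫ x : ℝ, f x * cexp (a * x)) := by
  have hd : ∀ x : ℝ, HasDerivAt (fun x : ℝ => f x * cexp (a * x))
      (deriv f x * cexp (a * x) + f x * (cexp (a * x) * a)) x := by
    intro x
    have h1 : HasDerivAt f (deriv f x) x :=
      ((hf.differentiable (by norm_num)) x).hasDerivAt
    have h2 : HasDerivAt (fun x : ℝ => cexp (a * x)) (cexp (a * x) * a) x := by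
      have h3 : HasDerivAt (fun x : ℝ => a * (x : ℂ)) (a * 1) x :=
        (Complex.ofRealCLM.hasDerivAt (x := x)).const_mul a
      rw [mul_one] at h3
      exact h3.cexp
    exact h1.fun_mul h2
  have hcd : Continuous (deriv f) := hf.continuous_deriv (by norm_num)
  have hi1 : Integrable (fun x : ℝ => deriv f x * cexp (a * x)) := by
    refine Continuous.integrable_of_hasCompactSupport (by fun_prop) ?_
    exact hc.deriv.mul_right
  have hcf := hf.continuous
  have hi2 : Integrable (fun x : ℝ => f x * cexp (a * x)) := by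
    refine Continuous.integrable_of_hasCompactSupport (by fun_prop) ?_
    exact hc.mul_right
  have hi3 : Integrable (fun x : ℝ => f x * (cexp (a * x) * a)) := by
    refine (hi2.mul_const a).congr (Eventually.of_forall fun x => ?_)
    simp only; ring
  have h := integral_eq_zero_of_hasDerivAt_of_integrable hd (hi1.add hi3) hi2
  rw [integral_add hi1 hi3] at h
  have e : ∫ x : ℝ, f x * (cexp (a * x) * a) = a * ∫ x : ℝ, f x * cexp (a * x) := by
    rw [← integral_const_mul]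
    refine integral_congr_ae (Eventually.of_forall fun x => ?_)
    simp only; ring
  rw [e] at h
  exact eq_neg_of_add_eq_zero_left h

lemma polar_iter (m : ℕ) : ∀ {f : ℝ → ℂ}, ContDiff ℝ m f → HasCompactSupport f → ∀ {a : ℂ},
    ∫ x : ℝ, iteratedDeriv m f x * cexp (a * x) = (-a) ^ m * ∫ x : ℝ, f x * cexp (a * x) := by
  induction m with
  | zero => intro f _ _ a; simp
  | succ m ih =>
    intro f hf hc a
    have h1 : ContDiff ℝ m (deriv f) := by
      have := (contDiff_succ_iff_deriv (n := m) (f := f)).mp (by exact_mod_cast hf)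
      exact this.2.2
    have h2 := ih h1 hc.deriv (a := a)
    rw [iteratedDeriv_succ', h2, polar_one (hf.of_le (by
      exact_mod_cast (Nat.succ_le_succ (Nat.zero_le m)))) hc]
    ring

/-- decay of the polar term -/
lemma norm_polar_le {f : ℝ → ℂ} (m : ℕ) (hf : ContDiff ℝ m f) (hc : HasCompactSupport f)
    {t : ℝ} (ht : 0 < t) :
    ‖∫ x : ℝ, f x * cexp ((1 / 2 - I * t) * x)‖
      ≤ (∫ x : ℝ, ‖iteratedDeriv m f x‖ * Real.exp (x / 2)) / t ^ m := by
  have h := polar_iter m hf hc (a := (1 / 2 - I * t))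
  have hn : t ≤ ‖(1 / 2 - I * t : ℂ)‖ := by
    have h1 := Complex.abs_im_le_norm (1 / 2 - I * t : ℂ)
    have h2 : (1 / 2 - I * t : ℂ).im = -t := by simp
    rw [h2, abs_neg, abs_of_pos ht] at h1
    exact h1
  rw [le_div_iff₀ (by positivity)]
  calc ‖∫ x : ℝ, f x * cexp ((1 / 2 - I * t) * x)‖ * t ^ m
      ≤ ‖∫ x : ℝ, f x * cexp ((1 / 2 - I * t) * x)‖ * ‖(1 / 2 - I * t : ℂ)‖ ^ m := by gcongr
    _ = ‖(-(1 / 2 - I * t : ℂ)) ^ m * ∫ x : ℝ, f x * cexp ((1 / 2 - I * t) * x)‖ := by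
        rw [norm_mul, norm_pow, norm_neg]; ring
    _ = ‖∫ x : ℝ, iteratedDeriv m f x * cexp ((1 / 2 - I * t) * x)‖ := by rw [h]
    _ ≤ ∫ x : ℝ, ‖iteratedDeriv m f x * cexp ((1 / 2 - I * t) * x)‖ :=
        norm_integral_le_integral_norm _
    _ = ∫ x : ℝ, ‖iteratedDeriv m f x‖ * Real.exp (x / 2) := by
        refine integral_congr_ae (Eventually.of_forall fun x => ?_)
        simp only
        rw [norm_mul, Complex.norm_exp]
        congr 2
        simp
        ring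

/-! ### reflection -/

open Pool.Agent.H20.Chi (chi zeta_eq norm_chi chi_shift)

/-- the Dirichlet polynomial with smooth weight `κ(log n)` -/
noncomputable def PS (κ : ℝ → ℂ) (N : ℕ) (t : ℝ) : ℂ :=
  ∑ n ∈ Finset.Icc 1 N, κ (Real.log n) * (n : ℂ) ^ (-(1 / 2 + I * t : ℂ))

/-- the third moment of the transform -/
noncomputable def M3 (κ : 𝓢(ℝ, ℂ)) : ℝ :=
  ∫ v, (|v| + 2 * |v| ^ 2 + |v| ^ 3) * ‖KF κ v‖

lemma integrable_M3 (κ : 𝓢(ℝ, ℂ)) :
    Integrable (fun v => (|v| + 2 * |v| ^ 2 + |v| ^ 3) * ‖KF κ v‖) := by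
  have h1 := integrable_pow_KF κ 1
  have h2 := (integrable_pow_KF κ 2).const_mul 2
  have h3 := integrable_pow_KF κ 3
  refine ((h1.add h2).add h3).congr (Eventually.of_forall fun v => ?_)
  simp only [Pi.add_apply]
  ring

lemma KF_reflect {κ κ' : 𝓢(ℝ, ℂ)} {ℓ : ℝ} (h : ∀ y, κ' y = conj (κ (ℓ - y))) (v : ℝ) :
    conj (KF κ' v) = KF κ v * cexp (-(I * v * ℓ)) := by
  unfold KF
  rw [← integral_conj, ← integral_mul_const]
  rw [← integral_sub_left_eq_self (fun x => conj (κ' x * cexp (I * v * x))) volume ℓ]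
  refine integral_congr_ae (Eventually.of_forall fun x => ?_)
  simp only
  rw [h, sub_sub_cancel, map_mul, Complex.conj_conj, ← Complex.exp_conj, mul_assoc (κ x),
    ← Complex.exp_add]
  congr 2
  simp only [map_mul, Complex.conj_I, Complex.conj_ofReal]
  push_cast
  ring

/-- **Reflection of smooth Dirichlet polynomials.** -/
theorem reflection {κ κ' : 𝓢(ℝ, ℂ)} {t : ℝ} (ht : 1 ≤ t)
    (h : ∀ y, κ' y = conj (κ (Real.log (t / (2 * Real.pi)) - y)))
    {N N' : ℕ} (hN : 1 ≤ N) (hN' : 1 ≤ N')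
    (hκ : ∀ x, Real.log N < x → κ x = 0) (hκ' : ∀ x, Real.log N' < x → κ' x = 0) :
    ‖PS κ N t - chi t * conj (PS κ' N' t)‖
      ≤ ‖∫ x, κ x * cexp ((1 / 2 - I * t) * x)‖ + ‖∫ x, κ' x * cexp ((1 / 2 - I * t) * x)‖
        + 40 / Real.sqrt t * M3 κ := by
  set ℓ := Real.log (t / (2 * Real.pi)) with hℓ
  have ht0 : 0 < t := by linarith
  have hpi := Real.pi_pos
  have h1 := smooth_sum κ hN hκ t
  have h2 := smooth_sum κ' hN' hκ' t
  have hcK : Continuous (KF κ) := by rw [KF_eq]; exact (KS κ).continuous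
  have hcK' : Continuous (KF κ') := by rw [KF_eq]; exact (KS κ').continuous
  have hcz : Continuous (fun v : ℝ => riemannZeta (1 / 2 + I * (t + v : ℝ))) :=
    continuous_zeta.comp (continuous_const.add continuous_id)
  have hcc : Continuous (fun v : ℝ => chi (t + v)) :=
    Pool.Agent.H20.Chi.continuous_chi.comp (continuous_const.add continuous_id)
  -- integrability
  have hz : ∀ v : ℝ, ‖riemannZeta (1 / 2 + I * (t + v : ℝ))‖
      ≤ 20 * Real.sqrt (2 * t) * (1 + |v|) := by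
    intro v
    refine (norm_zeta_le_sqrt (t + v)).trans ?_
    have h3 : 1 + |t + v| ≤ 2 * t * (1 + |v|) := by
      have h4 : |t + v| ≤ t + |v| := by
        have := abs_add_le t v
        rwa [abs_of_pos ht0] at this
      have := abs_nonneg v
      nlinarith
    have h5 : Real.sqrt (1 + |t + v|) ≤ Real.sqrt (2 * t) * (1 + |v|) := by
      refine (Real.sqrt_le_sqrt h3).trans ?_
      rw [Real.sqrt_mul (by positivity)]
      have h6 : Real.sqrt (1 + |v|) ≤ 1 + |v| := by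
        rw [Real.sqrt_le_left (by positivity)]
        nlinarith [abs_nonneg v]
      gcongr
    calc 20 * Real.sqrt (1 + |t + v|) ≤ 20 * (Real.sqrt (2 * t) * (1 + |v|)) := by gcongr
      _ = _ := by ring
  have hI : ∀ κ₁ : 𝓢(ℝ, ℂ), Integrable (fun v : ℝ => KF κ₁ v *
      riemannZeta (1 / 2 + I * (t + v : ℝ))) := by
    intro κ₁
    have hcK₁ : Continuous (KF κ₁) := by rw [KF_eq]; exact (KS κ₁).continuous
    have h3 := ((integrable_pow_KF κ₁ 0).add (integrable_pow_KF κ₁ 1)).const_mul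
      (20 * Real.sqrt (2 * t))
    refine h3.mono' (hcK₁.mul hcz).aestronglyMeasurable (Eventually.of_forall fun v => ?_)
    rw [norm_mul]
    simp only [Pi.add_apply]
    calc ‖KF κ₁ v‖ * ‖riemannZeta (1 / 2 + I * (t + v : ℝ))‖
        ≤ ‖KF κ₁ v‖ * (20 * Real.sqrt (2 * t) * (1 + |v|)) := by gcongr; exact hz v
      _ = _ := by ring
  -- the main comparison
  have e1 : PS κ N t - chi t * conj (PS κ' N' t)
      = (∫ x, κ x * cexp ((1 / 2 - I * t) * x))
        - chi t * conj (∫ x, κ' x * cexp ((1 / 2 - I * t) * x))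
        + 1 / (2 * Real.pi) * ∫ v : ℝ, KF κ v * (chi (t + v) -
          chi t * cexp (-(I * v * ℓ))) * conj (riemannZeta (1 / 2 + I * (t + v : ℝ))) := by
    unfold PS
    have e2 : conj (1 / (2 * Real.pi) : ℂ) = 1 / (2 * Real.pi) := by
      simp only [map_div₀, map_one, map_mul, map_ofNat, Complex.conj_ofReal]
    have e3 : ∀ v : ℝ, conj (KF κ' v * riemannZeta (1 / 2 + I * (t + v : ℝ)))
        = KF κ v * cexp (-(I * v * ℓ)) * conj (riemannZeta (1 / 2 + I * (t + v : ℝ))) := by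
      intro v
      rw [map_mul, KF_reflect h v]
    have e4 : ∀ v : ℝ, KF κ v * riemannZeta (1 / 2 + I * (t + v : ℝ))
        = KF κ v * (chi (t + v) * conj (riemannZeta (1 / 2 + I * (t + v : ℝ)))) := by
      intro v
      rw [← zeta_eq]
    have hIa : Integrable (fun v : ℝ => KF κ v * (chi (t + v) *
        conj (riemannZeta (1 / 2 + I * (t + v : ℝ))))) := by
      refine (hI κ).congr (Eventually.of_forall fun v => ?_)
      simp only
      rw [← e4]
    have hIb : Integrable (fun v : ℝ => KF κ v * cexp (-(I * v * ℓ)) *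
        conj (riemannZeta (1 / 2 + I * (t + v : ℝ)))) := by
      have := (hI κ').norm
      refine ((integrable_norm_iff ?_).mp (this.congr (Eventually.of_forall fun v => ?_)))
      · have : Continuous (fun v : ℝ => cexp (-(I * v * ℓ))) := by fun_prop
        exact ((hcK.mul this).mul (Complex.continuous_conj.comp hcz)).aestronglyMeasurable
      · simp only
        rw [← e3, Complex.norm_conj]
    have e6 : conj (∫ v : ℝ, KF κ' v * riemannZeta (1 / 2 + I * (t + v : ℝ)))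
        = ∫ v : ℝ, KF κ v * cexp (-(I * v * ℓ)) *
          conj (riemannZeta (1 / 2 + I * (t + v : ℝ))) := by
      rw [← integral_conj]
      exact integral_congr_ae (Eventually.of_forall e3)
    have e7 : ∫ v : ℝ, KF κ v * riemannZeta (1 / 2 + I * (t + v : ℝ))
        = ∫ v : ℝ, KF κ v * (chi (t + v) * conj (riemannZeta (1 / 2 + I * (t + v : ℝ)))) :=
      integral_congr_ae (Eventually.of_forall e4)
    rw [h1, h2, map_add, map_mul, e2, e6, e7]
    have e5 : ∫ v : ℝ, KF κ v * (chi (t + v) - chi t * cexp (-(I * v * ℓ))) *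
          conj (riemannZeta (1 / 2 + I * (t + v : ℝ)))
        = (∫ v : ℝ, KF κ v * (chi (t + v) * conj (riemannZeta (1 / 2 + I * (t + v : ℝ)))))
          - chi t * ∫ v : ℝ, KF κ v * cexp (-(I * v * ℓ)) *
            conj (riemannZeta (1 / 2 + I * (t + v : ℝ))) := by
      rw [← integral_const_mul, ← integral_sub hIa (hIb.const_mul _)]
      refine integral_congr_ae (Eventually.of_forall fun v => ?_)
      ring
    rw [e5]
    ring
  rw [e1]
  refine (norm_add_le _ _).trans (add_le_add ?_ ?_)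
  · refine (norm_sub_le _ _).trans (le_of_eq ?_)
    rw [norm_mul, norm_chi, one_mul, Complex.norm_conj]
  · have hb : ∀ v : ℝ, ‖KF κ v * (chi (t + v) - chi t * cexp (-(I * v * ℓ))) *
        conj (riemannZeta (1 / 2 + I * (t + v : ℝ)))‖
        ≤ (160 * Real.sqrt (2 * t) / t) * ((|v| + 2 * |v| ^ 2 + |v| ^ 3) * ‖KF κ v‖) := by
      intro v
      rw [norm_mul, norm_mul, Complex.norm_conj]
      have h3 := chi_shift ht v
      rw [← hℓ] at h3
      have hs2 : v ^ 2 = |v| ^ 2 := (sq_abs v).symm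
      rw [hs2] at h3
      calc ‖KF κ v‖ * ‖chi (t + v) - chi t * cexp (-(I * v * ℓ))‖ *
            ‖riemannZeta (1 / 2 + I * (t + v : ℝ))‖
          ≤ ‖KF κ v‖ * (8 * (|v| + |v| ^ 2) / t) * (20 * Real.sqrt (2 * t) * (1 + |v|)) := by
            gcongr
            exact hz v
        _ = _ := by ring
    have h4 : ‖∫ v : ℝ, KF κ v * (chi (t + v) - chi t * cexp (-(I * v * ℓ))) *
        conj (riemannZeta (1 / 2 + I * (t + v : ℝ)))‖ ≤ (160 * Real.sqrt (2 * t) / t) * M3 κ := by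
      refine (norm_integral_le_of_norm_le ((integrable_M3 κ).const_mul _)
        (Eventually.of_forall hb)).trans (le_of_eq ?_)
      rw [integral_const_mul]
      rfl
    rw [norm_mul]
    have h5 : ‖(1 / (2 * Real.pi) : ℂ)‖ = 1 / (2 * Real.pi) := by
      have : (1 / (2 * Real.pi) : ℂ) = ((1 / (2 * Real.pi) : ℝ) : ℂ) := by push_cast; ring
      rw [this, Complex.norm_real, Real.norm_eq_abs, abs_of_pos (by positivity)]
    rw [h5]
    have hM : 0 ≤ M3 κ := integral_nonneg fun v => by positivity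
    have h6 : 1 / (2 * Real.pi) * (160 * Real.sqrt (2 * t) / t) ≤ 40 / Real.sqrt t := by
      have hst : 0 < Real.sqrt t := Real.sqrt_pos.mpr ht0
      have h7 : Real.sqrt (2 * t) = Real.sqrt 2 * Real.sqrt t := Real.sqrt_mul (by norm_num) t
      have h8 : t = Real.sqrt t * Real.sqrt t := (Real.mul_self_sqrt ht0.le).symm
      have h9 : 1 / (2 * Real.pi) * (160 * Real.sqrt (2 * t) / t)
          = (80 * Real.sqrt 2 / Real.pi) / Real.sqrt t := by
        rw [h7]
        nth_rw 2 [h8]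
        field_simp
        norm_num
      rw [h9]
      gcongr
      rw [div_le_iff₀ hpi]
      have h10 : Real.sqrt 2 ≤ 1.5 := by
        rw [Real.sqrt_le_left (by norm_num)]; norm_num
      have := Real.pi_gt_three
      linarith
    calc _ ≤ 1 / (2 * Real.pi) * ((160 * Real.sqrt (2 * t) / t) * M3 κ) := by gcongr
      _ = (1 / (2 * Real.pi) * (160 * Real.sqrt (2 * t) / t)) * M3 κ := by ring
      _ ≤ _ := by gcongr

/-! ### explicit form -/

/-- `L¹` norm of a derivative -/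
noncomputable def I1 (f : ℝ → ℂ) (m : ℕ) : ℝ := ∫ x, ‖iteratedDeriv m f x‖

/-- weighted `L¹` norm of a derivative -/
noncomputable def J1 (f : ℝ → ℂ) (m : ℕ) : ℝ := ∫ x, ‖iteratedDeriv m f x‖ * Real.exp (x / 2)

lemma pow_KF_le (κ : 𝓢(ℝ, ℂ)) (hc : HasCompactSupport κ) (m : ℕ) (v : ℝ) :
    |v| ^ m * ‖KF κ v‖ ≤ I1 κ m := by
  have h := polar_iter m (f := κ) (κ.smooth m) hc (a := I * v)
  have h2 : ‖(-(I * v : ℂ)) ^ m‖ = |v| ^ m := by
    rw [norm_pow, norm_neg, norm_mul, Complex.norm_I, one_mul, Complex.norm_real,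
      Real.norm_eq_abs]
  calc |v| ^ m * ‖KF κ v‖ = ‖(-(I * v : ℂ)) ^ m * ∫ x : ℝ, κ x * cexp (I * v * x)‖ := by
        rw [norm_mul, h2]; rfl
    _ = ‖∫ x : ℝ, iteratedDeriv m κ x * cexp (I * v * x)‖ := by rw [h]
    _ ≤ ∫ x : ℝ, ‖iteratedDeriv m κ x * cexp (I * v * x)‖ := norm_integral_le_integral_norm _
    _ = I1 κ m := by
        unfold I1
        refine integral_congr_ae (Eventually.of_forall fun x => ?_)
        simp only
        rw [norm_mul, Complex.norm_exp]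
        simp

lemma M3_le (κ : 𝓢(ℝ, ℂ)) (hc : HasCompactSupport κ) :
    M3 κ ≤ Real.pi * (2 * I1 κ 1 + 4 * I1 κ 3 + 2 * I1 κ 5) := by
  set B := 2 * I1 κ 1 + 4 * I1 κ 3 + 2 * I1 κ 5 with hB
  have h : ∀ v : ℝ, (|v| + 2 * |v| ^ 2 + |v| ^ 3) * ‖KF κ v‖ ≤ B * (1 + v ^ 2)⁻¹ := by
    intro v
    have h1 := pow_KF_le κ hc 1 v
    have h3 := pow_KF_le κ hc 3 v
    have h5 := pow_KF_le κ hc 5 v
    rw [← div_eq_mul_inv, le_div_iff₀ (by positivity), ← sq_abs v]
    have h0 := norm_nonneg (KF κ v)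
    have hv := abs_nonneg v
    set y := |v| with hy
    set K := ‖KF κ v‖ with hK
    have e1 : 2 * y ^ 2 ≤ y + y ^ 3 := by nlinarith [mul_nonneg hv (sq_nonneg (y - 1))]
    have e2 : 2 * y ^ 4 ≤ y ^ 3 + y ^ 5 := by
      have : 0 ≤ y ^ 3 * (y - 1) ^ 2 := by positivity
      nlinarith
    have e3 : (y + 2 * y ^ 2 + y ^ 3) * (1 + y ^ 2) ≤ 2 * y ^ 1 + 4 * y ^ 3 + 2 * y ^ 5 := by
      nlinarith
    calc (y + 2 * y ^ 2 + y ^ 3) * K * (1 + y ^ 2)
        = ((y + 2 * y ^ 2 + y ^ 3) * (1 + y ^ 2)) * K := by ring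
      _ ≤ (2 * y ^ 1 + 4 * y ^ 3 + 2 * y ^ 5) * K := by gcongr
      _ = 2 * (y ^ 1 * K) + 4 * (y ^ 3 * K) + 2 * (y ^ 5 * K) := by ring
      _ ≤ B := by rw [hB]; linarith
  unfold M3
  calc ∫ v, (|v| + 2 * |v| ^ 2 + |v| ^ 3) * ‖KF κ v‖ ≤ ∫ v : ℝ, B * (1 + v ^ 2)⁻¹ :=
        integral_mono (integrable_M3 κ) (integrable_inv_one_add_sq.const_mul B) h
    _ = B * Real.pi := by rw [integral_const_mul, integral_univ_inv_one_add_sq]
    _ = _ := by ring

/-- **Reflection with explicit errors.** -/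
theorem reflection_explicit {κ κ' : 𝓢(ℝ, ℂ)} (hc : HasCompactSupport κ)
    (hc' : HasCompactSupport κ') {t : ℝ} (ht : 1 ≤ t)
    (h : ∀ y, κ' y = conj (κ (Real.log (t / (2 * Real.pi)) - y)))
    {N N' : ℕ} (hN : 1 ≤ N) (hN' : 1 ≤ N')
    (hκ : ∀ x, Real.log N < x → κ x = 0) (hκ' : ∀ x, Real.log N' < x → κ' x = 0) (m : ℕ) :
    ‖PS κ N t - chi t * conj (PS κ' N' t)‖
      ≤ (J1 κ m + J1 κ' m) / t ^ m
        + 40 / Real.sqrt t * (Real.pi * (2 * I1 κ 1 + 4 * I1 κ 3 + 2 * I1 κ 5)) := by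
  have ht0 : 0 < t := by linarith
  refine (reflection ht h hN hN' hκ hκ').trans ?_
  have h1 := norm_polar_le m (κ.smooth m) hc ht0
  have h2 := norm_polar_le m (κ'.smooth m) hc' ht0
  have h3 := M3_le κ hc
  have h4 : 40 / Real.sqrt t * M3 κ
      ≤ 40 / Real.sqrt t * (Real.pi * (2 * I1 κ 1 + 4 * I1 κ 3 + 2 * I1 κ 5)) := by gcongr
  have h5 : (J1 κ m + J1 κ' m) / t ^ m = J1 κ m / t ^ m + J1 κ' m / t ^ m := add_div _ _ _
  rw [h5]
  exact add_le_add (add_le_add h1 h2) h4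

end Pool.Agent.H20.Smooth
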