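import Mathlib.NumberTheory.LSeries.RiemannZeta

/-!
Continuity of the zeta function on the critical line.
-/

set_option autoImplicit false

namespace Pool.Agent.Lib.MP_f9aece_nt_h20.Cz

open Complex

lemma continuous_zeta : Continuous (fun t : ℝ => riemannZeta (1 / 2 + I * t)) := by
  rw [continuous_iff_continuousAt]
  intro t
  have h1 : (1 / 2 + I * t : ℂ) ≠ 1 := by
    intro h
    have := congrArg Complex.re h
    norm_num at this
  have h2 : ContinuousAt riemannZeta (1 / 2 + I * t) := (differentiableAt_riemannZeta h1).continuousAt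
  have h3 : ContinuousAt (fun t : ℝ => (1 / 2 + I * t : ℂ)) t := by fun_prop
  exact ContinuousAt.comp (f := fun t : ℝ => (1 / 2 + I * t : ℂ)) h2 h3

end Pool.Agent.Lib.MP_f9aece_nt_h20.Cz
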