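import Mathlib
import Pool.Agent.Lib.MP_f9aece_nt_h20.Smooth

/-!
The identity of `Smooth` for functions given as transforms of integrable functions.
-/

set_option autoImplicit false

namespace Pool.Agent.H20.Smooth

open MeasureTheory Complex Set Filter Topology FourierTransform
open scoped SchwartzMap ComplexConjugate ContDiff

/-- `F` is the inverse transform of `K`, and `K` has two finite moments. -/
structure Tr (F K : ℝ → ℂ) : Prop where
  cont : Continuous K
  int : Integrable (fun v => (1 + |v|) ^ 2 * ‖K v‖)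
  inv : ∀ x, F x = 1 / (2 * Real.pi) * ∫ v, K v * cexp (-(I * v * x))

namespace Tr

variable {F K : ℝ → ℂ}

lemma integrable (h : Tr F K) : Integrable K := by
  refine h.int.mono h.cont.aestronglyMeasurable (Eventually.of_forall fun v => ?_)
  rw [norm_mul, norm_norm, Real.norm_of_nonneg (by positivity)]
  have h1 : 1 ≤ (1 + |v|) ^ 2 := by nlinarith [abs_nonneg v]
  nlinarith [norm_nonneg (K v)]

lemma exp_term (h : Tr F K) (n : ℕ) (hn : 1 ≤ n) (t : ℝ) :
    F (Real.log n) * (n : ℂ) ^ (-(1 / 2 + I * t : ℂ))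
      = 1 / (2 * Real.pi) * ∫ v : ℝ, K v * (n : ℂ) ^ (-(1 / 2 + I * (t + v : ℝ) : ℂ)) := by
  have hn' : (n : ℂ) ≠ 0 := by exact_mod_cast (by omega : n ≠ 0)
  have e : ∀ v : ℝ, K v * (n : ℂ) ^ (-(1 / 2 + I * (t + v : ℝ) : ℂ))
      = (K v * cexp (-(I * v * Real.log n))) * (n : ℂ) ^ (-(1 / 2 + I * t : ℂ)) := by
    intro v
    rw [mul_assoc, Complex.cpow_def_of_ne_zero hn', Complex.cpow_def_of_ne_zero hn',
      ← Complex.exp_add, Complex.natCast_log]
    congr 2
    push_cast
    ring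
  simp_rw [e]
  rw [integral_mul_const, h.inv (Real.log n), mul_assoc]

lemma int_term (h : Tr F K) {N : ℕ} (hN : 1 ≤ N) (t : ℝ) :
    ∫ x in Iic (Real.log N), F x * cexp ((1 / 2 - I * t) * x)
      = 1 / (2 * Real.pi) * ∫ v : ℝ, K v * ((N : ℂ) ^ (1 - (1 / 2 + I * (t + v : ℝ)) : ℂ) /
        (1 - (1 / 2 + I * (t + v : ℝ)))) := by
  have hN' : (N : ℂ) ≠ 0 := by exact_mod_cast (by omega : N ≠ 0)
  have e1 : ∀ v : ℝ, ((N : ℂ) ^ (1 - (1 / 2 + I * (t + v : ℝ)) : ℂ) /
        (1 - (1 / 2 + I * (t + v : ℝ))))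
      = ∫ x in Iic (Real.log N), cexp ((1 / 2 - I * (t + v)) * x) := by
    intro v
    rw [integral_exp_mul_complex_Iic (by simp)]
    rw [Complex.cpow_def_of_ne_zero hN', ← Complex.natCast_log]
    have : (1 - (1 / 2 + I * (t + v : ℝ)) : ℂ) = 1 / 2 - I * (t + v) := by push_cast; ring
    rw [this]
    congr 2
    ring
  simp_rw [e1]
  have hc := h.cont
  have hfub : Integrable (fun p : ℝ × ℝ => K p.1 * cexp ((1 / 2 - I * (t + p.1)) * p.2))
      (volume.prod (volume.restrict (Iic (Real.log N)))) := by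
    have h1 : Integrable (fun p : ℝ × ℝ => K p.1 * (Real.exp (1 / 2 * p.2) : ℂ))
        (volume.prod (volume.restrict (Iic (Real.log N)))) := by
      refine (h.integrable).mul_prod (f := K) (g := fun x : ℝ => (Real.exp (1 / 2 * x) : ℂ)) ?_
      have := integrableOn_exp_mul_complex_Iic (a := (1 / 2 : ℂ)) (by simp) (Real.log N)
      refine this.congr (Eventually.of_forall fun x => ?_)
      simp
    refine h1.mono ?_ (Eventually.of_forall fun p => ?_)
    · have : Continuous (fun p : ℝ × ℝ => K p.1 * cexp ((1 / 2 - I * (t + p.1)) * p.2)) := by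
        fun_prop
      exact this.aestronglyMeasurable
    · rw [norm_mul, norm_mul, Complex.norm_exp]
      have : ((1 / 2 - I * (t + p.1)) * p.2 : ℂ).re = 1 / 2 * p.2 := by simp
      rw [this, Complex.norm_real, Real.norm_eq_abs, abs_of_pos (Real.exp_pos _)]
  have h2 : ∫ v : ℝ, K v * ∫ x in Iic (Real.log N), cexp ((1 / 2 - I * (t + v)) * x)
      = ∫ v : ℝ, ∫ x in Iic (Real.log N), K v * cexp ((1 / 2 - I * (t + v)) * x) := by
    refine integral_congr_ae (Eventually.of_forall fun v => ?_)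
    simp only
    rw [← integral_const_mul]
  rw [h2, integral_integral_swap hfub, ← integral_const_mul]
  refine integral_congr_ae (Eventually.of_forall fun x => ?_)
  simp only
  have e2 : ∀ v : ℝ, K v * cexp ((1 / 2 - I * (t + v)) * x)
      = (K v * cexp (-(I * v * x))) * cexp ((1 / 2 - I * t) * x) := by
    intro v
    rw [mul_assoc, ← Complex.exp_add]
    congr 2
    ring
  simp_rw [e2]
  rw [integral_mul_const, h.inv x, mul_assoc]

lemma finite_identity (h : Tr F K) {N : ℕ} (hN : 1 ≤ N) (t : ℝ) :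
    ∑ n ∈ Finset.Icc 1 N, F (Real.log n) * (n : ℂ) ^ (-(1 / 2 + I * t : ℂ))
      - ∫ x in Iic (Real.log N), F x * cexp ((1 / 2 - I * t) * x)
      = 1 / (2 * Real.pi) * ∫ v : ℝ, K v * ZN N (1 / 2 + I * (t + v : ℝ)) := by
  have hint : ∀ n : ℕ, 1 ≤ n → Integrable (fun v : ℝ =>
      K v * (n : ℂ) ^ (-(1 / 2 + I * (t + v : ℝ) : ℂ))) := by
    intro n hn
    have hn' : (n : ℂ) ≠ 0 := by exact_mod_cast (by omega : n ≠ 0)
    refine (h.integrable).mul_bdd (c := 1) ?_ (Eventually.of_forall fun v => ?_)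
    · have : Continuous (fun v : ℝ => (n : ℂ) ^ (-(1 / 2 + I * (t + v : ℝ) : ℂ))) := by
        refine Continuous.const_cpow (by fun_prop) (Or.inl hn')
      exact this.aestronglyMeasurable
    · rw [Complex.norm_natCast_cpow_of_pos hn]
      have : (1 : ℝ) ≤ n := by exact_mod_cast hn
      refine Real.rpow_le_one_of_one_le_of_nonpos this ?_
      simp
  have hint2 : Integrable (fun v : ℝ => K v *
      ((N : ℂ) ^ (1 - (1 / 2 + I * (t + v : ℝ)) : ℂ) / (1 - (1 / 2 + I * (t + v : ℝ))))) := by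
    have hN' : (N : ℂ) ≠ 0 := by exact_mod_cast (by omega : N ≠ 0)
    refine (h.integrable).mul_bdd (c := 2 * (N : ℝ) ^ (1 / 2 : ℝ)) ?_
      (Eventually.of_forall fun v => ?_)
    · have h1 : Continuous (fun v : ℝ => (N : ℂ) ^ (1 - (1 / 2 + I * (t + v : ℝ)) : ℂ)) :=
        Continuous.const_cpow (by fun_prop) (Or.inl hN')
      have h2 : Continuous (fun v : ℝ => (1 - (1 / 2 + I * (t + v : ℝ)) : ℂ)) := by fun_prop
      have h3 : ∀ v : ℝ, (1 - (1 / 2 + I * (t + v : ℝ)) : ℂ) ≠ 0 := fun v h => by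
        have := half_le_norm (t + v)
        rw [h, norm_zero] at this
        norm_num at this
      exact (h1.div h2 h3).aestronglyMeasurable
    · rw [norm_div, Complex.norm_natCast_cpow_of_pos hN]
      have h1 : (1 - (1 / 2 + I * (t + v : ℝ)) : ℂ).re = 1 / 2 := by simp; norm_num
      rw [h1]
      have h2 := half_le_norm (t + v)
      rw [div_le_iff₀ (by linarith)]
      have h3 : 0 ≤ (N : ℝ) ^ (1 / 2 : ℝ) := by positivity
      nlinarith
  have e1 : ∀ v : ℝ, K v * ZN N (1 / 2 + I * (t + v : ℝ))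
      = ∑ n ∈ Finset.Icc 1 N, K v * (n : ℂ) ^ (-(1 / 2 + I * (t + v : ℝ) : ℂ))
        - K v * ((N : ℂ) ^ (1 - (1 / 2 + I * (t + v : ℝ)) : ℂ) /
          (1 - (1 / 2 + I * (t + v : ℝ)))) := by
    intro v
    unfold ZN
    rw [mul_sub, Finset.mul_sum]
  simp_rw [e1]
  rw [integral_sub (integrable_finsetSum _ (fun n hn => hint n (Finset.mem_Icc.mp hn).1)) hint2,
    integral_finsetSum _ (fun n hn => hint n (Finset.mem_Icc.mp hn).1), mul_sub, Finset.mul_sum,
    h.int_term hN t]
  congr 1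
  exact Finset.sum_congr rfl (fun n hn => h.exp_term n (Finset.mem_Icc.mp hn).1 t)

lemma tendsto_ZN (h : Tr F K) (t : ℝ) :
    Tendsto (fun M : ℕ => 1 / (2 * Real.pi : ℂ) * ∫ v : ℝ, K v * ZN M (1 / 2 + I * (t + v : ℝ)))
      atTop (𝓝 (1 / (2 * Real.pi) * ∫ v : ℝ, K v * riemannZeta (1 / 2 + I * (t + v : ℝ)))) := by
  refine Tendsto.const_mul _ ?_
  have hc := h.cont
  refine tendsto_integral_of_dominated_convergence
    (fun v => (7 * (1 + |t|) ^ 2) * ((1 + |v|) ^ 2 * ‖K v‖)) ?_ ?_ ?_ ?_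
  · intro M
    refine (hc.aestronglyMeasurable).mul ?_
    unfold ZN
    refine AEStronglyMeasurable.sub ?_ ?_
    · refine Finset.aestronglyMeasurable_fun_sum _ (fun n hn => ?_)
      have hn' : (n : ℂ) ≠ 0 := by
        exact_mod_cast (by have := (Finset.mem_Icc.mp hn).1; omega : n ≠ 0)
      have : Continuous (fun v : ℝ => (n : ℂ) ^ (-(1 / 2 + I * (t + v : ℝ) : ℂ))) :=
        Continuous.const_cpow (by fun_prop) (Or.inl hn')
      exact this.aestronglyMeasurable
    · have h2 : Continuous (fun v : ℝ => (1 - (1 / 2 + I * (t + v : ℝ)) : ℂ)) := by fun_prop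
      have h3 : ∀ v : ℝ, (1 - (1 / 2 + I * (t + v : ℝ)) : ℂ) ≠ 0 := fun v h => by
        have := half_le_norm (t + v)
        rw [h, norm_zero] at this
        norm_num at this
      have h1 : Continuous (fun v : ℝ => (M : ℂ) ^ (1 - (1 / 2 + I * (t + v : ℝ)) : ℂ)) :=
        Continuous.const_cpow (by fun_prop) (Or.inr h3)
      exact (h1.div h2 h3).aestronglyMeasurable
  · exact h.int.const_mul _
  · intro M
    have hae : ∀ᵐ v : ℝ, v ≠ -t := by simp [ae_iff]
    filter_upwards [hae] with v hv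
    rcases Nat.eq_zero_or_pos M with rfl | hM
    · have h3 : (1 - (1 / 2 + I * (t + v : ℝ)) : ℂ) ≠ 0 := fun h => by
        have := half_le_norm (t + v)
        rw [h, norm_zero] at this
        norm_num at this
      have : ZN 0 (1 / 2 + I * (t + v : ℝ)) = 0 := by
        unfold ZN
        rw [Nat.cast_zero, Complex.zero_cpow h3]
        simp
      rw [this, mul_zero, norm_zero]
      positivity
    · have hne : t + v ≠ 0 := fun h => hv (by linarith)
      rw [norm_mul, mul_comm]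
      have h1 := norm_ZN_le hne hM
      have h2 : |t + v| ≤ |t| + |v| := abs_add_le _ _
      have h3 : 1 + |t + v| ≤ (1 + |t|) * (1 + |v|) := by
        nlinarith [abs_nonneg t, abs_nonneg v, mul_nonneg (abs_nonneg t) (abs_nonneg v)]
      have h4 : (1 + |t + v|) ^ 2 ≤ ((1 + |t|) * (1 + |v|)) ^ 2 :=
        pow_le_pow_left₀ (by positivity) h3 2
      calc ‖ZN M (1 / 2 + I * (t + v : ℝ))‖ * ‖K v‖
          ≤ (7 * ((1 + |t|) * (1 + |v|)) ^ 2) * ‖K v‖ := by
            refine mul_le_mul_of_nonneg_right (h1.trans ?_) (norm_nonneg _)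
            linarith
        _ = _ := by ring
  · have hae : ∀ᵐ v : ℝ, v ≠ -t := by simp [ae_iff]
    filter_upwards [hae] with v hv
    have hne : t + v ≠ 0 := fun h => hv (by linarith)
    refine Tendsto.const_mul _ ?_
    rw [tendsto_iff_norm_sub_tendsto_zero]
    have h1 : Tendsto (fun M : ℕ => 2 * (1 + |t + v|) ^ 2 * (M : ℝ) ^ (-(1 / 2) : ℝ)) atTop
        (𝓝 (2 * (1 + |t + v|) ^ 2 * 0)) := by
      refine Tendsto.const_mul _ ?_
      exact (tendsto_rpow_neg_atTop (by norm_num)).comp tendsto_natCast_atTop_atTop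
    rw [mul_zero] at h1
    refine squeeze_zero' (Eventually.of_forall fun M => norm_nonneg _) ?_ h1
    filter_upwards [eventually_ge_atTop 1] with M hM
    rw [norm_sub_rev]
    exact zeta_sub_ZN hne hM

/-- the limit formula -/
lemma tendsto_sum (h : Tr F K) (t : ℝ) :
    Tendsto (fun M : ℕ => ∑ n ∈ Finset.Icc 1 M, F (Real.log n) * (n : ℂ) ^ (-(1 / 2 + I * t : ℂ))
      - ∫ x in Iic (Real.log M), F x * cexp ((1 / 2 - I * t) * x))
      atTop (𝓝 (1 / (2 * Real.pi) * ∫ v : ℝ, K v * riemannZeta (1 / 2 + I * (t + v : ℝ)))) := by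
  refine (h.tendsto_ZN t).congr' ?_
  filter_upwards [eventually_ge_atTop 1] with M hM
  exact (h.finite_identity hM t).symm

/-- the identity for functions vanishing to the right -/
lemma smooth_sum (h : Tr F K) {N : ℕ} (hN : 1 ≤ N) (hF : ∀ x, Real.log N < x → F x = 0) (t : ℝ) :
    ∑ n ∈ Finset.Icc 1 N, F (Real.log n) * (n : ℂ) ^ (-(1 / 2 + I * t : ℂ))
      = (∫ x, F x * cexp ((1 / 2 - I * t) * x))
      + 1 / (2 * Real.pi) * ∫ v : ℝ, K v * riemannZeta (1 / 2 + I * (t + v : ℝ)) := by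
  have hN0 : (0 : ℝ) < N := by exact_mod_cast hN
  have hconst : ∀ M : ℕ, N ≤ M →
      ∑ n ∈ Finset.Icc 1 M, F (Real.log n) * (n : ℂ) ^ (-(1 / 2 + I * t : ℂ))
        - ∫ x in Iic (Real.log M), F x * cexp ((1 / 2 - I * t) * x)
      = ∑ n ∈ Finset.Icc 1 N, F (Real.log n) * (n : ℂ) ^ (-(1 / 2 + I * t : ℂ))
        - ∫ x, F x * cexp ((1 / 2 - I * t) * x) := by
    intro M hM
    congr 1
    · symm
      apply Finset.sum_subset (Finset.Icc_subset_Icc_right hM)
      intro n hn hn'
      simp only [Finset.mem_Icc, not_and, not_le] at hn hn'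
      have h1 : N < n := hn' hn.1
      have h2 : Real.log N < Real.log n := Real.log_lt_log hN0 (by exact_mod_cast h1)
      rw [hF _ h2, zero_mul]
    · apply setIntegral_eq_integral_of_forall_compl_eq_zero
      intro x hx
      rw [mem_Iic, not_le] at hx
      have h2 : Real.log N ≤ Real.log M := Real.log_le_log hN0 (by exact_mod_cast hM)
      rw [hF x (h2.trans_lt hx), zero_mul]
  have hc2 : Tendsto (fun M : ℕ => ∑ n ∈ Finset.Icc 1 M, F (Real.log n) *
      (n : ℂ) ^ (-(1 / 2 + I * t : ℂ)) - ∫ x in Iic (Real.log M), F x * cexp ((1 / 2 - I * t) * x))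
      atTop (𝓝 (∑ n ∈ Finset.Icc 1 N, F (Real.log n) * (n : ℂ) ^ (-(1 / 2 + I * t : ℂ))
        - ∫ x, F x * cexp ((1 / 2 - I * t) * x))) := by
    refine tendsto_const_nhds.congr' ?_
    filter_upwards [eventually_ge_atTop N] with M hM
    rw [hconst M hM]
  have := tendsto_nhds_unique hc2 (h.tendsto_sum t)
  rw [← this]
  ring

end Tr

lemma integrable_one_add_pow (κ : 𝓢(ℝ, ℂ)) (m : ℕ) :
    Integrable (fun v => (1 + |v|) ^ m * ‖KF κ v‖) := by
  have h : ∀ v, (1 + |v|) ^ m * ‖KF κ v‖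
      = ∑ k ∈ Finset.range (m + 1), ((m.choose k : ℕ) : ℝ) * (|v| ^ k * ‖KF κ v‖) := by
    intro v
    rw [add_comm 1 |v|, add_pow, Finset.sum_mul]
    refine Finset.sum_congr rfl fun k _ => ?_
    rw [one_pow]; ring
  simp_rw [h]
  exact integrable_finsetSum _ fun k _ => (integrable_pow_KF κ k).const_mul _

/-- Translates of Schwartz functions. -/
lemma tr_shift (κ : 𝓢(ℝ, ℂ)) (a : ℝ) :
    Tr (fun x => κ (x + a)) (fun v => KF κ v * cexp (-(I * v * a))) := by
  have hc : Continuous (KF κ) := by rw [KF_eq]; exact (KS κ).continuous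
  refine ⟨by fun_prop, ?_, ?_⟩
  · refine (integrable_one_add_pow κ 2).congr (Eventually.of_forall fun v => ?_)
    simp only
    rw [norm_mul, Complex.norm_exp]
    simp
  · intro x
    rw [inversion κ (x + a)]
    congr 1
    refine integral_congr_ae (Eventually.of_forall fun v => ?_)
    simp only
    rw [mul_assoc (KF κ v), ← Complex.exp_add]
    congr 2
    push_cast
    ring

end Pool.Agent.H20.Smooth
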