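import Mathlib
import Pool.Agent.Lib.MP_f9aece_nt_h20.Gen

/-!
Smooth divisor polynomials through the square of zeta on the critical line.
-/

set_option autoImplicit false

namespace Pool.Agent.H20.Smooth

open MeasureTheory Complex Set Filter Topology FourierTransform
open scoped SchwartzMap ComplexConjugate ContDiff

/-- the transform of `KF κ` times zeta -/
noncomputable def F2 (κ : 𝓢(ℝ, ℂ)) (t x : ℝ) : ℂ :=
  1 / (2 * Real.pi) * ∫ v : ℝ, (KF κ v * riemannZeta (1 / 2 + I * (t + v : ℝ)))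
    * cexp (-(I * v * x))

lemma continuous_KF (κ : 𝓢(ℝ, ℂ)) : Continuous (KF κ) := by rw [KF_eq]; exact (KS κ).continuous

lemma continuous_zeta_shift (t : ℝ) :
    Continuous (fun v : ℝ => riemannZeta (1 / 2 + I * (t + v : ℝ))) :=
  continuous_zeta.comp (continuous_const.add continuous_id)

lemma norm_zeta_shift_le (t v : ℝ) : ‖riemannZeta (1 / 2 + I * (t + v : ℝ))‖
    ≤ 5 * (1 + |t|) ^ 2 * (1 + |v|) ^ 2 := by
  refine (norm_zeta_le (t + v)).trans ?_
  have h2 : |t + v| ≤ |t| + |v| := abs_add_le _ _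
  have h3 : 1 + |t + v| ≤ (1 + |t|) * (1 + |v|) := by
    nlinarith [abs_nonneg t, abs_nonneg v, mul_nonneg (abs_nonneg t) (abs_nonneg v)]
  have h4 : (1 + |t + v|) ^ 2 ≤ ((1 + |t|) * (1 + |v|)) ^ 2 :=
    pow_le_pow_left₀ (by positivity) h3 2
  calc 5 * (1 + |t + v|) ^ 2 ≤ 5 * ((1 + |t|) * (1 + |v|)) ^ 2 := by linarith
    _ = _ := by ring

lemma tr_F2 (κ : 𝓢(ℝ, ℂ)) (t : ℝ) :
    Tr (F2 κ t) (fun v => KF κ v * riemannZeta (1 / 2 + I * (t + v : ℝ))) := by
  refine ⟨(continuous_KF κ).mul (continuous_zeta_shift t), ?_, fun x => rfl⟩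
  refine ((integrable_one_add_pow κ 4).const_mul (5 * (1 + |t|) ^ 2)).mono ?_
    (Eventually.of_forall fun v => ?_)
  · have h1 := continuous_KF κ
    have h2 := continuous_zeta_shift t
    exact Continuous.aestronglyMeasurable (by fun_prop)
  · have h := norm_zeta_shift_le t v
    rw [Real.norm_of_nonneg (by positivity), Real.norm_of_nonneg (by positivity), norm_mul]
    calc (1 + |v|) ^ 2 * (‖KF κ v‖ * ‖riemannZeta (1 / 2 + I * (t + v : ℝ))‖)
        ≤ (1 + |v|) ^ 2 * (‖KF κ v‖ * (5 * (1 + |t|) ^ 2 * (1 + |v|) ^ 2)) := by gcongr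
      _ = _ := by ring

lemma continuous_F2 (κ : 𝓢(ℝ, ℂ)) (t : ℝ) : Continuous (F2 κ t) := by
  unfold F2
  refine continuous_const.mul ?_
  have hc := (tr_F2 κ t).cont
  refine continuous_of_dominated (bound := fun v => ‖KF κ v * riemannZeta (1 / 2 + I * (t + v : ℝ))‖)
    ?_ ?_ (tr_F2 κ t).integrable.norm ?_
  · intro x
    have : Continuous (fun v : ℝ => cexp (-(I * v * x))) := by fun_prop
    exact (hc.mul this).aestronglyMeasurable
  · intro x
    refine Eventually.of_forall fun v => ?_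
    rw [norm_mul, Complex.norm_exp]
    simp
  · refine Eventually.of_forall fun v => ?_
    fun_prop

lemma norm_F2_le (κ : 𝓢(ℝ, ℂ)) (t x : ℝ) :
    ‖F2 κ t x‖ ≤ ‖(1 / (2 * Real.pi) : ℂ)‖ *
      ∫ v, ‖KF κ v * riemannZeta (1 / 2 + I * (t + v : ℝ))‖ := by
  unfold F2
  rw [norm_mul]
  gcongr
  refine (norm_integral_le_integral_norm _).trans (le_of_eq ?_)
  refine integral_congr_ae (Eventually.of_forall fun v => ?_)
  simp only
  rw [norm_mul, Complex.norm_exp]
  simp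

/-- the weight `κ(y) e^{(1/2 - it) y}` -/
noncomputable def gg (κ : 𝓢(ℝ, ℂ)) (t y : ℝ) : ℂ := κ y * cexp ((1 / 2 - I * t) * y)

/-- the explicit form of `F2` -/
lemma F2_eq (κ : 𝓢(ℝ, ℂ)) (t x : ℝ) {N : ℕ} (hN : 1 ≤ N)
    (hκ : ∀ y, Real.log N < y → κ (y + x) = 0) :
    F2 κ t x * cexp ((1 / 2 - I * t) * x)
      = ∑ l ∈ Finset.Icc 1 N, (l : ℂ)⁻¹ * gg κ t (Real.log l + x) - ∫ y, gg κ t y := by
  have h1 := (tr_shift κ x).smooth_sum hN hκ t
  have h2 : F2 κ t x = 1 / (2 * Real.pi) * ∫ v : ℝ, KF κ v * cexp (-(I * v * x)) *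
      riemannZeta (1 / 2 + I * (t + v : ℝ)) := by
    unfold F2
    congr 1
    refine integral_congr_ae (Eventually.of_forall fun v => ?_)
    simp only
    ring
  have h3 : F2 κ t x = ∑ n ∈ Finset.Icc 1 N, κ (Real.log n + x) * (n : ℂ) ^ (-(1 / 2 + I * t : ℂ))
      - ∫ y, κ (y + x) * cexp ((1 / 2 - I * t) * y) := by
    rw [h1, h2]; ring
  rw [h3, sub_mul, Finset.sum_mul]
  congr 1
  · refine Finset.sum_congr rfl fun l hl => ?_
    have hl1 := (Finset.mem_Icc.mp hl).1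
    have hl' : (l : ℂ) ≠ 0 := by exact_mod_cast (by omega : l ≠ 0)
    unfold gg
    rw [Complex.cpow_def_of_ne_zero hl', mul_assoc, ← Complex.exp_add, ← Complex.natCast_log]
    have e1 : (l : ℂ)⁻¹ = cexp (-(Real.log l : ℂ)) := by
      rw [Complex.exp_neg, Complex.natCast_log, Complex.exp_log hl']
    rw [e1]
    rw [← mul_assoc, mul_comm (cexp (-(Real.log l : ℂ))), mul_assoc, ← Complex.exp_add]
    congr 2
    push_cast
    ring
  · rw [← integral_mul_const, ← integral_add_right_eq_self (fun y => gg κ t y) x]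
    refine integral_congr_ae (Eventually.of_forall fun y => ?_)
    simp only
    unfold gg
    rw [mul_assoc, ← Complex.exp_add]
    congr 2
    push_cast
    ring

/-- Dirichlet hyperbola-free double sum -/
lemma double_sum (h : ℕ → ℂ) {N M : ℕ} (hNM : N ≤ M) (h0 : ∀ n, N < n → h n = 0) :
    ∑ m ∈ Finset.Icc 1 M, ∑ l ∈ Finset.Icc 1 N, h (l * m)
      = ∑ n ∈ Finset.Icc 1 N, (n.divisors.card : ℂ) * h n := by
  classical
  rw [← Finset.sum_product']
  have e1 : ∑ x ∈ Finset.Icc 1 M ×ˢ Finset.Icc 1 N, h (x.2 * x.1)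
      = ∑ x ∈ (Finset.Icc 1 M ×ˢ Finset.Icc 1 N).filter (fun x => x.2 * x.1 ≤ N), h (x.2 * x.1) := by
    rw [Finset.sum_filter]
    refine Finset.sum_congr rfl fun x _ => ?_
    split_ifs with h1
    · rfl
    · exact h0 _ (by omega)
  rw [e1]
  rw [← Finset.sum_fiberwise_of_maps_to (s := (Finset.Icc 1 M ×ˢ Finset.Icc 1 N).filter
    (fun x => x.2 * x.1 ≤ N)) (t := Finset.Icc 1 N) (g := fun x => x.2 * x.1)]
  · refine Finset.sum_congr rfl fun n hn => ?_
    rw [Finset.mem_Icc] at hn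
    have e2 : ∀ x ∈ ((Finset.Icc 1 M ×ˢ Finset.Icc 1 N).filter (fun x => x.2 * x.1 ≤ N)).filter
        (fun x => x.2 * x.1 = n), h (x.2 * x.1) = h n := by
      intro x hx
      rw [(Finset.mem_filter.mp hx).2]
    rw [Finset.sum_congr rfl e2, Finset.sum_const, nsmul_eq_mul]
    congr 2
    have e3 : (((Finset.Icc 1 M ×ˢ Finset.Icc 1 N).filter (fun x => x.2 * x.1 ≤ N)).filter
        (fun x => x.2 * x.1 = n)) = n.divisorsAntidiagonal := by
      ext ⟨a, b⟩
      simp only [Finset.mem_filter, Finset.mem_product, Finset.mem_Icc,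
        Nat.mem_divisorsAntidiagonal]
      constructor
      · rintro ⟨_, h2⟩
        exact ⟨by rw [mul_comm]; exact h2, by omega⟩
      · rintro ⟨h1, h2⟩
        have ha : 1 ≤ a := Nat.one_le_iff_ne_zero.mpr (by rintro rfl; simp at h1; omega)
        have hb : 1 ≤ b := Nat.one_le_iff_ne_zero.mpr (by rintro rfl; simp at h1; omega)
        have ha2 : a ≤ n := by rw [← h1]; exact Nat.le_mul_of_pos_right a hb
        have hb2 : b ≤ n := by rw [← h1]; exact Nat.le_mul_of_pos_left b ha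
        have h3 : b * a = n := by rw [mul_comm]; exact h1
        exact ⟨⟨⟨⟨ha, by omega⟩, hb, by omega⟩, by omega⟩, h3⟩
    rw [e3, ← Nat.map_div_right_divisors, Finset.card_map]
  · intro x hx
    rw [Finset.mem_filter, Finset.mem_product, Finset.mem_Icc, Finset.mem_Icc] at hx
    rw [Finset.mem_Icc]
    exact ⟨Nat.mul_pos hx.1.2.1 hx.1.1.1, hx.2⟩

/-! ### the harmonic sums -/

/-- `∑ 1/l` over `l ≤ n` -/
noncomputable def Hm (n : ℕ) : ℝ := ∑ l ∈ Finset.Icc 1 n, (l : ℝ)⁻¹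

lemma Hm_eq (n : ℕ) : Hm n = (harmonic n : ℝ) := by
  rw [Hm, harmonic_eq_sum_Icc]; push_cast; rfl

lemma Hm_le {n : ℕ} {x : ℝ} (hx : 1 ≤ x) (hn : (n : ℝ) ≤ x) : Hm n ≤ 1 + Real.log x := by
  rw [Hm_eq]
  refine (harmonic_le_one_add_log n).trans ?_
  rcases Nat.eq_zero_or_pos n with rfl | h
  · simp only [CharP.cast_eq_zero, Real.log_zero]
    linarith [Real.log_nonneg hx]
  · have h1 : (0 : ℝ) < n := by exact_mod_cast h
    have := Real.log_le_log h1 hn
    linarith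

lemma le_Hm {n : ℕ} {x : ℝ} (hx : 1 ≤ x) (hn : x ≤ (n : ℝ) + 1) : Real.log x ≤ Hm n := by
  rw [Hm_eq]
  have h := log_add_one_le_harmonic n
  refine le_trans ?_ h
  refine Real.log_le_log (by linarith) ?_
  push_cast
  exact hn

end Pool.Agent.H20.Smooth
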