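import Mathlib
import Pool.Agent.Lib.MP_f9aece_nt_h20.Sq

/-!
The exact identity between smooth divisor polynomials and the square of zeta.
-/

set_option autoImplicit false

namespace Pool.Agent.H20.Smooth

open MeasureTheory Complex Set Filter Topology FourierTransform
open scoped SchwartzMap ComplexConjugate ContDiff

/-- counting function of the hyperbola argument -/
noncomputable def hK (N K : ℕ) (y : ℝ) : ℝ :=
  ∑ l ∈ Finset.Icc 1 (N * K), if Real.log l - Real.log K < y then (l : ℝ)⁻¹ else 0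

lemma hK_eq {N K : ℕ} (hN : 1 ≤ N) (hK1 : 1 ≤ K) {y : ℝ} (hy : y ≤ Real.log N) :
    hK N K y = Hm (⌈(K : ℝ) * Real.exp y⌉₊ - 1) := by
  have hN0 : (0 : ℝ) < N := by exact_mod_cast hN
  have hK0 : (0 : ℝ) < K := by exact_mod_cast hK1
  unfold hK Hm
  rw [← Finset.sum_filter]
  congr 1
  ext l
  rw [Finset.mem_filter, Finset.mem_Icc, Finset.mem_Icc]
  have key : 1 ≤ l → (Real.log l - Real.log K < y ↔ l < ⌈(K : ℝ) * Real.exp y⌉₊) := by
    intro hl
    have hl0 : (0 : ℝ) < l := by exact_mod_cast hl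
    rw [Nat.lt_ceil, sub_lt_iff_lt_add, Real.log_lt_iff_lt_exp hl0, Real.exp_add,
      Real.exp_log hK0, mul_comm]
  constructor
  · rintro ⟨⟨h1, _⟩, h3⟩
    have := (key h1).1 h3
    exact ⟨h1, by omega⟩
  · rintro ⟨h1, h2⟩
    have h3 : l < ⌈(K : ℝ) * Real.exp y⌉₊ := by omega
    refine ⟨⟨h1, ?_⟩, (key h1).2 h3⟩
    have h4 : (l : ℝ) < K * Real.exp y := Nat.lt_ceil.1 h3
    have h5 : Real.exp y ≤ N := by
      rw [← Real.exp_log hN0]; exact Real.exp_le_exp.mpr hy
    have h6 : (l : ℝ) < K * N := h4.trans_le (by gcongr)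
    have h7 : l < K * N := by exact_mod_cast h6
    rw [mul_comm]; exact h7.le

lemma hK_bounds {N K : ℕ} (hN : 1 ≤ N) (hK1 : 1 ≤ K) {y : ℝ} (hy : y ≤ Real.log N)
    (hx : 1 ≤ (K : ℝ) * Real.exp y) :
    Real.log K + y ≤ hK N K y ∧ hK N K y ≤ 1 + (Real.log K + y) := by
  have hK0 : (0 : ℝ) < K := by exact_mod_cast hK1
  rw [hK_eq hN hK1 hy]
  have e : Real.log (K * Real.exp y) = Real.log K + y := by
    rw [Real.log_mul hK0.ne' (Real.exp_pos y).ne', Real.log_exp]
  have hc : 1 ≤ ⌈(K : ℝ) * Real.exp y⌉₊ := Nat.one_le_ceil_iff.mpr (by linarith)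
  have hc1 : ((⌈(K : ℝ) * Real.exp y⌉₊ - 1 : ℕ) : ℝ) = (⌈(K : ℝ) * Real.exp y⌉₊ : ℝ) - 1 := by
    rw [Nat.cast_sub hc]; norm_num
  constructor
  · rw [← e]
    refine le_Hm hx ?_
    rw [hc1]
    have := Nat.le_ceil ((K : ℝ) * Real.exp y)
    linarith
  · rw [← e]
    refine Hm_le hx ?_
    rw [hc1]
    have := Nat.ceil_lt_add_one (by linarith : (0 : ℝ) ≤ (K : ℝ) * Real.exp y)
    linarith

lemma tendsto_hK {N : ℕ} (hN : 1 ≤ N) {y : ℝ} (hy : y ≤ Real.log N) :
    Tendsto (fun K : ℕ => hK N K y - Real.log K) atTop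
      (𝓝 (y + Real.eulerMascheroniConstant)) := by
  -- the number of terms tends to infinity
  set n : ℕ → ℕ := fun K => ⌈(K : ℝ) * Real.exp y⌉₊ - 1 with hn
  have hx : Tendsto (fun K : ℕ => (K : ℝ) * Real.exp y) atTop atTop :=
    tendsto_natCast_atTop_atTop.atTop_mul_const (Real.exp_pos y)
  have hnt : Tendsto n atTop atTop := by
    have h1 : Tendsto (fun K : ℕ => ⌈(K : ℝ) * Real.exp y⌉₊) atTop atTop :=
      tendsto_nat_ceil_atTop.comp hx
    exact (tendsto_sub_atTop_nat 1).comp h1
  have hA := (Real.tendsto_harmonic_sub_log_add_one).comp hnt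
  have hB := (Real.tendsto_harmonic_sub_log).comp hnt
  have key : Tendsto (fun K : ℕ => hK N K y - Real.log K - y) atTop
      (𝓝 Real.eulerMascheroniConstant) := by
    refine tendsto_of_tendsto_of_tendsto_of_le_of_le' hA hB ?_ ?_
    · filter_upwards [eventually_ge_atTop 1, hx.eventually_ge_atTop 1] with K h1 h2
      have hK0 : (0 : ℝ) < K := by exact_mod_cast h1
      simp only [Function.comp]
      rw [hK_eq hN h1 hy, Hm_eq]
      have hc : 1 ≤ ⌈(K : ℝ) * Real.exp y⌉₊ := Nat.one_le_ceil_iff.mpr (by linarith)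
      have hc1 : ((n K : ℕ) : ℝ) + 1 = (⌈(K : ℝ) * Real.exp y⌉₊ : ℝ) := by
        rw [hn]; simp only; rw [Nat.cast_sub hc]; norm_num
      have h3 : Real.log K + y ≤ Real.log ((n K : ℝ) + 1) := by
        have e : Real.log (K * Real.exp y) = Real.log K + y := by
          rw [Real.log_mul hK0.ne' (Real.exp_pos y).ne', Real.log_exp]
        rw [← e, hc1]
        exact Real.log_le_log (by positivity) (Nat.le_ceil _)
      linarith
    · filter_upwards [eventually_ge_atTop 1, hx.eventually_gt_atTop 1] with K h1 h2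
      have hK0 : (0 : ℝ) < K := by exact_mod_cast h1
      simp only [Function.comp]
      rw [hK_eq hN h1 hy, Hm_eq]
      have hc : 2 ≤ ⌈(K : ℝ) * Real.exp y⌉₊ := by
        have : 1 < ⌈(K : ℝ) * Real.exp y⌉₊ := Nat.lt_ceil.mpr (by push_cast; exact h2)
        omega
      have hn1 : 1 ≤ n K := by rw [hn]; simp only; omega
      have hc1 : ((n K : ℕ) : ℝ) + 1 = (⌈(K : ℝ) * Real.exp y⌉₊ : ℝ) := by
        rw [hn]; simp only; rw [Nat.cast_sub (by omega)]; norm_num
      have h3 : Real.log (n K) ≤ Real.log K + y := by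
        have e : Real.log (K * Real.exp y) = Real.log K + y := by
          rw [Real.log_mul hK0.ne' (Real.exp_pos y).ne', Real.log_exp]
        rw [← e]
        have h4 : (0 : ℝ) < n K := by exact_mod_cast hn1
        refine Real.log_le_log h4 ?_
        have := Nat.ceil_lt_add_one (by linarith : (0 : ℝ) ≤ (K : ℝ) * Real.exp y)
        linarith
      linarith
  have := key.add_const y
  refine (this.congr fun K => by ring).trans (le_of_eq ?_)
  rw [add_comm]

section Main

variable (κ : 𝓢(ℝ, ℂ)) {N : ℕ} {B : ℝ} (t : ℝ)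

lemma gg_zero_right (hκ : ∀ x, Real.log N < x → κ x = 0) {y : ℝ} (hy : Real.log N < y) :
    gg κ t y = 0 := by unfold gg; rw [hκ y hy, zero_mul]

lemma gg_zero_left (hκ' : ∀ x, x < -B → κ x = 0) {y : ℝ} (hy : y < -B) :
    gg κ t y = 0 := by unfold gg; rw [hκ' y hy, zero_mul]

lemma continuous_gg : Continuous (gg κ t) := by
  unfold gg
  have := κ.continuous
  fun_prop

lemma gg_compact (hκ : ∀ x, Real.log N < x → κ x = 0) (hκ' : ∀ x, x < -B → κ x = 0) :
    HasCompactSupport (gg κ t) := by
  refine HasCompactSupport.intro (isCompact_Icc (a := -B) (b := Real.log N)) fun x hx => ?_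
  rw [mem_Icc, not_and_or, not_le, not_le] at hx
  rcases hx with h | h
  · exact gg_zero_left κ t hκ' h
  · exact gg_zero_right κ t hκ h

lemma integrable_gg_mul (hκ : ∀ x, Real.log N < x → κ x = 0) (hκ' : ∀ x, x < -B → κ x = 0)
    {f : ℝ → ℂ} (hf : Continuous f) : Integrable (fun y => gg κ t y * f y) :=
  Continuous.integrable_of_hasCompactSupport ((continuous_gg κ t).mul hf)
    ((gg_compact κ t hκ hκ').mul_right)

lemma measurable_hK (N K : ℕ) : Measurable (hK N K) := by
  unfold hK
  refine Finset.measurable_fun_sum _ fun l _ => ?_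
  exact Measurable.ite measurableSet_Ioi measurable_const measurable_const

/-- the limit of the sums against the counting function -/
lemma tendsto_int_hK (hN : 1 ≤ N) (hκ : ∀ x, Real.log N < x → κ x = 0)
    (hκ' : ∀ x, x < -B → κ x = 0) :
    Tendsto (fun K : ℕ => ∫ y, gg κ t y * ((hK N K y - Real.log K : ℝ) : ℂ)) atTop
      (𝓝 (∫ y, gg κ t y * ((y + Real.eulerMascheroniConstant : ℝ) : ℂ))) := by
  refine tendsto_integral_filter_of_dominated_convergence
    (fun y => ‖gg κ t y * ((1 + |y| : ℝ) : ℂ)‖) ?_ ?_ ?_ ?_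
  · refine Eventually.of_forall fun K => ?_
    refine (continuous_gg κ t).aestronglyMeasurable.mul ?_
    exact (Complex.measurable_ofReal.comp ((measurable_hK N K).sub_const _)).aestronglyMeasurable
  · obtain ⟨K0, hK0⟩ := exists_nat_ge (Real.exp B)
    filter_upwards [eventually_ge_atTop 1, eventually_ge_atTop K0] with K h1 h2
    refine Eventually.of_forall fun y => ?_
    by_cases hy : Real.log N < y
    · rw [gg_zero_right κ t hκ hy]; simp
    by_cases hy' : y < -B
    · rw [gg_zero_left κ t hκ' hy']; simp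
    rw [not_lt] at hy hy'
    have hKe : Real.exp B ≤ K := hK0.trans (by exact_mod_cast h2)
    have hx : 1 ≤ (K : ℝ) * Real.exp y := by
      calc (1 : ℝ) = Real.exp B * Real.exp (-B) := by rw [← Real.exp_add]; simp
        _ ≤ K * Real.exp y := by gcongr
    obtain ⟨h3, h4⟩ := hK_bounds hN h1 hy hx
    rw [norm_mul, norm_mul, Complex.norm_real, Complex.norm_real]
    refine mul_le_mul_of_nonneg_left ?_ (norm_nonneg _)
    rw [Real.norm_of_nonneg (by positivity : (0 : ℝ) ≤ 1 + |y|), Real.norm_eq_abs, abs_le]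
    have h5 := neg_abs_le y
    have h6 := le_abs_self y
    constructor <;> linarith
  · have : Continuous (fun y : ℝ => ((1 + |y| : ℝ) : ℂ)) := by fun_prop
    exact (integrable_gg_mul κ t hκ hκ' this).norm
  · refine Eventually.of_forall fun y => ?_
    by_cases hy : Real.log N < y
    · rw [gg_zero_right κ t hκ hy]; simp
    rw [not_lt] at hy
    refine Tendsto.const_mul _ ?_
    exact (Complex.continuous_ofReal.tendsto _).comp (tendsto_hK hN hy)

/-- the truncated integral of the explicit form -/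
lemma int_Phi (hN : 1 ≤ N) (hκ : ∀ x, Real.log N < x → κ x = 0)
    (hκ' : ∀ x, x < -B → κ x = 0) {M K : ℕ} (hM : N ≤ M) (hK1 : 1 ≤ K) :
    ∫ x in (-Real.log K)..(Real.log M), F2 κ t x * cexp ((1 / 2 - I * t) * x)
      = (∫ y, gg κ t y * ((hK N K y - Real.log K : ℝ) : ℂ)) - Real.log M * ∫ y, gg κ t y := by
  have hN0 : (0 : ℝ) < N := by exact_mod_cast hN
  have hK0 : (0 : ℝ) < K := by exact_mod_cast hK1
  have hM0 : (0 : ℝ) < M := by exact_mod_cast hN.trans hM
  have hlogK : 0 ≤ Real.log K := Real.log_nonneg (by exact_mod_cast hK1)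
  have hlogM : 0 ≤ Real.log M := Real.log_nonneg (by exact_mod_cast hN.trans hM)
  have hNM : Real.log N ≤ Real.log M := Real.log_le_log hN0 (by exact_mod_cast hM)
  have hgc := continuous_gg κ t
  have hgi : Integrable (gg κ t) := by
    have := integrable_gg_mul κ t hκ hκ' (f := fun _ => 1) continuous_const
    simpa using this
  have hle : -Real.log K ≤ Real.log M := by linarith
  -- explicit form
  have e1 : ∫ x in (-Real.log K)..(Real.log M), F2 κ t x * cexp ((1 / 2 - I * t) * x)
      = ∫ x in (-Real.log K)..(Real.log M), (∑ l ∈ Finset.Icc 1 (N * K),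
        (l : ℂ)⁻¹ * gg κ t (Real.log l + x) - ∫ y, gg κ t y) := by
    refine intervalIntegral.integral_congr fun x hx => ?_
    rw [uIcc_of_le hle, mem_Icc] at hx
    refine F2_eq κ t x (Nat.mul_pos hN hK1) fun y hy => ?_
    refine hκ _ ?_
    push_cast at hy
    rw [Real.log_mul hN0.ne' hK0.ne'] at hy
    linarith [hx.1]
  rw [e1, intervalIntegral.integral_sub, intervalIntegral.integral_finsetSum]
  rotate_left
  · intro l _
    exact Continuous.intervalIntegrable (by fun_prop) _ _
  · refine Continuous.intervalIntegrable ?_ _ _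
    exact continuous_finsetSum _ fun l _ => by fun_prop
  · exact intervalIntegrable_const
  have e2 : ∀ l ∈ Finset.Icc 1 (N * K),
      ∫ x in (-Real.log K)..(Real.log M), (l : ℂ)⁻¹ * gg κ t (Real.log l + x)
      = ∫ y, gg κ t y * ((if Real.log l - Real.log K < y then (l : ℝ)⁻¹ else 0 : ℝ) : ℂ) := by
    intro l hl
    have hl1 := (Finset.mem_Icc.mp hl).1
    have hlogl : 0 ≤ Real.log l := Real.log_nonneg (by exact_mod_cast hl1)
    rw [intervalIntegral.integral_const_mul, intervalIntegral.integral_comp_add_left,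
      intervalIntegral.integral_of_le (by linarith)]
    have h3 : ∫ y in Ioc (Real.log l + -Real.log K) (Real.log l + Real.log M), gg κ t y
        = ∫ y in Ioi (Real.log l - Real.log K), gg κ t y := by
      rw [← sub_eq_add_neg]
      symm
      apply setIntegral_eq_of_subset_of_forall_sdiff_eq_zero measurableSet_Ioi Ioc_subset_Ioi_self
      intro y hy
      rw [Set.mem_sdiff, mem_Ioi, mem_Ioc, not_and, not_le] at hy
      exact gg_zero_right κ t hκ (by linarith [hy.2 hy.1])
    rw [h3, ← integral_indicator measurableSet_Ioi, ← integral_const_mul]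
    refine integral_congr_ae (Eventually.of_forall fun y => ?_)
    simp only [indicator, mem_Ioi]
    split_ifs with h4
    · push_cast; ring
    · simp
  rw [Finset.sum_congr rfl e2, ← integral_finsetSum]
  rotate_left
  · intro l hl
    refine Integrable.mul_bdd (c := ‖((l : ℝ)⁻¹)‖) hgi ?_ (Eventually.of_forall fun y => ?_)
    · refine (Complex.measurable_ofReal.comp ?_).aestronglyMeasurable
      exact Measurable.ite measurableSet_Ioi measurable_const measurable_const
    · rw [Complex.norm_real]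
      split_ifs
      · exact le_rfl
      · rw [norm_zero]; exact norm_nonneg _
  rw [intervalIntegral.integral_const, sub_neg_eq_add]
  have e3 : ∫ y, ∑ l ∈ Finset.Icc 1 (N * K), gg κ t y *
        ((if Real.log l - Real.log K < y then (l : ℝ)⁻¹ else 0 : ℝ) : ℂ)
      = (∫ y, gg κ t y * ((hK N K y - Real.log K : ℝ) : ℂ)) + Real.log K * ∫ y, gg κ t y := by
    rw [← integral_const_mul, ← integral_add]
    · refine integral_congr_ae (Eventually.of_forall fun y => ?_)
      simp only
      rw [← Finset.mul_sum]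
      unfold hK
      push_cast
      ring
    · refine Integrable.mul_bdd (c := (∑ l ∈ Finset.Icc 1 (N * K), (l : ℝ)⁻¹) + |Real.log K|) hgi ?_
        (Eventually.of_forall fun y => ?_)
      · exact (Complex.measurable_ofReal.comp ((measurable_hK N K).sub_const _)).aestronglyMeasurable
      · rw [Complex.norm_real, Real.norm_eq_abs]
        refine (abs_sub _ _).trans ?_
        gcongr
        unfold hK
        rw [abs_of_nonneg (Finset.sum_nonneg fun l _ => by split_ifs <;> positivity)]
        refine Finset.sum_le_sum fun l _ => ?_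
        split_ifs
        · exact le_rfl
        · positivity
    · exact hgi.const_mul _
  rw [e3]
  rw [Complex.real_smul]
  push_cast
  ring

/-- **Smooth divisor polynomials through the square of zeta on the critical line.** -/
theorem smooth_sum2 (hN : 1 ≤ N) (hκ : ∀ x, Real.log N < x → κ x = 0)
    (hκ' : ∀ x, x < -B → κ x = 0) :
    ∑ n ∈ Finset.Icc 1 N, (n.divisors.card : ℂ) *
        (κ (Real.log n) * (n : ℂ) ^ (-(1 / 2 + I * t : ℂ)))
      = (∫ x, (κ x * ((x + 2 * Real.eulerMascheroniConstant : ℝ) : ℂ)) * cexp ((1 / 2 - I * t) * x))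
      + 1 / (2 * Real.pi) * ∫ v : ℝ, KF κ v * riemannZeta (1 / 2 + I * (t + v : ℝ)) ^ 2 := by
  have hN0 : (0 : ℝ) < N := by exact_mod_cast hN
  set D := ∑ n ∈ Finset.Icc 1 N, (n.divisors.card : ℂ) *
        (κ (Real.log n) * (n : ℂ) ^ (-(1 / 2 + I * t : ℂ))) with hD
  set P := ∫ y, gg κ t y with hP
  set Q := ∫ y, gg κ t y * ((y + Real.eulerMascheroniConstant : ℝ) : ℂ) with hQ
  have hgi : Integrable (gg κ t) := by
    have := integrable_gg_mul κ t hκ hκ' (f := fun _ => 1) continuous_const
    simpa using this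
  -- the sum over `m`
  have hA : ∀ M : ℕ, N ≤ M →
      ∑ m ∈ Finset.Icc 1 M, F2 κ t (Real.log m) * (m : ℂ) ^ (-(1 / 2 + I * t : ℂ))
      = D - Hm M * P := by
    intro M hM
    have e1 : ∀ m ∈ Finset.Icc 1 M, F2 κ t (Real.log m) * (m : ℂ) ^ (-(1 / 2 + I * t : ℂ))
        = ∑ l ∈ Finset.Icc 1 N, κ (Real.log ((l * m : ℕ) : ℝ)) *
          ((l * m : ℕ) : ℂ) ^ (-(1 / 2 + I * t : ℂ)) - (m : ℂ)⁻¹ * P := by
      intro m hm
      have hm1 := (Finset.mem_Icc.mp hm).1
      have hm' : (m : ℂ) ≠ 0 := by exact_mod_cast (by omega : m ≠ 0)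
      have hm0 : (0 : ℝ) < m := by exact_mod_cast hm1
      have hlogm : 0 ≤ Real.log m := Real.log_nonneg (by exact_mod_cast hm1)
      have h1 := F2_eq κ t (Real.log m) hN (fun y hy => hκ _ (by linarith))
      have h2 : (m : ℂ) ^ (-(1 / 2 + I * t : ℂ))
          = cexp ((1 / 2 - I * t) * (Real.log m : ℝ)) * (m : ℂ)⁻¹ := by
        have e1 : (m : ℂ)⁻¹ = cexp (-(Real.log m : ℂ)) := by
          rw [Complex.exp_neg, Complex.natCast_log, Complex.exp_log hm']
        rw [e1, ← Complex.exp_add, Complex.cpow_def_of_ne_zero hm', ← Complex.natCast_log]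
        congr 1
        ring
      rw [h2, ← mul_assoc, h1, sub_mul, Finset.sum_mul, mul_comm P]
      congr 1
      refine Finset.sum_congr rfl fun l hl => ?_
      have hl1 := (Finset.mem_Icc.mp hl).1
      have hl' : (l : ℂ) ≠ 0 := by exact_mod_cast (by omega : l ≠ 0)
      have hl0 : (0 : ℝ) < l := by exact_mod_cast hl1
      push_cast
      rw [Real.log_mul hl0.ne' hm0.ne']
      have h3 : ((l : ℂ) * (m : ℂ)) ^ (-(1 / 2 + I * t : ℂ))
          = (l : ℂ)⁻¹ * (m : ℂ)⁻¹ * cexp ((1 / 2 - I * t) * ((Real.log l + Real.log m : ℝ) : ℂ)) := by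
        have e1 : (m : ℂ)⁻¹ = cexp (-(Real.log m : ℂ)) := by
          rw [Complex.exp_neg, Complex.natCast_log, Complex.exp_log hm']
        have e2 : (l : ℂ)⁻¹ = cexp (-(Real.log l : ℂ)) := by
          rw [Complex.exp_neg, Complex.natCast_log, Complex.exp_log hl']
        rw [Complex.natCast_mul_natCast_cpow, Complex.cpow_def_of_ne_zero hl',
          Complex.cpow_def_of_ne_zero hm', e1, e2, ← Complex.exp_add, ← Complex.exp_add,
          ← Complex.exp_add, ← Complex.natCast_log, ← Complex.natCast_log]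
        congr 1
        push_cast
        ring
      rw [h3]
      unfold gg
      ring
    rw [Finset.sum_congr rfl e1, Finset.sum_sub_distrib, ← Finset.sum_mul]
    rw [double_sum (fun n => κ (Real.log (n : ℝ)) * (n : ℂ) ^ (-(1 / 2 + I * t : ℂ))) hM]
    · congr 1
      congr 1
      unfold Hm
      push_cast
      rfl
    · intro n hn
      have : Real.log N < Real.log n := Real.log_lt_log hN0 (by exact_mod_cast hn)
      rw [hκ _ this, zero_mul]
  -- the integral
  have hBM : ∀ M : ℕ, N ≤ M →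
      ∫ x in Iic (Real.log M), F2 κ t x * cexp ((1 / 2 - I * t) * x) = Q - Real.log M * P := by
    intro M hM
    have hint : IntegrableOn (fun x : ℝ => F2 κ t x * cexp ((1 / 2 - I * t) * x))
        (Iic (Real.log M)) := by
      have h1 := integrableOn_exp_mul_complex_Iic (a := (1 / 2 - I * t : ℂ)) (by simp) (Real.log M)
      refine Integrable.bdd_mul (c := ‖(1 / (2 * Real.pi) : ℂ)‖ *
        ∫ v, ‖KF κ v * riemannZeta (1 / 2 + I * (t + v : ℝ))‖) h1
        (continuous_F2 κ t).aestronglyMeasurable (Eventually.of_forall fun x => norm_F2_le κ t x)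
    have hlim := intervalIntegral_tendsto_integral_Iic (Real.log M) hint
      (a := fun K : ℕ => -Real.log K) (l := atTop)
      (tendsto_neg_atTop_atBot.comp (Real.tendsto_log_atTop.comp tendsto_natCast_atTop_atTop))
    have hlim2 := (tendsto_int_hK κ t hN hκ hκ').sub_const (Real.log M * P)
    refine tendsto_nhds_unique hlim (hlim2.congr' ?_)
    filter_upwards [eventually_ge_atTop 1] with K hK1
    rw [int_Phi κ t hN hκ hκ' hM hK1]
  -- the limit
  have h1 := (tr_F2 κ t).tendsto_sum t
  have h2 : Tendsto (fun M : ℕ => ∑ n ∈ Finset.Icc 1 M, F2 κ t (Real.log n) *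
      (n : ℂ) ^ (-(1 / 2 + I * t : ℂ)) -
      ∫ x in Iic (Real.log M), F2 κ t x * cexp ((1 / 2 - I * t) * x))
      atTop (𝓝 (D - Real.eulerMascheroniConstant * P - Q)) := by
    have h3 : Tendsto (fun M : ℕ => D - ((harmonic M : ℝ) - Real.log M : ℝ) * P - Q) atTop
        (𝓝 (D - Real.eulerMascheroniConstant * P - Q)) := by
      refine (Tendsto.const_sub _ (Tendsto.mul_const _ ?_)).sub_const _
      exact (Complex.continuous_ofReal.tendsto _).comp Real.tendsto_harmonic_sub_log
    refine h3.congr' ?_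
    filter_upwards [eventually_ge_atTop N] with M hM
    rw [hA M hM, hBM M hM, Hm_eq]
    push_cast
    ring
  have h3 := tendsto_nhds_unique h1 h2
  have e1 : ∫ v : ℝ, KF κ v * riemannZeta (1 / 2 + I * (t + v : ℝ)) *
      riemannZeta (1 / 2 + I * (t + v : ℝ))
      = ∫ v : ℝ, KF κ v * riemannZeta (1 / 2 + I * (t + v : ℝ)) ^ 2 :=
    integral_congr_ae (Eventually.of_forall fun v => by simp only; ring)
  rw [e1] at h3
  rw [h3]
  have e2 : ∫ x, (κ x * ((x + 2 * Real.eulerMascheroniConstant : ℝ) : ℂ)) * cexp ((1 / 2 - I * t) * x)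
      = Q + Real.eulerMascheroniConstant * P := by
    rw [hQ, hP, ← integral_const_mul, ← integral_add]
    · refine integral_congr_ae (Eventually.of_forall fun x => ?_)
      simp only
      unfold gg
      push_cast
      ring
    · exact integrable_gg_mul κ t hκ hκ' (by fun_prop)
    · exact hgi.const_mul _
  rw [e2]
  ring

end Main

end Pool.Agent.H20.Smooth
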