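import Mathlib
import Pool.Agent.Lib.MP_f9aece_nt_h20.Sq2

/-!
Smooth windows built from two smooth steps, as Schwartz functions, and the bounds for their
transforms; the reflection of squares; the approximate identity.
-/

set_option autoImplicit false

namespace Pool.Agent.H20.Smooth

open MeasureTheory Complex Set Filter Topology FourierTransform
open scoped SchwartzMap ComplexConjugate ContDiff

/-- the smooth step as a complex function -/
noncomputable def sg (x : ℝ) : ℂ := (Real.smoothTransition x : ℂ)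

lemma sg_contDiff : ContDiff ℝ ∞ sg :=
  Complex.ofRealCLM.contDiff.comp Real.smoothTransition.contDiff

lemma sg_zero {x : ℝ} (h : x ≤ 0) : sg x = 0 := by
  unfold sg; rw [Real.smoothTransition.zero_of_nonpos h]; simp

lemma sg_one {x : ℝ} (h : 1 ≤ x) : sg x = 1 := by
  unfold sg; rw [Real.smoothTransition.one_of_one_le h]; simp

lemma norm_sg_le (x : ℝ) : ‖sg x‖ ≤ 1 := by
  unfold sg
  rw [Complex.norm_real, Real.norm_of_nonneg (Real.smoothTransition.nonneg x)]
  exact Real.smoothTransition.le_one x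

lemma deriv_sg_zero {x : ℝ} (h : x ∉ Icc (0 : ℝ) 1) : deriv sg x = 0 := by
  rw [mem_Icc, not_and_or, not_le, not_le] at h
  rcases h with h | h
  · have : sg =ᶠ[𝓝 x] fun _ => 0 := by
      filter_upwards [Iio_mem_nhds h] with y hy
      exact sg_zero (le_of_lt hy)
    rw [this.deriv_eq, deriv_const]
  · have : sg =ᶠ[𝓝 x] fun _ => 1 := by
      filter_upwards [Ioi_mem_nhds h] with y hy
      exact sg_one (le_of_lt hy)
    rw [this.deriv_eq, deriv_const]

lemma deriv_sg_compact : HasCompactSupport (deriv sg) :=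
  HasCompactSupport.intro isCompact_Icc fun _ hx => deriv_sg_zero hx

lemma iter_sg_compact (m : ℕ) : HasCompactSupport (iteratedDeriv (m + 1) sg) := by
  induction m with
  | zero =>
    rw [zero_add, iteratedDeriv_one]
    exact deriv_sg_compact
  | succ m ih =>
    rw [iteratedDeriv_succ]
    exact ih.deriv

lemma iter_sg_continuous (m : ℕ) : Continuous (iteratedDeriv m sg) :=
  sg_contDiff.continuous_iteratedDeriv m (by exact_mod_cast le_top)

lemma iter_sg_integrable (m : ℕ) : Integrable (iteratedDeriv (m + 1) sg) :=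
  (iter_sg_continuous _).integrable_of_hasCompactSupport (iter_sg_compact m)

/-- `L¹` norms of the derivatives of the step -/
noncomputable def cM (m : ℕ) : ℝ := ∫ x, ‖iteratedDeriv m sg x‖

lemma cM_nonneg (m : ℕ) : 0 ≤ cM m := integral_nonneg fun _ => norm_nonneg _

/-- a bound for the derivative of the step -/
lemma exists_deriv_sg_le : ∃ c : ℝ, 0 ≤ c ∧ ∀ x, ‖deriv sg x‖ ≤ c := by
  have hc : Continuous (deriv sg) := by
    have := iter_sg_continuous 1
    rwa [iteratedDeriv_one] at this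
  obtain ⟨x0, hx0⟩ := hc.norm.exists_forall_ge_of_hasCompactSupport deriv_sg_compact.norm
  exact ⟨_, norm_nonneg _, hx0⟩

noncomputable def c1 : ℝ := exists_deriv_sg_le.choose

lemma c1_nonneg : 0 ≤ c1 := exists_deriv_sg_le.choose_spec.1

lemma norm_deriv_sg_le (x : ℝ) : ‖deriv sg x‖ ≤ c1 := exists_deriv_sg_le.choose_spec.2 x

/-- parameters of a window -/
structure Pr (a α b β : ℝ) : Prop where
  hα : 0 < α
  hβ : 0 < β
  h : a + α ≤ b - β

/-- a smooth window: `0` outside `[a, b]`, `1` on `[a + α, b - β]` -/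
noncomputable def bm (a α b β x : ℝ) : ℂ := sg ((x - a) / α) + sg ((b - x) / β) - 1

section Window

variable {a α b β : ℝ}

lemma bm_left (h : Pr a α b β) {x : ℝ} (hx : x ≤ b - β) : bm a α b β x = sg ((x - a) / α) := by
  unfold bm
  have : 1 ≤ (b - x) / β := by rw [le_div_iff₀ h.hβ]; linarith
  rw [sg_one this]; ring

lemma bm_right (h : Pr a α b β) {x : ℝ} (hx : a + α ≤ x) : bm a α b β x = sg ((b - x) / β) := by
  unfold bm
  have : 1 ≤ (x - a) / α := by rw [le_div_iff₀ h.hα]; linarith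
  rw [sg_one this]; ring

lemma bm_zero_left (h : Pr a α b β) {x : ℝ} (hx : x ≤ a) : bm a α b β x = 0 := by
  rw [bm_left h (by linarith [h.h, h.hα]), sg_zero]
  exact div_nonpos_of_nonpos_of_nonneg (by linarith) h.hα.le

lemma bm_zero_right (h : Pr a α b β) {x : ℝ} (hx : b ≤ x) : bm a α b β x = 0 := by
  rw [bm_right h (by linarith [h.h, h.hβ]), sg_zero]
  exact div_nonpos_of_nonpos_of_nonneg (by linarith) h.hβ.le

lemma norm_bm_le (h : Pr a α b β) (x : ℝ) : ‖bm a α b β x‖ ≤ 1 := by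
  rcases le_total x (b - β) with hx | hx
  · rw [bm_left h hx]; exact norm_sg_le _
  · rw [bm_right h (h.h.trans hx)]; exact norm_sg_le _

lemma bm_contDiff : ContDiff ℝ ∞ (bm a α b β) := by
  unfold bm
  have h1 : ContDiff ℝ ∞ (fun x : ℝ => sg ((x - a) / α)) := sg_contDiff.comp (by fun_prop)
  have h2 : ContDiff ℝ ∞ (fun x : ℝ => sg ((b - x) / β)) := sg_contDiff.comp (by fun_prop)
  exact (h1.add h2).sub contDiff_const

lemma bm_compact (h : Pr a α b β) : HasCompactSupport (bm a α b β) := by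
  refine HasCompactSupport.intro (isCompact_Icc (a := a) (b := b)) fun x hx => ?_
  rw [mem_Icc, not_and_or, not_le, not_le] at hx
  rcases hx with hx | hx
  · exact bm_zero_left h hx.le
  · exact bm_zero_right h hx.le

/-- the window as a Schwartz function -/
noncomputable def BS (h : Pr a α b β) : 𝓢(ℝ, ℂ) := (bm_compact h).toSchwartzMap bm_contDiff

lemma BS_apply (h : Pr a α b β) (x : ℝ) : BS h x = bm a α b β x := rfl

lemma BS_coe (h : Pr a α b β) : (BS h : ℝ → ℂ) = bm a α b β := rfl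

lemma iter_up (m : ℕ) (a α : ℝ) : iteratedDeriv m (fun x : ℝ => sg ((x - a) / α))
    = fun x => (α⁻¹) ^ m • iteratedDeriv m sg ((x - a) / α) := by
  have e : (fun x : ℝ => sg ((x - a) / α)) = fun x => (fun y => sg (α⁻¹ * y)) (x - a) := by
    funext x; simp only; congr 1; rw [div_eq_inv_mul]
  have h1 := iteratedDeriv_comp_sub_const m (fun y : ℝ => sg (α⁻¹ * y)) a
  have h2 := iteratedDeriv_comp_const_smul (n := m) (f := sg)
    (sg_contDiff.of_le (by exact_mod_cast le_top)) α⁻¹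
  rw [e, h1, h2]
  funext x
  simp only
  rw [div_eq_inv_mul]

lemma iter_down (m : ℕ) (b β : ℝ) : iteratedDeriv m (fun x : ℝ => sg ((b - x) / β))
    = fun x => (-1 : ℝ) ^ m • ((β⁻¹) ^ m • iteratedDeriv m sg ((b - x) / β)) := by
  have e : (fun x : ℝ => sg ((b - x) / β)) = fun x => (fun y => sg (β⁻¹ * y)) (b - x) := by
    funext x; simp only; congr 1; rw [div_eq_inv_mul]
  have h1 := iteratedDeriv_comp_const_sub m (fun y : ℝ => sg (β⁻¹ * y)) b
  have h2 := iteratedDeriv_comp_const_smul (n := m) (f := sg)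
    (sg_contDiff.of_le (by exact_mod_cast le_top)) β⁻¹
  rw [e, h1, h2]
  funext x
  simp only
  rw [div_eq_inv_mul]

lemma int_comp (g : ℝ → ℝ) (hα : 0 < α) : ∫ x, g ((x - a) / α) = α * ∫ x, g x := by
  have h1 : ∫ x, g ((x - a) / α) = ∫ x, g (x / α) :=
    integral_sub_right_eq_self (fun x => g (x / α)) a
  rw [h1]
  have h2 := Measure.integral_comp_div g α
  rw [h2, abs_of_pos hα, smul_eq_mul]

lemma int_comp' (g : ℝ → ℝ) (hβ : 0 < β) : ∫ x, g ((b - x) / β) = β * ∫ x, g x := by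
  have h1 : ∫ x, g ((b - x) / β) = ∫ x, g (x / β) :=
    integral_sub_left_eq_self (fun x => g (x / β)) volume b
  rw [h1]
  have h2 := Measure.integral_comp_div g β
  rw [h2, abs_of_pos hβ, smul_eq_mul]

lemma I1_BS_le (h : Pr a α b β) (hα : 1 ≤ α) (hβ : 1 ≤ β) (m : ℕ) :
    I1 (BS h) (m + 1) ≤ 2 * cM (m + 1) := by
  have hα0 : 0 < α := h.hα
  have hβ0 : 0 < β := h.hβ
  unfold I1
  rw [BS_coe]
  have e : ∀ x, iteratedDeriv (m + 1) (bm a α b β) x
      = (α⁻¹) ^ (m + 1) • iteratedDeriv (m + 1) sg ((x - a) / α)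
        + (-1 : ℝ) ^ (m + 1) • ((β⁻¹) ^ (m + 1) • iteratedDeriv (m + 1) sg ((b - x) / β)) := by
    intro x
    have h1 : ContDiff ℝ ∞ (fun x : ℝ => sg ((x - a) / α)) := sg_contDiff.comp (by fun_prop)
    have h2 : ContDiff ℝ ∞ (fun x : ℝ => sg ((b - x) / β)) := sg_contDiff.comp (by fun_prop)
    have h1' : ContDiff ℝ ((m + 1 : ℕ) : ℕ∞) (fun x : ℝ => sg ((x - a) / α)) :=
      h1.of_le (by exact_mod_cast le_top)
    have h2' : ContDiff ℝ ((m + 1 : ℕ) : ℕ∞) (fun x : ℝ => sg ((b - x) / β)) :=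
      h2.of_le (by exact_mod_cast le_top)
    have e1 : bm a α b β = fun x => (-1 : ℂ) +
        ((fun x : ℝ => sg ((x - a) / α)) + fun x : ℝ => sg ((b - x) / β)) x := by
      funext x; unfold bm; simp only [Pi.add_apply]; ring
    rw [e1, iteratedDeriv_const_add (by omega), iteratedDeriv_add h1'.contDiffAt h2'.contDiffAt,
      iter_up, iter_down]
  have hi := iter_sg_integrable m
  have i1 : Integrable (fun x => ‖iteratedDeriv (m + 1) sg ((x - a) / α)‖) := by
    have := (hi.norm.comp_div hα0.ne').comp_sub_right a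
    exact this
  have i2 : Integrable (fun x => ‖iteratedDeriv (m + 1) sg ((b - x) / β)‖) := by
    have := (hi.norm.comp_div hβ0.ne').comp_sub_left b
    exact this
  have hb : ∀ x, ‖iteratedDeriv (m + 1) (bm a α b β) x‖
      ≤ (α⁻¹) ^ (m + 1) * ‖iteratedDeriv (m + 1) sg ((x - a) / α)‖
        + (β⁻¹) ^ (m + 1) * ‖iteratedDeriv (m + 1) sg ((b - x) / β)‖ := by
    intro x
    rw [e x]
    refine (norm_add_le _ _).trans (le_of_eq ?_)
    have hn : ‖(-1 : ℝ) ^ (m + 1)‖ = 1 := by rw [norm_pow, norm_neg, norm_one, one_pow]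
    have ha : ‖(α⁻¹) ^ (m + 1)‖ = (α⁻¹) ^ (m + 1) := Real.norm_of_nonneg (by positivity)
    have hb : ‖(β⁻¹) ^ (m + 1)‖ = (β⁻¹) ^ (m + 1) := Real.norm_of_nonneg (by positivity)
    rw [norm_smul, norm_smul, norm_smul, hn, ha, hb, one_mul]
  have hα2 : (α⁻¹) ^ (m + 1) * α ≤ 1 := by
    have h1 : α⁻¹ ≤ 1 := inv_le_one_of_one_le₀ hα
    calc (α⁻¹) ^ (m + 1) * α = (α⁻¹) ^ m * (α⁻¹ * α) := by rw [pow_succ]; ring
      _ = (α⁻¹) ^ m := by rw [inv_mul_cancel₀ hα0.ne', mul_one]
      _ ≤ 1 := pow_le_one₀ (by positivity) h1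
  have hβ2 : (β⁻¹) ^ (m + 1) * β ≤ 1 := by
    have h1 : β⁻¹ ≤ 1 := inv_le_one_of_one_le₀ hβ
    calc (β⁻¹) ^ (m + 1) * β = (β⁻¹) ^ m * (β⁻¹ * β) := by rw [pow_succ]; ring
      _ = (β⁻¹) ^ m := by rw [inv_mul_cancel₀ hβ0.ne', mul_one]
      _ ≤ 1 := pow_le_one₀ (by positivity) h1
  calc ∫ x, ‖iteratedDeriv (m + 1) (bm a α b β) x‖
      ≤ ∫ x, ((α⁻¹) ^ (m + 1) * ‖iteratedDeriv (m + 1) sg ((x - a) / α)‖
        + (β⁻¹) ^ (m + 1) * ‖iteratedDeriv (m + 1) sg ((b - x) / β)‖) :=
        integral_mono_of_nonneg (Eventually.of_forall fun _ => norm_nonneg _)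
          ((i1.const_mul _).add (i2.const_mul _)) (Eventually.of_forall hb)
    _ = (α⁻¹) ^ (m + 1) * (α * cM (m + 1)) + (β⁻¹) ^ (m + 1) * (β * cM (m + 1)) := by
        rw [integral_add (i1.const_mul _) (i2.const_mul _), integral_const_mul, integral_const_mul,
          int_comp (fun x => ‖iteratedDeriv (m + 1) sg x‖) hα0,
          int_comp' (fun x => ‖iteratedDeriv (m + 1) sg x‖) hβ0]
        rfl
    _ = ((α⁻¹) ^ (m + 1) * α + (β⁻¹) ^ (m + 1) * β) * cM (m + 1) := by ring
    _ ≤ 2 * cM (m + 1) := by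
        have := cM_nonneg (m + 1)
        gcongr
        linarith

/-- the third moment of the transform of a wide window is bounded -/
lemma M3_BS_le (h : Pr a α b β) (hα : 1 ≤ α) (hβ : 1 ≤ β) :
    M3 (BS h) ≤ Real.pi * (4 * cM 1 + 8 * cM 3 + 4 * cM 5) := by
  refine (M3_le (BS h) (bm_compact h)).trans ?_
  have h1 := I1_BS_le h hα hβ 0
  have h3 := I1_BS_le h hα hβ 2
  have h5 := I1_BS_le h hα hβ 4
  norm_num at h1 h3 h5
  refine (le_of_eq ?_).trans (mul_le_mul_of_nonneg_left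
    (show 2 * I1 (BS h) 1 + 4 * I1 (BS h) 3 + 2 * I1 (BS h) 5 ≤ _ by linarith) Real.pi_pos.le)
  ring

end Window

end Pool.Agent.H20.Smooth
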