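import Mathlib
import Pool.Agent.Lib.MP_f9aece_nt_h20.Bmp

/-!
Smooth sums as averages of sums with a sharp cut.
-/

set_option autoImplicit false

namespace Pool.Agent.H20.Smooth

open MeasureTheory Complex Set Filter Topology
open scoped ContDiff

/-- partial sums up to `e^x` -/
noncomputable def PSum (c : ℕ → ℂ) (x : ℝ) : ℂ := ∑ n ∈ Finset.Icc 1 ⌊Real.exp x⌋₊, c n

lemma mem_iff {n : ℕ} (hn : 1 ≤ n) (x : ℝ) : n ∈ Finset.Icc 1 ⌊Real.exp x⌋₊ ↔ Real.log n ≤ x := by
  rw [Finset.mem_Icc, Nat.le_floor_iff (Real.exp_pos x).le,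
    Real.log_le_iff_le_exp (by exact_mod_cast hn)]
  exact ⟨fun h => h.2, fun h => ⟨hn, h⟩⟩

lemma PSum_eq (c : ℕ → ℂ) {x : ℝ} {N : ℕ} (hN : Real.exp x ≤ N) :
    PSum c x = ∑ n ∈ Finset.Icc 1 N, if Real.log n ≤ x then c n else 0 := by
  unfold PSum
  rw [← Finset.sum_filter]
  refine Finset.sum_congr ?_ fun _ _ => rfl
  ext n
  rw [Finset.mem_filter]
  constructor
  · intro h
    have h1 := (Finset.mem_Icc.mp h).1
    refine ⟨Finset.mem_Icc.mpr ⟨h1, ?_⟩, (mem_iff h1 x).mp h⟩
    have h2 : ((n : ℕ) : ℝ) ≤ Real.exp x :=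
      (Nat.le_floor_iff (Real.exp_pos x).le).mp (Finset.mem_Icc.mp h).2
    exact_mod_cast h2.trans hN
  · rintro ⟨h1, h2⟩
    exact (mem_iff (Finset.mem_Icc.mp h1).1 x).mpr h2

/-- A smooth cut is an average of sharp cuts. -/
theorem smooth_eq_average {k : ℝ → ℝ} (hk : Continuous k) {a b : ℝ} (hab : a ≤ b)
    {κ : ℝ → ℝ} (hκ : ∀ y, κ y = ∫ x in a..b, if y ≤ x then k x else 0)
    (c : ℕ → ℂ) {N : ℕ} (hN : Real.exp b ≤ N) :
    ∑ n ∈ Finset.Icc 1 N, (κ (Real.log n) : ℂ) * c n
      = ∫ x in a..b, (k x : ℂ) * PSum c x := by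
  have h1 : ∀ x ∈ uIcc a b, (k x : ℂ) * PSum c x
      = ∑ n ∈ Finset.Icc 1 N, ((if Real.log n ≤ x then k x else 0 : ℝ) : ℂ) * c n := by
    intro x hx
    rw [uIcc_of_le hab] at hx
    rw [PSum_eq c (N := N) ((Real.exp_le_exp.mpr hx.2).trans hN), Finset.mul_sum]
    refine Finset.sum_congr rfl fun n _ => ?_
    split_ifs <;> simp
  have hint : ∀ y : ℝ, IntervalIntegrable (fun x => if y ≤ x then k x else 0) volume a b := by
    intro y
    have : (fun x => if y ≤ x then k x else 0) = (Ici y).indicator k := by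
      funext x
      simp only [indicator, mem_Ici]
    rw [this, intervalIntegrable_iff]
    exact ((hk.intervalIntegrable a b).def'.indicator measurableSet_Ici)
  have hint2 : ∀ n : ℕ, IntervalIntegrable (fun x =>
      ((if Real.log n ≤ x then k x else 0 : ℝ) : ℂ) * c n) volume a b := fun n =>
    (show IntervalIntegrable (fun x => ((if Real.log n ≤ x then k x else 0 : ℝ) : ℂ)) volume a b
      from ⟨(hint _).1.ofReal, (hint _).2.ofReal⟩).mul_const _
  rw [intervalIntegral.integral_congr h1,
    intervalIntegral.integral_finsetSum fun n _ => hint2 n]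
  refine Finset.sum_congr rfl fun n _ => ?_
  rw [intervalIntegral.integral_mul_const, hκ, intervalIntegral.integral_ofReal]

lemma intervalIntegrable_PSum (c : ℕ → ℂ) (a b : ℝ) :
    IntervalIntegrable (PSum c) volume a b := by
  set N : ℕ := ⌈Real.exp (max a b)⌉₊ with hN
  have h1 : ∀ x ∈ uIoc a b, (∑ n ∈ Finset.Icc 1 N, if Real.log n ≤ x then c n else 0)
      = PSum c x := by
    intro x hx
    refine (PSum_eq c ?_).symm
    have h2 : x ≤ max a b := (uIoc_subset_uIcc.trans (by rfl : uIcc a b ⊆ uIcc a b) hx).2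
    exact (Real.exp_le_exp.mpr h2).trans (Nat.le_ceil _)
  refine IntervalIntegrable.congr h1 ?_
  have h3 := IntervalIntegrable.sum (Finset.Icc 1 N)
    (f := fun (n : ℕ) (x : ℝ) => if Real.log n ≤ x then c n else 0) (μ := volume) (a := a) (b := b)
    (fun n _ => ?_)
  · refine h3.congr fun x _ => ?_
    rw [Finset.sum_apply]
  · have : (fun x => if Real.log n ≤ x then c n else 0)
        = (Ici (Real.log n)).indicator (fun _ => c n) := by
      funext x
      simp only [indicator, mem_Ici]
    rw [this, intervalIntegrable_iff]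
    exact (((continuous_const (y := c n)).intervalIntegrable a b).def'.indicator measurableSet_Ici)

/-! ### smooth steps -/

/-- the density of the step -/
noncomputable def kd (b w x : ℝ) : ℝ := w⁻¹ * deriv Real.smoothTransition ((b - x) / w)

lemma continuous_deriv_st : Continuous (deriv Real.smoothTransition) :=
  (Real.smoothTransition.contDiff (n := 1)).continuous_deriv (by norm_num)

lemma continuous_kd (b w : ℝ) : Continuous (kd b w) := by
  have := continuous_deriv_st
  unfold kd
  fun_prop

lemma hasDerivAt_st (x : ℝ) :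
    HasDerivAt Real.smoothTransition (deriv Real.smoothTransition x) x :=
  ((Real.smoothTransition.contDiff (n := 1)).differentiable (by norm_num) x).hasDerivAt

lemma deriv_sg_eq (x : ℝ) : deriv sg x = ((deriv Real.smoothTransition x : ℝ) : ℂ) :=
  ((hasDerivAt_st x).ofReal_comp).deriv

lemma abs_deriv_st_le (x : ℝ) : |deriv Real.smoothTransition x| ≤ c1 := by
  have := norm_deriv_sg_le x
  rwa [deriv_sg_eq, Complex.norm_real] at this

lemma deriv_st_nonneg (x : ℝ) : 0 ≤ deriv Real.smoothTransition x := by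
  exact Real.smoothTransition.monotone.deriv_nonneg

lemma int_kd (w b y : ℝ) :
    ∫ x in y..b, kd b w x = Real.smoothTransition ((b - y) / w) := by
  have hd : ∀ x ∈ uIcc y b, HasDerivAt (fun x => -Real.smoothTransition ((b - x) / w))
      (kd b w x) x := by
    intro x _
    have h1 : HasDerivAt (fun x : ℝ => (b - x) / w) (-1 / w) x :=
      ((hasDerivAt_id x).const_sub b).div_const w
    have h2 := ((hasDerivAt_st ((b - x) / w)).comp x h1).neg
    refine h2.congr_deriv ?_
    unfold kd
    ring
  rw [intervalIntegral.integral_eq_sub_of_hasDerivAt hd ((continuous_kd b w).intervalIntegrable _ _)]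
  rw [sub_self, zero_div, Real.smoothTransition.zero_of_nonpos le_rfl]
  ring

lemma step_avg {w : ℝ} (hw : 0 < w) (b y : ℝ) :
    Real.smoothTransition ((b - y) / w) = ∫ x in (b - w)..b, if y ≤ x then kd b w x else 0 := by
  rcases le_or_gt y (b - w) with h | h
  · have h1 : ∫ x in (b - w)..b, (if y ≤ x then kd b w x else 0) = ∫ x in (b - w)..b, kd b w x := by
      refine intervalIntegral.integral_congr fun x hx => ?_
      rw [uIcc_of_le (by linarith)] at hx
      rw [if_pos (h.trans hx.1)]
    rw [h1, int_kd]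
    rw [Real.smoothTransition.one_of_one_le, Real.smoothTransition.one_of_one_le]
    · rw [le_div_iff₀ hw]; linarith
    · rw [le_div_iff₀ hw]; linarith
  · rcases le_or_gt y b with h' | h'
    · have hint : ∀ u v : ℝ, IntervalIntegrable (fun x => if y ≤ x then kd b w x else 0) volume u v := by
        intro u v
        have : (fun x => if y ≤ x then kd b w x else 0) = (Ici y).indicator (kd b w) := by
          funext x
          simp only [indicator, mem_Ici]
        rw [this, intervalIntegrable_iff]
        exact (((continuous_kd b w).intervalIntegrable u v).def'.indicator measurableSet_Ici)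
      rw [← intervalIntegral.integral_add_adjacent_intervals (hint (b - w) y) (hint y b)]
      have h1 : ∫ x in (b - w)..y, (if y ≤ x then kd b w x else 0) = 0 := by
        rw [intervalIntegral.integral_of_le h.le, integral_Ioc_eq_integral_Ioo]
        refine setIntegral_eq_zero_of_forall_eq_zero fun x hx => ?_
        rw [if_neg (not_le.mpr hx.2)]
      have h2 : ∫ x in y..b, (if y ≤ x then kd b w x else 0) = ∫ x in y..b, kd b w x := by
        refine intervalIntegral.integral_congr fun x hx => ?_
        rw [uIcc_of_le h'] at hx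
        rw [if_pos hx.1]
      rw [h1, h2, int_kd, zero_add]
    · have h1 : ∫ x in (b - w)..b, (if y ≤ x then kd b w x else 0) = ∫ x in (b - w)..b, (0 : ℝ) := by
        refine intervalIntegral.integral_congr fun x hx => ?_
        rw [uIcc_of_le (by linarith)] at hx
        rw [if_neg (by linarith [hx.2])]
      rw [h1, intervalIntegral.integral_zero, Real.smoothTransition.zero_of_nonpos]
      exact div_nonpos_of_nonpos_of_nonneg (by linarith) hw.le

/-- sums with a smooth step -/
theorem step_sum {w : ℝ} (hw : 0 < w) (b : ℝ) (c : ℕ → ℂ) {N : ℕ} (hN : Real.exp b ≤ N) :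
    ∑ n ∈ Finset.Icc 1 N, (Real.smoothTransition ((b - Real.log n) / w) : ℂ) * c n
      = ∫ x in (b - w)..b, (kd b w x : ℂ) * PSum c x :=
  smooth_eq_average (continuous_kd b w) (by linarith)
    (κ := fun y => Real.smoothTransition ((b - y) / w)) (step_avg hw b) c hN

lemma abs_kd_le {w : ℝ} (hw : 0 < w) (b x : ℝ) : |kd b w x| ≤ c1 / w := by
  unfold kd
  rw [abs_mul, abs_inv, abs_of_pos hw, div_eq_inv_mul c1]
  exact mul_le_mul_of_nonneg_left (abs_deriv_st_le _) (by positivity)

/-- bound by the average of sharp cuts -/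
theorem norm_step_sum_le {w : ℝ} (hw : 0 < w) (b : ℝ) (c : ℕ → ℂ) {N : ℕ}
    (hN : Real.exp b ≤ N) :
    ‖∑ n ∈ Finset.Icc 1 N, (Real.smoothTransition ((b - Real.log n) / w) : ℂ) * c n‖
      ≤ c1 / w * ∫ x in (b - w)..b, ‖PSum c x‖ := by
  rw [step_sum hw b c hN, ← intervalIntegral.integral_const_mul]
  refine intervalIntegral.norm_integral_le_of_norm_le (by linarith)
    (Eventually.of_forall fun x _ => ?_)
    (((intervalIntegrable_PSum c _ _).norm).const_mul _)
  rw [norm_mul, Complex.norm_real, Real.norm_eq_abs]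
  exact mul_le_mul_of_nonneg_right (abs_kd_le hw b x) (norm_nonneg _)

end Pool.Agent.H20.Smooth
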