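import Mathlib
import Pool.Agent.Lib.MP_f9aece_nt_h20.Gen
import Pool.Agent.Lib.MP_f9aece_nt_h20.AbelZ

/-!
Zeta at distance `δ` from the critical line, through a smooth sum and the values on the line.
-/

set_option autoImplicit false

namespace Pool.Agent.H20.Smooth

open MeasureTheory Complex Set Filter Topology FourierTransform
open scoped SchwartzMap ComplexConjugate ContDiff
open Pool.Agent.Lib.MP_f9aece_nt (trap quad zeta_eq_sum)

/-- partial sums with the pole term tend to zeta -/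
lemma tendsto_ZN_zeta {s : ℂ} (hs : s ∈ quad) :
    Tendsto (fun M : ℕ => ZN M s) atTop (𝓝 (riemannZeta s)) := by
  have h1 : Tendsto (fun M : ℕ => riemannZeta s - (-((M : ℂ) ^ (-s) / 2) + ∑' n : ℕ, trap (n + M) s))
      atTop (𝓝 (riemannZeta s - (-(0 / 2) + 0))) := by
    refine Tendsto.const_sub _ (Tendsto.add ?_ ?_)
    · refine Tendsto.neg (Tendsto.div_const ?_ _)
      rw [tendsto_zero_iff_norm_tendsto_zero]
      have h2 : Tendsto (fun M : ℕ => (M : ℝ) ^ (-s.re)) atTop (𝓝 0) :=
        (tendsto_rpow_neg_atTop hs.1).comp tendsto_natCast_atTop_atTop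
      refine h2.congr' ?_
      filter_upwards [eventually_ge_atTop 1] with M hM
      rw [Complex.norm_natCast_cpow_of_pos hM, Complex.neg_re]
    · exact tendsto_sum_nat_add (fun n => trap n s)
  have h2 : riemannZeta s - (-(0 / 2) + 0) = riemannZeta s := by ring
  rw [h2] at h1
  refine h1.congr' ?_
  filter_upwards [eventually_ge_atTop 1] with M hM
  have h3 := zeta_eq_sum hs hM
  have hs1 : s ≠ 1 := by
    rintro rfl
    have := hs.2
    simp at this
  have h4 : s - 1 ≠ 0 := sub_ne_zero.mpr hs1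
  have h5 : 1 - s ≠ 0 := sub_ne_zero.mpr (Ne.symm hs1)
  have h6 : (M : ℂ) ^ (1 - s) / (s - 1) = -((M : ℂ) ^ (1 - s) / (1 - s)) := by
    rw [← neg_sub 1 s, div_neg]
  rw [h6] at h3
  unfold ZN
  linear_combination h3

/-- Fourier inversion -/
lemma tr_of_continuous {F K : ℝ → ℂ} (hF : Continuous F) (hi : Integrable F)
    (hK : ∀ v : ℝ, K v = ∫ x : ℝ, F x * cexp (I * v * x)) (hKc : Continuous K)
    (hKi : Integrable (fun v => (1 + |v|) ^ 2 * ‖K v‖)) : Tr F K := by
  refine ⟨hKc, hKi, fun x => ?_⟩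
  have hpi := Real.pi_pos
  have e1 : ∀ w : ℝ, 𝓕 F w = K (-(2 * Real.pi) * w) := by
    intro w
    rw [Real.fourier_real_eq_integral_exp_smul, hK]
    refine integral_congr_ae (Eventually.of_forall fun x => ?_)
    simp only [smul_eq_mul]
    rw [mul_comm]
    congr 2
    push_cast
    ring
  have hKint : Integrable K := by
    refine hKi.mono hKc.aestronglyMeasurable (Eventually.of_forall fun v => ?_)
    rw [norm_mul, norm_norm, Real.norm_of_nonneg (by positivity)]
    have h1 : 1 ≤ (1 + |v|) ^ 2 := by nlinarith [abs_nonneg v]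
    nlinarith [norm_nonneg (K v)]
  have hFi : Integrable (𝓕 F) := by
    have h2 := hKint.comp_mul_left' (g := K) (R := -(2 * Real.pi)) (by
      exact neg_ne_zero.mpr (by positivity))
    refine h2.congr (Eventually.of_forall fun w => ?_)
    simp only
    rw [e1]
  have h1 : 𝓕⁻ (𝓕 F) x = F x := by rw [hF.fourierInv_fourier_eq hi hFi]
  rw [Real.fourierInv_eq'] at h1
  have h2 := Measure.integral_comp_mul_left (fun w : ℝ =>
    cexp ((2 * Real.pi * inner ℝ w x : ℝ) * I) • (𝓕 F) w) (-(1 / (2 * Real.pi)))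
  rw [h1] at h2
  have h3 : |(-(1 / (2 * Real.pi)))⁻¹| = 2 * Real.pi := by
    rw [abs_inv, abs_neg, abs_of_pos (by positivity), one_div, inv_inv]
  rw [h3] at h2
  have h4 : ∫ v, K v * cexp (-(I * v * x)) = (2 * Real.pi) • F x := by
    rw [← h2]
    refine integral_congr_ae (Eventually.of_forall fun v => ?_)
    simp only [smul_eq_mul]
    have h5 : K v = 𝓕 F (-(1 / (2 * Real.pi)) * v) := by
      rw [e1]
      congr 1
      field_simp
    rw [h5, mul_comm]
    congr 2
    simp only [RCLike.inner_apply, conj_trivial]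
    push_cast
    have : (Real.pi : ℂ) ≠ 0 := by exact_mod_cast hpi.ne'
    field_simp
  rw [h4, Complex.real_smul]
  push_cast
  have : (Real.pi : ℂ) ≠ 0 := by exact_mod_cast hpi.ne'
  field_simp

/-! ### the transform of the density of the step -/

/-- the transform of the density -/
noncomputable def RR (z : ℂ) : ℂ := ∫ u : ℝ, deriv sg u * cexp (-z * u)

lemma pow_RR_le (m : ℕ) {z : ℂ} (hz : 0 ≤ z.re) : ‖z‖ ^ m * ‖RR z‖ ≤ cM (m + 1) := by
  have hc : ContDiff ℝ m (deriv sg) := by
    have h1 : ContDiff ℝ ((m + 1 : ℕ) : WithTop ℕ∞) sg := sg_contDiff.of_le (by exact_mod_cast le_top)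
    have := (contDiff_succ_iff_deriv (n := m) (f := sg)).mp (by exact_mod_cast h1)
    exact this.2.2
  have h := polar_iter m hc deriv_sg_compact (a := -z)
  rw [neg_neg] at h
  calc ‖z‖ ^ m * ‖RR z‖ = ‖z ^ m * RR z‖ := by rw [norm_mul, norm_pow]
    _ = ‖∫ x : ℝ, iteratedDeriv m (deriv sg) x * cexp (-z * x)‖ := by rw [h]; rfl
    _ ≤ ∫ x : ℝ, ‖iteratedDeriv m (deriv sg) x * cexp (-z * x)‖ := norm_integral_le_integral_norm _
    _ ≤ ∫ x : ℝ, ‖iteratedDeriv (m + 1) sg x‖ := by
        refine integral_mono_of_nonneg (Eventually.of_forall fun x => norm_nonneg _)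
          (iter_sg_integrable m).norm (Eventually.of_forall fun x => ?_)
        simp only
        rw [← iteratedDeriv_succ', norm_mul, Complex.norm_exp]
        by_cases hx : 0 ≤ x
        · have : (-z * x).re ≤ 0 := by
            simp only [neg_mul, Complex.neg_re, Complex.mul_re, Complex.ofReal_re,
              Complex.ofReal_im, mul_zero, sub_zero]
            nlinarith
          exact mul_le_of_le_one_right (norm_nonneg _) (Real.exp_le_one_iff.mpr this)
        · have h0 : iteratedDeriv (m + 1) sg x = 0 := by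
            have : sg =ᶠ[𝓝 x] fun _ => 0 := by
              filter_upwards [Iio_mem_nhds (not_le.mp hx)] with y hy
              exact sg_zero (le_of_lt hy)
            rw [this.iteratedDeriv_eq, iteratedDeriv_const]
            simp
          rw [h0, norm_zero, zero_mul]
    _ = cM (m + 1) := rfl

/-! ### the function `F` -/

section

variable (δ x0 w : ℝ)

/-- the cut exponential -/
noncomputable def Fk (x : ℝ) : ℂ := sg ((x - x0) / w) * cexp (-(δ : ℂ) * x)

/-- its transform -/
noncomputable def Kk (v : ℝ) : ℂ :=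
  cexp (-(δ - I * v : ℂ) * x0) * RR (w * (δ - I * v : ℂ)) / (δ - I * v : ℂ)

/-- the density of the increasing step -/
noncomputable def ku (x : ℝ) : ℝ := w⁻¹ * deriv Real.smoothTransition ((x - x0) / w)

variable {δ x0 w}

lemma continuous_sg : Continuous sg := sg_contDiff.continuous

lemma continuous_Fk : Continuous (Fk δ x0 w) := by
  have := continuous_sg
  unfold Fk
  fun_prop

lemma Fk_zero (hw : 0 < w) {x : ℝ} (hx : x ≤ x0) : Fk δ x0 w x = 0 := by
  unfold Fk
  rw [sg_zero (div_nonpos_of_nonpos_of_nonneg (by linarith) hw.le), zero_mul]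

lemma Fk_exp (hw : 0 < w) {x : ℝ} (hx : x0 + w ≤ x) : Fk δ x0 w x = cexp (-(δ : ℂ) * x) := by
  unfold Fk
  rw [sg_one (by rw [le_div_iff₀ hw]; linarith), one_mul]

lemma norm_Fk_le (x : ℝ) : ‖Fk δ x0 w x‖ ≤ Real.exp (-δ * x) := by
  unfold Fk
  rw [norm_mul, Complex.norm_exp]
  have h1 := norm_sg_le ((x - x0) / w)
  have h2 : (-(δ : ℂ) * x).re = -δ * x := by simp
  rw [h2]
  exact mul_le_of_le_one_left (Real.exp_pos _).le h1

lemma integrable_of_exp {f : ℝ → ℂ} (hδ : 0 < δ) (hf : Continuous f) (h0 : ∀ x ≤ x0, f x = 0)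
    {A : ℝ} (h1 : ∀ x, ‖f x‖ ≤ A * Real.exp (-δ * x)) : Integrable f := by
  have h2 : IntegrableOn f (Ioi x0) := by
    refine Integrable.mono' ((integrableOn_exp_mul_Ioi (a := -δ) (by linarith) x0).const_mul A)
      hf.aestronglyMeasurable.restrict (Eventually.of_forall fun x => h1 x)
  have h3 : f = (Ioi x0).indicator f := by
    funext x
    by_cases hx : x ∈ Ioi x0
    · rw [indicator_of_mem hx]
    · rw [indicator_of_notMem hx, h0 x (not_lt.mp hx)]
  rw [h3]
  exact (integrable_indicator_iff measurableSet_Ioi).mpr h2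

lemma integrable_Fk (hδ : 0 < δ) (hw : 0 < w) : Integrable (Fk δ x0 w) :=
  integrable_of_exp (A := 1) hδ continuous_Fk (fun x hx => Fk_zero hw hx) fun x => by
    rw [one_mul]; exact norm_Fk_le x

lemma sub_ne (hδ : 0 < δ) (v : ℝ) : (δ - I * v : ℂ) ≠ 0 := by
  intro h
  have := congrArg Complex.re h
  simp at this
  linarith

lemma Kk_eq (hδ : 0 < δ) (hw : 0 < w) (v : ℝ) :
    Kk δ x0 w v = ∫ x : ℝ, Fk δ x0 w x * cexp (I * v * x) := by
  set s : ℂ := δ - I * v with hs
  have hs0 : s ≠ 0 := sub_ne hδ v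
  have hsre : s.re = δ := by simp [hs]
  have hd : ∀ x : ℝ, HasDerivAt (fun x : ℝ => sg ((x - x0) / w) * cexp (-s * x))
      ((w⁻¹ : ℂ) * deriv sg ((x - x0) / w) * cexp (-s * x)
        - s * (Fk δ x0 w x * cexp (I * v * x))) x := by
    intro x
    have h1 : HasDerivAt (fun x : ℝ => sg ((x - x0) / w)) ((w⁻¹ : ℝ) • deriv sg ((x - x0) / w)) x := by
      have h2 : HasDerivAt (fun x : ℝ => (x - x0) / w) (1 / w) x :=
        ((hasDerivAt_id x).sub_const x0).div_const w
      have h3 : HasDerivAt sg (deriv sg ((x - x0) / w)) ((x - x0) / w) :=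
        ((sg_contDiff.differentiable (by simp)) _).hasDerivAt
      have := h3.scomp x h2
      rwa [one_div] at this
    have h4 : HasDerivAt (fun x : ℝ => cexp (-s * x)) (cexp (-s * x) * (-s)) x := by
      have h5 : HasDerivAt (fun x : ℝ => -s * (x : ℂ)) (-s * 1) x :=
        (Complex.ofRealCLM.hasDerivAt (x := x)).const_mul (-s)
      rw [mul_one] at h5
      exact h5.cexp
    refine (h1.fun_mul h4).congr_deriv ?_
    have e : Fk δ x0 w x * cexp (I * v * x) = sg ((x - x0) / w) * cexp (-s * x) := by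
      unfold Fk
      rw [mul_assoc, ← Complex.exp_add]
      congr 2
      rw [hs]; ring
    rw [e, Complex.real_smul]
    push_cast
    ring
  have hcs := continuous_sg
  have hcd : Continuous (deriv sg) := by
    have := iter_sg_continuous 1
    rwa [iteratedDeriv_one] at this
  have hcF := continuous_Fk (δ := δ) (x0 := x0) (w := w)
  have hn : ∀ x : ℝ, ‖cexp (-s * x)‖ = Real.exp (-δ * x) := by
    intro x
    rw [Complex.norm_exp]
    congr 1
    simp [hsre]
  have i1 : Integrable (fun x : ℝ => sg ((x - x0) / w) * cexp (-s * x)) := by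
    refine integrable_of_exp (A := 1) (x0 := x0) hδ (by fun_prop) (fun x hx => ?_) fun x => ?_
    · rw [sg_zero (div_nonpos_of_nonpos_of_nonneg (by linarith) hw.le), zero_mul]
    · rw [norm_mul, hn, one_mul]
      exact mul_le_of_le_one_left (Real.exp_pos _).le (norm_sg_le _)
  have i2 : Integrable (fun x : ℝ => (w⁻¹ : ℂ) * deriv sg ((x - x0) / w) * cexp (-s * x)) := by
    refine integrable_of_exp (A := w⁻¹ * c1) (x0 := x0) hδ (by fun_prop) (fun x hx => ?_) fun x => ?_
    · rcases eq_or_lt_of_le hx with rfl | hx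
      · rw [sub_self, zero_div]
        have : deriv sg 0 = 0 := by
          have h1 : Tendsto (deriv sg) (𝓝[<] 0) (𝓝 (deriv sg 0)) :=
            (hcd.tendsto 0).mono_left nhdsWithin_le_nhds
          have h2 : Tendsto (deriv sg) (𝓝[<] 0) (𝓝 0) := by
            refine tendsto_const_nhds.congr' ?_
            filter_upwards [self_mem_nhdsWithin] with y hy
            exact (deriv_sg_zero (fun h => absurd h.1 (not_le.mpr hy))).symm
          exact tendsto_nhds_unique h1 h2
        rw [this]; ring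
      · rw [deriv_sg_zero, mul_zero, zero_mul]
        intro h
        have := h.1
        rw [le_div_iff₀ hw] at this
        linarith
    · rw [norm_mul, norm_mul, hn, norm_inv, Complex.norm_real, Real.norm_of_nonneg hw.le]
      gcongr
      exact norm_deriv_sg_le _
  have i3 : Integrable (fun x : ℝ => Fk δ x0 w x * cexp (I * v * x)) := by
    refine integrable_of_exp (A := 1) (x0 := x0) hδ (by fun_prop) (fun x hx => ?_) fun x => ?_
    · rw [Fk_zero hw hx, zero_mul]
    · rw [norm_mul, Complex.norm_exp, one_mul]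
      have : (I * v * x : ℂ).re = 0 := by simp
      rw [this, Real.exp_zero, mul_one]
      exact norm_Fk_le x
  have h := integral_eq_zero_of_hasDerivAt_of_integrable hd (i2.sub (i3.const_mul s)) i1
  rw [integral_sub i2 (i3.const_mul s), integral_const_mul, sub_eq_zero] at h
  -- the transform of the density
  have h2 : ∫ x : ℝ, (w⁻¹ : ℂ) * deriv sg ((x - x0) / w) * cexp (-s * x)
      = cexp (-s * x0) * RR (w * s) := by
    have h3 : ∫ x : ℝ, (w⁻¹ : ℂ) * deriv sg ((x - x0) / w) * cexp (-s * x)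
        = ∫ x : ℝ, (w⁻¹ : ℂ) * deriv sg (x / w) * cexp (-s * (x + x0 : ℝ)) := by
      rw [← integral_add_right_eq_self (fun x : ℝ =>
        (w⁻¹ : ℂ) * deriv sg ((x - x0) / w) * cexp (-s * x)) x0]
      refine integral_congr_ae (Eventually.of_forall fun x => ?_)
      simp only
      rw [add_sub_cancel_right]
    have h4 := Measure.integral_comp_div (fun x : ℝ =>
      deriv sg x * cexp (-s * (w * x + x0 : ℝ))) w
    rw [abs_of_pos hw] at h4
    have h5 : ∫ x : ℝ, (w⁻¹ : ℂ) * deriv sg (x / w) * cexp (-s * (x + x0 : ℝ))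
        = (w⁻¹ : ℂ) * ∫ x : ℝ, deriv sg (x / w) * cexp (-s * (w * (x / w) + x0 : ℝ)) := by
      rw [← integral_const_mul]
      refine integral_congr_ae (Eventually.of_forall fun x => ?_)
      simp only
      rw [mul_div_cancel₀ _ hw.ne', mul_assoc]
    rw [h3, h5, h4, Complex.real_smul, ← mul_assoc, inv_mul_cancel₀ (by exact_mod_cast hw.ne'),
      one_mul]
    unfold RR
    rw [← integral_const_mul]
    refine integral_congr_ae (Eventually.of_forall fun x => ?_)
    simp only
    have : cexp (-s * (w * x + x0 : ℝ)) = cexp (-s * x0) * cexp (-(w * s) * x) := by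
      rw [← Complex.exp_add]
      congr 1
      push_cast
      ring
    rw [this]
    ring
  rw [h2] at h
  unfold Kk
  rw [← hs, h]
  field_simp

lemma continuous_Kk (hδ : 0 < δ) (hw : 0 < w) : Continuous (Kk δ x0 w) := by
  have e : Kk δ x0 w = fun v : ℝ => ∫ x : ℝ, Fk δ x0 w x * cexp (I * v * x) :=
    funext fun v => Kk_eq hδ hw v
  rw [e]
  have hc := continuous_Fk (δ := δ) (x0 := x0) (w := w)
  refine continuous_of_dominated (bound := fun x => ‖Fk δ x0 w x‖) ?_ ?_ (integrable_Fk hδ hw).norm ?_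
  · intro v
    exact Continuous.aestronglyMeasurable (by fun_prop)
  · intro v
    refine Eventually.of_forall fun x => ?_
    rw [norm_mul, Complex.norm_exp]
    simp
  · refine Eventually.of_forall fun x => ?_
    fun_prop

/-- decay of the transform -/
lemma norm_Kk_le (hδ : 0 < δ) (hw : 0 < w) (h1 : 1 ≤ δ * w) (v : ℝ) :
    ‖Kk δ x0 w v‖ ≤ 64 * cM 6 * Real.exp (-(δ * x0)) * (w / (1 + w * |v|) ^ 6) := by
  set s : ℂ := δ - I * v with hs
  have hs0 : s ≠ 0 := sub_ne hδ v
  have hsre : s.re = δ := by simp [hs]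
  have hsn : 0 < ‖s‖ := norm_pos_iff.mpr hs0
  have h2 := pow_RR_le 5 (z := w * s) (by simp [hsre]; positivity)
  rw [norm_mul, Complex.norm_real, Real.norm_of_nonneg hw.le] at h2
  have h3 : δ ≤ ‖s‖ := by
    have := Complex.re_le_norm s
    rwa [hsre] at this
  have h4 : |v| ≤ ‖s‖ := by
    have := Complex.abs_im_le_norm s
    have h5 : s.im = -v := by simp [hs]
    rwa [h5, abs_neg] at this
  have h6 : 1 + w * |v| ≤ 2 * (w * ‖s‖) := by nlinarith
  have h7 : 0 < 1 + w * |v| := by positivity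
  have hw0 : w * ‖s‖ > 0 := by positivity
  have hcm := cM_nonneg 6
  unfold Kk
  rw [← hs, norm_div, norm_mul, Complex.norm_exp]
  have h8 : (-s * x0).re = -(δ * x0) := by simp [hsre]
  rw [h8, div_le_iff₀ hsn]
  have h9 : ‖RR (w * s)‖ ≤ cM 6 / (w * ‖s‖) ^ 5 := by
    rw [le_div_iff₀ (by positivity)]
    linarith
  have h10 : cM 6 / (w * ‖s‖) ^ 5 ≤ 64 * cM 6 * (w / (1 + w * |v|) ^ 6) * ‖s‖ := by
    rw [div_le_iff₀ (by positivity)]
    have h11 : (1 + w * |v|) ^ 6 ≤ (2 * (w * ‖s‖)) ^ 6 := pow_le_pow_left₀ h7.le h6 6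
    have h12 : (2 * (w * ‖s‖)) ^ 6 = 64 * (w * ‖s‖) * (w * ‖s‖) ^ 5 := by ring
    rw [h12] at h11
    have h13 : 64 * cM 6 * (w / (1 + w * |v|) ^ 6) * ‖s‖ * (w * ‖s‖) ^ 5
        = cM 6 * (64 * (w * ‖s‖) * (w * ‖s‖) ^ 5) / (1 + w * |v|) ^ 6 := by
      field_simp
    rw [h13, le_div_iff₀ (by positivity)]
    gcongr
  calc Real.exp (-(δ * x0)) * ‖RR (w * s)‖
      ≤ Real.exp (-(δ * x0)) * (64 * cM 6 * (w / (1 + w * |v|) ^ 6) * ‖s‖) := by
        gcongr
        exact h9.trans h10
    _ = _ := by ring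

lemma integrable_kern (hw : 0 < w) : Integrable (fun v : ℝ => (1 + |v|) ^ 2 * (w / (1 + w * |v|) ^ 6)) := by
  -- compare with (1 + v^2)^{-1}
  set m : ℝ := min 1 w with hm
  have hm0 : 0 < m := lt_min one_pos hw
  have hm1 : m ≤ 1 := min_le_left _ _
  have hmw : m ≤ w := min_le_right _ _
  have hb : ∀ v : ℝ, (1 + |v|) ^ 2 * (w / (1 + w * |v|) ^ 6) ≤ w / m ^ 6 * (1 + v ^ 2)⁻¹ := by
    intro v
    have hv := abs_nonneg v
    have h1 : m * (1 + |v|) ≤ 1 + w * |v| := by nlinarith
    have h2 : (m * (1 + |v|)) ^ 6 ≤ (1 + w * |v|) ^ 6 := pow_le_pow_left₀ (by positivity) h1 6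
    have h3 : 1 + v ^ 2 ≤ (1 + |v|) ^ 4 := by
      rw [← sq_abs v]
      nlinarith [sq_nonneg |v|, pow_nonneg hv 3, pow_nonneg hv 4]
    calc (1 + |v|) ^ 2 * (w / (1 + w * |v|) ^ 6) ≤ (1 + |v|) ^ 2 * (w / (m * (1 + |v|)) ^ 6) := by
          gcongr
      _ = w / m ^ 6 * ((1 + |v|) ^ 4)⁻¹ := by
          field_simp
      _ ≤ w / m ^ 6 * (1 + v ^ 2)⁻¹ := by gcongr
  refine (integrable_inv_one_add_sq.const_mul (w / m ^ 6)).mono' ?_ (Eventually.of_forall fun v => ?_)
  · have : Continuous (fun v : ℝ => (1 + |v|) ^ 2 * (w / (1 + w * |v|) ^ 6)) := by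
      refine Continuous.mul (by fun_prop) (Continuous.div (by fun_prop) (by fun_prop) fun v => ?_)
      positivity
    exact this.aestronglyMeasurable
  · rw [Real.norm_of_nonneg (by positivity)]
    exact hb v

lemma tr_Fk (hδ : 0 < δ) (hw : 0 < w) (h1 : 1 ≤ δ * w) : Tr (Fk δ x0 w) (Kk δ x0 w) := by
  refine tr_of_continuous continuous_Fk (integrable_Fk hδ hw) (Kk_eq hδ hw) (continuous_Kk hδ hw) ?_
  have hc := continuous_Kk (x0 := x0) hδ hw
  refine ((integrable_kern hw).const_mul (64 * cM 6 * Real.exp (-(δ * x0)))).mono' ?_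
    (Eventually.of_forall fun v => ?_)
  · exact Continuous.aestronglyMeasurable (by fun_prop)
  · rw [Real.norm_of_nonneg (by positivity)]
    calc (1 + |v|) ^ 2 * ‖Kk δ x0 w v‖
        ≤ (1 + |v|) ^ 2 * (64 * cM 6 * Real.exp (-(δ * x0)) * (w / (1 + w * |v|) ^ 6)) := by
          gcongr
          exact norm_Kk_le hδ hw h1 v
      _ = _ := by ring

end

end Pool.Agent.H20.Smooth
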