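import Mathlib
import Pool.Agent.Lib.MP_f9aece_nt_h20.Kern1

/-!
The formula for zeta at distance `δ` from the critical line.
-/

set_option autoImplicit false

namespace Pool.Agent.H20.Smooth

open MeasureTheory Complex Set Filter Topology
open scoped SchwartzMap ComplexConjugate ContDiff
open Pool.Agent.Lib.MP_f9aece_nt (quad)

section

variable {δ x0 w : ℝ}

lemma sg_compl (x0 w y : ℝ) (hw : 0 < w) :
    ((Real.smoothTransition ((x0 + w - y) / w) : ℝ) : ℂ) = 1 - sg ((y - x0) / w) := by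
  have h0 : (x0 + w - y) / w = 1 - (y - x0) / w := by field_simp; ring
  rw [h0]
  have h : ∀ x : ℝ, Real.smoothTransition (1 - x) = 1 - Real.smoothTransition x := by
    intro x
    unfold Real.smoothTransition
    have h := (Real.smoothTransition.pos_denom x).ne'
    have h' : expNegInvGlue (1 - x) + expNegInvGlue x ≠ 0 := by rwa [add_comm]
    rw [sub_sub_cancel, eq_sub_iff_add_eq, add_comm (expNegInvGlue (1 - x)) (expNegInvGlue x),
      ← add_div, add_comm (expNegInvGlue (1 - x)) (expNegInvGlue x), div_self h]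
  rw [h]
  unfold sg
  push_cast
  ring

/-- the polar part -/
noncomputable def PK (x0 w : ℝ) (a : ℂ) : ℂ :=
  ∫ x in x0..(x0 + w), (w⁻¹ : ℂ) * deriv sg ((x - x0) / w) * cexp (a * x)

lemma norm_PK_le (hw : 0 < w) {a : ℂ} (ha : 0 ≤ a.re) :
    ‖PK x0 w a‖ ≤ c1 * Real.exp (a.re * (x0 + w)) := by
  unfold PK
  have h : ∀ x ∈ uIoc x0 (x0 + w), ‖(w⁻¹ : ℂ) * deriv sg ((x - x0) / w) * cexp (a * x)‖
      ≤ w⁻¹ * c1 * Real.exp (a.re * (x0 + w)) := by
    intro x hx
    rw [uIoc_of_le (by linarith)] at hx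
    rw [norm_mul, norm_mul, Complex.norm_exp, norm_inv, Complex.norm_real,
      Real.norm_of_nonneg hw.le]
    have h1 : (a * x).re = a.re * x := by simp
    rw [h1]
    have h2 := norm_deriv_sg_le ((x - x0) / w)
    have h3 : a.re * x ≤ a.re * (x0 + w) := mul_le_mul_of_nonneg_left hx.2 ha
    have h4 := c1_nonneg
    gcongr
  refine (intervalIntegral.norm_integral_le_of_norm_le_const h).trans (le_of_eq ?_)
  rw [add_sub_cancel_left, abs_of_pos hw]
  field_simp

lemma int_Fk {N : ℕ} (hw : 0 < w) (hN : Real.exp (x0 + w) ≤ N) (t : ℝ) (ht : t ≠ 0) :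
    ∫ x in Iic (Real.log N), Fk δ x0 w x * cexp ((1 / 2 - I * t) * x)
      = ((N : ℂ) ^ (1 - ((1 / 2 + δ : ℝ) + I * t) : ℂ) - PK x0 w (1 - ((1 / 2 + δ : ℝ) + I * t)))
        / (1 - ((1 / 2 + δ : ℝ) + I * t)) := by
  set a : ℂ := 1 - ((1 / 2 + δ : ℝ) + I * t) with ha
  have ha0 : a ≠ 0 := by
    intro h
    have := congrArg Complex.im h
    simp [ha] at this
    exact ht this
  have hN0 : (0 : ℝ) < N := (Real.exp_pos _).trans_le hN
  have hlog : x0 + w ≤ Real.log N := by
    rw [Real.le_log_iff_exp_le hN0]; exact hN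
  have hx0 : x0 ≤ Real.log N := by linarith
  -- restrict
  have e1 : ∀ x : ℝ, Fk δ x0 w x * cexp ((1 / 2 - I * t) * x) = sg ((x - x0) / w) * cexp (a * x) := by
    intro x
    unfold Fk
    rw [mul_assoc, ← Complex.exp_add]
    congr 2
    rw [ha]
    push_cast
    ring
  have e2 : ∫ x in Iic (Real.log N), Fk δ x0 w x * cexp ((1 / 2 - I * t) * x)
      = ∫ x in x0..(Real.log N), sg ((x - x0) / w) * cexp (a * x) := by
    rw [intervalIntegral.integral_of_le hx0]
    rw [← integral_indicator measurableSet_Iic, ← integral_indicator measurableSet_Ioc]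
    refine integral_congr_ae (Eventually.of_forall fun x => ?_)
    by_cases h1 : x ≤ Real.log N
    · rw [indicator_of_mem (mem_Iic.mpr h1), e1]
      by_cases h2 : x0 < x
      · rw [indicator_of_mem (mem_Ioc.mpr ⟨h2, h1⟩)]
      · rw [indicator_of_notMem (fun h => h2 h.1), sg_zero, zero_mul]
        exact div_nonpos_of_nonpos_of_nonneg (by linarith) hw.le
    · rw [indicator_of_notMem (by simpa using h1), indicator_of_notMem (fun h => h1 h.2)]
  have hd : ∀ x ∈ uIcc x0 (Real.log N), HasDerivAt (fun x : ℝ => sg ((x - x0) / w) * (cexp (a * x) / a))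
      ((w⁻¹ : ℂ) * deriv sg ((x - x0) / w) * cexp (a * x) / a + sg ((x - x0) / w) * cexp (a * x)) x := by
    intro x _
    have h1 : HasDerivAt (fun x : ℝ => sg ((x - x0) / w)) ((w⁻¹ : ℝ) • deriv sg ((x - x0) / w)) x := by
      have h2 : HasDerivAt (fun x : ℝ => (x - x0) / w) (1 / w) x :=
        ((hasDerivAt_id x).sub_const x0).div_const w
      have h3 : HasDerivAt sg (deriv sg ((x - x0) / w)) ((x - x0) / w) :=
        ((sg_contDiff.differentiable (by simp)) _).hasDerivAt
      have := h3.scomp x h2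
      rwa [one_div] at this
    have h4 : HasDerivAt (fun x : ℝ => cexp (a * x) / a) (cexp (a * x)) x := by
      have h5 : HasDerivAt (fun x : ℝ => a * (x : ℂ)) (a * 1) x :=
        (Complex.ofRealCLM.hasDerivAt (x := x)).const_mul a
      rw [mul_one] at h5
      refine (h5.cexp.div_const a).congr_deriv ?_
      field_simp
    refine (h1.fun_mul h4).congr_deriv ?_
    rw [Complex.real_smul]
    push_cast
    ring
  have hcs := continuous_sg
  have hcd : Continuous (deriv sg) := by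
    have := iter_sg_continuous 1
    rwa [iteratedDeriv_one] at this
  have c1' : Continuous (fun x : ℝ => (w⁻¹ : ℂ) * deriv sg ((x - x0) / w) * cexp (a * x) / a) := by
    fun_prop
  have c1'' : Continuous (fun x : ℝ => (w⁻¹ : ℂ) * deriv sg ((x - x0) / w) * cexp (a * x)) := by
    fun_prop
  have c2 : Continuous (fun x : ℝ => sg ((x - x0) / w) * cexp (a * x)) := by fun_prop
  have h := intervalIntegral.integral_eq_sub_of_hasDerivAt hd
    ((c1'.add c2).intervalIntegrable _ _)
  rw [intervalIntegral.integral_add (c1'.intervalIntegrable _ _) (c2.intervalIntegrable _ _)] at h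
  have h0 : sg ((x0 - x0) / w) = 0 := sg_zero (by rw [sub_self, zero_div])
  have h1 : sg ((Real.log N - x0) / w) = 1 := sg_one (by rw [le_div_iff₀ hw]; linarith)
  rw [h0, h1, zero_mul, sub_zero, one_mul] at h
  -- the density lives on `[x0, x0 + w]`
  have e3 : ∫ x in x0..(Real.log N), (w⁻¹ : ℂ) * deriv sg ((x - x0) / w) * cexp (a * x) / a
      = PK x0 w a / a := by
    rw [intervalIntegral.integral_div]
    congr 1
    unfold PK
    rw [← intervalIntegral.integral_add_adjacent_intervals (c1''.intervalIntegrable x0 (x0 + w))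
      (c1''.intervalIntegrable (x0 + w) (Real.log N))]
    have e4 : ∫ x in (x0 + w)..(Real.log N), (w⁻¹ : ℂ) * deriv sg ((x - x0) / w) * cexp (a * x)
        = 0 := by
      rw [intervalIntegral.integral_of_le hlog]
      refine setIntegral_eq_zero_of_forall_eq_zero fun x hx => ?_
      rw [deriv_sg_zero, mul_zero, zero_mul]
      intro h
      have h2 := h.2
      rw [div_le_iff₀ hw] at h2
      linarith [hx.1]
    rw [e4, add_zero]
  rw [e3] at h
  have e5 : (N : ℂ) ^ a = cexp (a * (Real.log N : ℝ)) := by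
    rw [Complex.cpow_def_of_ne_zero (by exact_mod_cast hN0.ne'), ← Complex.natCast_log, mul_comm]
  rw [e2, e5]
  linear_combination h

/-- **Zeta at distance `δ` from the critical line.** -/
theorem kernel_formula (hδ : 0 < δ) (hw : 0 < w) (h1 : 1 ≤ δ * w) {t : ℝ} (ht : 0 < t) :
    riemannZeta ((1 / 2 + δ : ℝ) + I * t)
      = (∫ x in x0..(x0 + w), (kd (x0 + w) w x : ℂ)
          * PSum (fun n => (n : ℂ) ^ (-((1 / 2 + δ : ℝ) + I * t) : ℂ)) x)
        - PK x0 w (1 - ((1 / 2 + δ : ℝ) + I * t)) / (1 - ((1 / 2 + δ : ℝ) + I * t))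
        + 1 / (2 * Real.pi) * ∫ v : ℝ, Kk δ x0 w v * riemannZeta (1 / 2 + I * (t + v : ℝ)) := by
  set s : ℂ := (1 / 2 + δ : ℝ) + I * t with hs
  set c : ℕ → ℂ := fun n => (n : ℂ) ^ (-s) with hc
  set A : ℂ := ∫ x in x0..(x0 + w), (kd (x0 + w) w x : ℂ) * PSum c x with hA
  have hq : s ∈ quad := by
    refine ⟨?_, ?_⟩
    · simp [hs]; linarith
    · simp [hs]; exact ht
  have hZ := tendsto_ZN_zeta hq
  have hlim := (tr_Fk (x0 := x0) hδ hw h1).tendsto_sum t
  have hev : ∀ᶠ M : ℕ in atTop, ∑ n ∈ Finset.Icc 1 M, Fk δ x0 w (Real.log n)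
        * (n : ℂ) ^ (-(1 / 2 + I * t : ℂ))
      - ∫ x in Iic (Real.log M), Fk δ x0 w x * cexp ((1 / 2 - I * t) * x)
      = ZN M s - A + PK x0 w (1 - s) / (1 - s) := by
    obtain ⟨N0, hN0⟩ := exists_nat_ge (Real.exp (x0 + w))
    filter_upwards [eventually_ge_atTop N0] with M hM
    have hMx : Real.exp (x0 + w) ≤ M := hN0.trans (by exact_mod_cast hM)
    rw [int_Fk hw hMx t ht.ne', ← hs]
    have h2 := step_sum hw (x0 + w) c hMx
    rw [add_sub_cancel_right] at h2
    have h3 : ∑ n ∈ Finset.Icc 1 M, Fk δ x0 w (Real.log n) * (n : ℂ) ^ (-(1 / 2 + I * t : ℂ))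
        = ∑ n ∈ Finset.Icc 1 M, (n : ℂ) ^ (-s) - A := by
      rw [hA, ← h2, ← Finset.sum_sub_distrib]
      refine Finset.sum_congr rfl fun n hn => ?_
      have hn1 := (Finset.mem_Icc.mp hn).1
      have hn' : (n : ℂ) ≠ 0 := by exact_mod_cast (by omega : n ≠ 0)
      rw [sg_compl x0 w _ hw]
      simp only [hc]
      have e : Fk δ x0 w (Real.log n) * (n : ℂ) ^ (-(1 / 2 + I * t : ℂ))
          = sg ((Real.log n - x0) / w) * (n : ℂ) ^ (-s) := by
        unfold Fk
        rw [mul_assoc, Complex.cpow_def_of_ne_zero hn', Complex.cpow_def_of_ne_zero hn',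
          ← Complex.exp_add, Complex.natCast_log]
        congr 2
        rw [hs]
        push_cast
        ring
      rw [e]
      ring
    rw [h3]
    unfold ZN
    ring
  have hlim2 : Tendsto (fun M : ℕ => ZN M s - A + PK x0 w (1 - s) / (1 - s)) atTop
      (𝓝 (riemannZeta s - A + PK x0 w (1 - s) / (1 - s))) :=
    (hZ.sub_const A).add_const _
  have h := tendsto_nhds_unique (hlim.congr' hev) hlim2
  linear_combination -h

lemma integrable_kern_zeta (hw : 0 < w) (t : ℝ) : Integrable (fun v : ℝ => w / (1 + w * |v|) ^ 6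
    * ‖riemannZeta (1 / 2 + I * (t + v : ℝ))‖) := by
  have hz : Continuous (fun v : ℝ => riemannZeta (1 / 2 + I * (t + v : ℝ))) :=
    continuous_zeta.comp (continuous_const.add continuous_id)
  refine ((integrable_kern hw).const_mul (5 * (1 + |t|) ^ 2)).mono' ?_
    (Eventually.of_forall fun v => ?_)
  · refine Continuous.aestronglyMeasurable ?_
    refine Continuous.mul (Continuous.div (by fun_prop) (by fun_prop) fun v => ?_) hz.norm
    positivity
  · rw [Real.norm_of_nonneg (by positivity)]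
    have h1 := norm_zeta_le (t + v)
    have h2 : 1 + |t + v| ≤ (1 + |t|) * (1 + |v|) := by
      have h2 : |t + v| ≤ |t| + |v| := abs_add_le _ _
      nlinarith [abs_nonneg t, abs_nonneg v, mul_nonneg (abs_nonneg t) (abs_nonneg v)]
    calc w / (1 + w * |v|) ^ 6 * ‖riemannZeta (1 / 2 + I * (t + v : ℝ))‖
        ≤ w / (1 + w * |v|) ^ 6 * (5 * ((1 + |t|) * (1 + |v|)) ^ 2) := by
          refine mul_le_mul_of_nonneg_left (h1.trans ?_) (by positivity)
          gcongr
      _ = _ := by ring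

/-- bound for the last term -/
lemma norm_int_Kk_le (hδ : 0 < δ) (hw : 0 < w) (h1 : 1 ≤ δ * w) (t : ℝ) :
    ‖1 / (2 * Real.pi : ℂ) * ∫ v : ℝ, Kk δ x0 w v * riemannZeta (1 / 2 + I * (t + v : ℝ))‖
      ≤ 64 * cM 6 * Real.exp (-(δ * x0)) * ∫ v : ℝ, w / (1 + w * |v|) ^ 6
        * ‖riemannZeta (1 / 2 + I * (t + v : ℝ))‖ := by
  rw [norm_mul]
  have h5 : ‖(1 / (2 * Real.pi) : ℂ)‖ ≤ 1 := by
    have : (1 / (2 * Real.pi) : ℂ) = ((1 / (2 * Real.pi) : ℝ) : ℂ) := by push_cast; ring
    have hpi := Real.pi_gt_three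
    rw [this, Complex.norm_real, Real.norm_eq_abs, abs_of_pos (by positivity), div_le_one
      (by positivity)]
    linarith
  have h6 : ‖∫ v : ℝ, Kk δ x0 w v * riemannZeta (1 / 2 + I * (t + v : ℝ))‖
      ≤ ∫ v : ℝ, 64 * cM 6 * Real.exp (-(δ * x0)) * (w / (1 + w * |v|) ^ 6
        * ‖riemannZeta (1 / 2 + I * (t + v : ℝ))‖) := by
    refine norm_integral_le_of_norm_le ((integrable_kern_zeta hw t).const_mul _)
      (Eventually.of_forall fun v => ?_)
    rw [norm_mul, ← mul_assoc]
    exact mul_le_mul_of_nonneg_right (norm_Kk_le hδ hw h1 v) (norm_nonneg _)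
  rw [integral_const_mul] at h6
  calc _ ≤ 1 * _ := mul_le_mul h5 h6 (norm_nonneg _) zero_le_one
    _ = _ := one_mul _

lemma norm_pole_le (hw : 0 < w) (hδ : 0 < δ) (hδ1 : δ ≤ 1 / 4) {t : ℝ} (ht : 0 < t) :
    ‖PK x0 w (1 - ((1 / 2 + δ : ℝ) + I * t)) / (1 - ((1 / 2 + δ : ℝ) + I * t))‖
      ≤ c1 * Real.exp ((1 / 2 - δ) * (x0 + w)) / t := by
  set a : ℂ := 1 - ((1 / 2 + δ : ℝ) + I * t) with ha
  have hre : a.re = 1 / 2 - δ := by simp [ha]; ring
  have him : a.im = -t := by simp [ha]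
  have h1 := norm_PK_le (x0 := x0) hw (a := a) (by rw [hre]; linarith)
  rw [hre] at h1
  have h2 : t ≤ ‖a‖ := by
    have := Complex.abs_im_le_norm a
    rwa [him, abs_neg, abs_of_pos ht] at this
  have hc := c1_nonneg
  rw [norm_div]
  exact div_le_div₀ (by positivity) h1 ht h2

end

end Pool.Agent.H20.Smooth
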