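import Mathlib
import Pool.Agent.Lib.MP_f9aece_nt_h20.Bmp

/-!
The polar term of the square identity for windows.
-/

set_option autoImplicit false

namespace Pool.Agent.H20.Smooth

open MeasureTheory Complex Set Filter Topology FourierTransform
open scoped SchwartzMap ComplexConjugate ContDiff

/-- the polar term of the square identity -/
noncomputable def PO (κ : 𝓢(ℝ, ℂ)) (t : ℝ) : ℂ :=
  ∫ x : ℝ, (κ x * ((x + 2 * Real.eulerMascheroniConstant : ℝ) : ℂ)) *
    cexp ((1 / 2 - I * t) * x)

section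

variable {a α b β : ℝ}

lemma hasDerivAt_bm (_h : Pr a α b β) (x : ℝ) : HasDerivAt (bm a α b β)
    ((α⁻¹ : ℝ) • deriv sg ((x - a) / α) + (-β⁻¹ : ℝ) • deriv sg ((b - x) / β)) x := by
  have hd : ∀ y, HasDerivAt sg (deriv sg y) y := fun y =>
    ((sg_contDiff.differentiable (by simp)) y).hasDerivAt
  have h1 : HasDerivAt (fun x : ℝ => (x - a) / α) α⁻¹ x := by
    have := ((hasDerivAt_id x).sub_const a).div_const α
    simpa using this
  have h2 : HasDerivAt (fun x : ℝ => (b - x) / β) (-β⁻¹) x := by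
    have := ((hasDerivAt_id x).const_sub b).div_const β
    rw [neg_div, one_div] at this
    exact this
  have h3 := (hd ((x - a) / α)).scomp x h1
  have h4 := (hd ((b - x) / β)).scomp x h2
  exact (h3.add h4).sub_const 1

lemma norm_deriv_bm_le (h : Pr a α b β) (hα : 1 ≤ α) (hβ : 1 ≤ β) (x : ℝ) :
    ‖deriv (bm a α b β) x‖ ≤ 2 * c1 := by
  rw [(hasDerivAt_bm h x).deriv]
  refine (norm_add_le _ _).trans ?_
  rw [norm_smul, norm_smul]
  have h1 : ‖(α⁻¹ : ℝ)‖ ≤ 1 := by
    rw [Real.norm_of_nonneg (by positivity)]; exact inv_le_one_of_one_le₀ hα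
  have h2 : ‖(-β⁻¹ : ℝ)‖ ≤ 1 := by
    rw [norm_neg, Real.norm_of_nonneg (by positivity)]; exact inv_le_one_of_one_le₀ hβ
  have h3 := norm_deriv_sg_le ((x - a) / α)
  have h4 := norm_deriv_sg_le ((b - x) / β)
  have h5 := c1_nonneg
  calc ‖(α⁻¹ : ℝ)‖ * ‖deriv sg ((x - a) / α)‖ + ‖(-β⁻¹ : ℝ)‖ * ‖deriv sg ((b - x) / β)‖
      ≤ 1 * c1 + 1 * c1 := by gcongr
    _ = _ := by ring

/-- elementary exponential bound -/
lemma poly_exp_le {B x : ℝ} (hB : 0 ≤ B) (hx : x ≤ B) :
    (1 + |x|) * Real.exp (x / 2) ≤ 4 * (1 + B) * Real.exp (B / 4) * Real.exp (x / 4) := by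
  have h1 : 1 + |x| ≤ 4 * (1 + B) * Real.exp ((B - x) / 4) := by
    rcases le_total 0 x with h | h
    · rw [abs_of_nonneg h]
      have : 1 ≤ Real.exp ((B - x) / 4) := Real.one_le_exp (by linarith)
      nlinarith
    · rw [abs_of_nonpos h]
      have h2 : (B - x) / 4 + 1 ≤ Real.exp ((B - x) / 4) := Real.add_one_le_exp _
      have h3 : 0 < Real.exp ((B - x) / 4) := Real.exp_pos _
      nlinarith
  have h2 : Real.exp (x / 2) = Real.exp (x / 4) * Real.exp (x / 4) := by
    rw [← Real.exp_add]; congr 1; ring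
  have h3 : Real.exp ((B - x) / 4) * Real.exp (x / 4) = Real.exp (B / 4) := by
    rw [← Real.exp_add]; congr 1; ring
  calc (1 + |x|) * Real.exp (x / 2) ≤ (4 * (1 + B) * Real.exp ((B - x) / 4)) * Real.exp (x / 2) := by
        gcongr
    _ = 4 * (1 + B) * (Real.exp ((B - x) / 4) * Real.exp (x / 4)) * Real.exp (x / 4) := by
        rw [h2]; ring
    _ = _ := by rw [h3]

/-- **The polar term is small.** -/
theorem norm_PO_le (h : Pr a α b β) (hα : 1 ≤ α) (hβ : 1 ≤ β) {B : ℝ} (hB : 0 ≤ B) (hb : b ≤ B)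
    {t : ℝ} (ht : 0 < t) :
    ‖PO (BS h) t‖ ≤ 16 * (4 * c1 + 1) * (1 + B) * Real.exp (B / 2) / t := by
  set F : ℝ → ℂ := fun x => bm a α b β x * ((x + 2 * Real.eulerMascheroniConstant : ℝ) : ℂ)
    with hF
  have hg1 : 0 < Real.eulerMascheroniConstant := by
    have := Real.one_half_lt_eulerMascheroniConstant
    linarith
  have hg2 := Real.eulerMascheroniConstant_lt_two_thirds
  have hlin : ContDiff ℝ 1 (fun x : ℝ => ((x + 2 * Real.eulerMascheroniConstant : ℝ) : ℂ)) := by
    have h1 : ContDiff ℝ 1 (fun x : ℝ => x + 2 * Real.eulerMascheroniConstant) := by fun_prop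
    exact Complex.ofRealCLM.contDiff.comp h1
  have hFc : ContDiff ℝ ((1 : ℕ) : WithTop ℕ∞) F := by
    have h2 : ContDiff ℝ 1 (bm a α b β) := bm_contDiff.of_le (by exact_mod_cast le_top)
    exact_mod_cast h2.mul hlin
  have hFs : HasCompactSupport F := (bm_compact h).mul_right
  have h1 := norm_polar_le 1 hFc hFs ht
  rw [pow_one] at h1
  have h2 : PO (BS h) t = ∫ x : ℝ, F x * cexp ((1 / 2 - I * t) * x) := rfl
  rw [h2]
  refine h1.trans ?_
  gcongr
  have hc := c1_nonneg
  have hd : ∀ x, ‖deriv F x‖ ≤ (4 * c1 + 1) * (1 + |x|) := by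
    intro x
    have h3 : HasDerivAt F (deriv (bm a α b β) x * ((x + 2 * Real.eulerMascheroniConstant : ℝ) : ℂ)
        + bm a α b β x * 1) x := by
      have h4 := hasDerivAt_bm h x
      have h5 : HasDerivAt (fun x : ℝ => ((x + 2 * Real.eulerMascheroniConstant : ℝ) : ℂ)) 1 x := by
        have := ((hasDerivAt_id x).add_const (2 * Real.eulerMascheroniConstant)).ofReal_comp
        simpa using this
      rw [← h4.deriv] at h4
      exact h4.fun_mul h5
    rw [h3.deriv]
    refine (norm_add_le _ _).trans ?_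
    rw [norm_mul, norm_mul, norm_one, mul_one, Complex.norm_real, Real.norm_eq_abs]
    have h4 := norm_deriv_bm_le h hα hβ x
    have h5 := norm_bm_le h x
    have h6 : |x + 2 * Real.eulerMascheroniConstant| ≤ |x| + 2 := by
      refine (abs_add_le _ _).trans ?_
      rw [abs_of_pos (by positivity : 0 < 2 * Real.eulerMascheroniConstant)]
      linarith
    calc ‖deriv (bm a α b β) x‖ * |x + 2 * Real.eulerMascheroniConstant| + ‖bm a α b β x‖
        ≤ (2 * c1) * (|x| + 2) + 1 := by gcongr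
      _ ≤ _ := by nlinarith [abs_nonneg x]
  have hz : ∀ x, B < x → deriv F x = 0 := by
    intro x hx
    have : F =ᶠ[𝓝 x] fun _ => 0 := by
      filter_upwards [Ioi_mem_nhds hx] with y hy
      simp only [hF]
      rw [bm_zero_right h (by have := mem_Ioi.mp hy; linarith), zero_mul]
    rw [this.deriv_eq, deriv_const]
  have hi := integrableOn_exp_mul_Iic (a := (1 / 4 : ℝ)) (by norm_num) B
  have hi2 : IntegrableOn (fun x : ℝ => (4 * c1 + 1) * (4 * (1 + B) * Real.exp (B / 4))
      * Real.exp (1 / 4 * x)) (Iic B) := hi.const_mul _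
  have hi3 : Integrable ((Iic B).indicator (fun x : ℝ => (4 * c1 + 1) *
      (4 * (1 + B) * Real.exp (B / 4)) * Real.exp (1 / 4 * x))) :=
    (integrable_indicator_iff measurableSet_Iic).mpr hi2
  calc ∫ x : ℝ, ‖iteratedDeriv 1 F x‖ * Real.exp (x / 2)
      ≤ ∫ x : ℝ, (Iic B).indicator (fun x : ℝ => (4 * c1 + 1) *
        (4 * (1 + B) * Real.exp (B / 4)) * Real.exp (1 / 4 * x)) x := by
        refine integral_mono_of_nonneg (Eventually.of_forall fun x => by positivity) hi3
          (Eventually.of_forall fun x => ?_)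
        simp only
        rw [iteratedDeriv_one]
        by_cases hx : x ≤ B
        · rw [indicator_of_mem (mem_Iic.mpr hx)]
          have h7 := poly_exp_le hB hx
          calc ‖deriv F x‖ * Real.exp (x / 2)
              ≤ ((4 * c1 + 1) * (1 + |x|)) * Real.exp (x / 2) := by gcongr; exact hd x
            _ = (4 * c1 + 1) * ((1 + |x|) * Real.exp (x / 2)) := by ring
            _ ≤ (4 * c1 + 1) * (4 * (1 + B) * Real.exp (B / 4) * Real.exp (x / 4)) := by gcongr
            _ = _ := by
                rw [show x / 4 = 1 / 4 * x by ring]; ring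
        · rw [indicator_of_notMem (by simpa using hx), hz x (not_le.mp hx), norm_zero, zero_mul]
    _ = (4 * c1 + 1) * (4 * (1 + B) * Real.exp (B / 4)) * (Real.exp (1 / 4 * B) / (1 / 4)) := by
        rw [integral_indicator measurableSet_Iic, integral_const_mul,
          integral_exp_mul_Iic (by norm_num)]
    _ = 16 * (4 * c1 + 1) * (1 + B) * (Real.exp (B / 4) * Real.exp (1 / 4 * B)) := by ring
    _ = _ := by
        rw [← Real.exp_add]
        congr 2
        ring

end

end Pool.Agent.H20.Smooth
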