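import Mathlib
import Pool.Agent.Lib.MP_f9aece_nt_h20.Bmp

/-!
The zeta side of the square identity: linearity, reflection, approximate identity.
-/

set_option autoImplicit false

namespace Pool.Agent.H20.Smooth

open MeasureTheory Complex Set Filter Topology FourierTransform
open scoped SchwartzMap ComplexConjugate ContDiff
open Pool.Agent.H20.Chi (chi zeta_eq norm_chi chi_shift)

/-- the zeta side of the square identity -/
noncomputable def ZZ (κ : 𝓢(ℝ, ℂ)) (t : ℝ) : ℂ :=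
  1 / (2 * Real.pi) * ∫ v : ℝ, KF κ v * riemannZeta (1 / 2 + I * (t + v : ℝ)) ^ 2

lemma norm_zeta_sq_le (t v : ℝ) : ‖riemannZeta (1 / 2 + I * (t + v : ℝ))‖ ^ 2
    ≤ 400 * (1 + |t|) * (1 + |v|) := by
  have h := norm_zeta_le_sqrt (t + v)
  have h1 : 1 + |t + v| ≤ (1 + |t|) * (1 + |v|) := by
    have h2 : |t + v| ≤ |t| + |v| := abs_add_le _ _
    nlinarith [abs_nonneg t, abs_nonneg v, mul_nonneg (abs_nonneg t) (abs_nonneg v)]
  calc ‖riemannZeta (1 / 2 + I * (t + v : ℝ))‖ ^ 2 ≤ (20 * Real.sqrt (1 + |t + v|)) ^ 2 := by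
        gcongr
    _ = 400 * (1 + |t + v|) := by
        rw [mul_pow, Real.sq_sqrt (by positivity)]; norm_num
    _ ≤ 400 * ((1 + |t|) * (1 + |v|)) := by gcongr
    _ = _ := by ring

lemma integrable_ZZ (κ : 𝓢(ℝ, ℂ)) (t : ℝ) :
    Integrable (fun v : ℝ => KF κ v * riemannZeta (1 / 2 + I * (t + v : ℝ)) ^ 2) := by
  have h3 := ((integrable_pow_KF κ 0).add (integrable_pow_KF κ 1)).const_mul (400 * (1 + |t|))
  refine h3.mono' ((continuous_KF κ).mul
    ((continuous_zeta_shift t).pow 2)).aestronglyMeasurable (Eventually.of_forall fun v => ?_)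
  rw [norm_mul, norm_pow]
  simp only [Pi.add_apply]
  calc ‖KF κ v‖ * ‖riemannZeta (1 / 2 + I * (t + v : ℝ))‖ ^ 2
      ≤ ‖KF κ v‖ * (400 * (1 + |t|) * (1 + |v|)) := by gcongr; exact norm_zeta_sq_le t v
    _ = _ := by ring

lemma KF_add {κ κ₁ κ₂ : 𝓢(ℝ, ℂ)} (h : ∀ x, κ x = κ₁ x + κ₂ x) (v : ℝ) :
    KF κ v = KF κ₁ v + KF κ₂ v := by
  unfold KF
  have hi : ∀ f : 𝓢(ℝ, ℂ), Integrable (fun x : ℝ => f x * cexp (I * v * x)) := by
    intro f
    refine (integrable_norm_iff ?_).mp (f.integrable.norm.congr (Eventually.of_forall fun x => ?_))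
    · have h1 := f.continuous
      exact Continuous.aestronglyMeasurable (by fun_prop)
    · simp only
      rw [norm_mul, Complex.norm_exp]
      simp
  rw [← integral_add (hi κ₁) (hi κ₂)]
  refine integral_congr_ae (Eventually.of_forall fun x => ?_)
  simp only
  rw [h]
  ring

lemma ZZ_add {κ κ₁ κ₂ : 𝓢(ℝ, ℂ)} (h : ∀ x, κ x = κ₁ x + κ₂ x) (t : ℝ) :
    ZZ κ t = ZZ κ₁ t + ZZ κ₂ t := by
  unfold ZZ
  rw [← mul_add, ← integral_add (integrable_ZZ κ₁ t) (integrable_ZZ κ₂ t)]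
  congr 1
  refine integral_congr_ae (Eventually.of_forall fun v => ?_)
  simp only
  rw [KF_add h]
  ring

/-- **Reflection.** -/
theorem reflect2 {κ κ' : 𝓢(ℝ, ℂ)} {t : ℝ} (ht : 1 ≤ t)
    (h : ∀ y, κ' y = conj (κ (2 * Real.log (t / (2 * Real.pi)) - y))) :
    ‖ZZ κ t - chi t ^ 2 * conj (ZZ κ' t)‖ ≤ 2200 * M3 κ := by
  set ℓ := Real.log (t / (2 * Real.pi)) with hℓ
  have ht0 : 0 < t := by linarith
  have hpi := Real.pi_pos
  have hcK := continuous_KF κ
  have hcz := continuous_zeta_shift t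
  have e1 : ZZ κ t - chi t ^ 2 * conj (ZZ κ' t)
      = 1 / (2 * Real.pi) * ∫ v : ℝ, KF κ v * (chi (t + v) ^ 2 -
          (chi t * cexp (-(I * v * ℓ))) ^ 2) *
          conj (riemannZeta (1 / 2 + I * (t + v : ℝ))) ^ 2 := by
    unfold ZZ
    have e2 : conj (1 / (2 * Real.pi) : ℂ) = 1 / (2 * Real.pi) := by
      simp only [map_div₀, map_one, map_mul, map_ofNat, Complex.conj_ofReal]
    have e3 : ∀ v : ℝ, conj (KF κ' v * riemannZeta (1 / 2 + I * (t + v : ℝ)) ^ 2)
        = KF κ v * cexp (-(I * v * ℓ)) ^ 2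
          * conj (riemannZeta (1 / 2 + I * (t + v : ℝ))) ^ 2 := by
      intro v
      rw [map_mul, KF_reflect h v, map_pow]
      have : cexp (-(I * v * ((2 * ℓ : ℝ) : ℂ))) = cexp (-(I * v * ℓ)) ^ 2 := by
        rw [← Complex.exp_nat_mul]
        congr 1
        push_cast
        ring
      rw [this]
    have e4 : ∀ v : ℝ, KF κ v * riemannZeta (1 / 2 + I * (t + v : ℝ)) ^ 2
        = KF κ v * (chi (t + v) ^ 2 * conj (riemannZeta (1 / 2 + I * (t + v : ℝ))) ^ 2) := by
      intro v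
      rw [← mul_pow, ← zeta_eq]
    have hIa : Integrable (fun v : ℝ => KF κ v * (chi (t + v) ^ 2 *
        conj (riemannZeta (1 / 2 + I * (t + v : ℝ))) ^ 2)) := by
      refine (integrable_ZZ κ t).congr (Eventually.of_forall fun v => ?_)
      simp only
      rw [← e4]
    have hIb : Integrable (fun v : ℝ => KF κ v * cexp (-(I * v * ℓ)) ^ 2 *
        conj (riemannZeta (1 / 2 + I * (t + v : ℝ))) ^ 2) := by
      have := (integrable_ZZ κ' t).norm
      refine ((integrable_norm_iff ?_).mp (this.congr (Eventually.of_forall fun v => ?_)))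
      · have : Continuous (fun v : ℝ => cexp (-(I * v * ℓ)) ^ 2) := by fun_prop
        exact ((hcK.mul this).mul ((Complex.continuous_conj.comp hcz).pow 2)).aestronglyMeasurable
      · simp only
        rw [← e3, Complex.norm_conj]
    have e6 : conj (∫ v : ℝ, KF κ' v * riemannZeta (1 / 2 + I * (t + v : ℝ)) ^ 2)
        = ∫ v : ℝ, KF κ v * cexp (-(I * v * ℓ)) ^ 2 *
          conj (riemannZeta (1 / 2 + I * (t + v : ℝ))) ^ 2 := by
      rw [← integral_conj]
      exact integral_congr_ae (Eventually.of_forall e3)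
    have e7 : ∫ v : ℝ, KF κ v * riemannZeta (1 / 2 + I * (t + v : ℝ)) ^ 2
        = ∫ v : ℝ, KF κ v * (chi (t + v) ^ 2 *
          conj (riemannZeta (1 / 2 + I * (t + v : ℝ))) ^ 2) :=
      integral_congr_ae (Eventually.of_forall e4)
    rw [map_mul, e2, e6, e7]
    have e5 : ∫ v : ℝ, KF κ v * (chi (t + v) ^ 2 - (chi t * cexp (-(I * v * ℓ))) ^ 2) *
          conj (riemannZeta (1 / 2 + I * (t + v : ℝ))) ^ 2
        = (∫ v : ℝ, KF κ v * (chi (t + v) ^ 2 *
            conj (riemannZeta (1 / 2 + I * (t + v : ℝ))) ^ 2))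
          - chi t ^ 2 * ∫ v : ℝ, KF κ v * cexp (-(I * v * ℓ)) ^ 2 *
            conj (riemannZeta (1 / 2 + I * (t + v : ℝ))) ^ 2 := by
      rw [← integral_const_mul, ← integral_sub hIa (hIb.const_mul _)]
      refine integral_congr_ae (Eventually.of_forall fun v => ?_)
      ring
    rw [e5]
    ring
  rw [e1]
  have hb : ∀ v : ℝ, ‖KF κ v * (chi (t + v) ^ 2 - (chi t * cexp (-(I * v * ℓ))) ^ 2) *
      conj (riemannZeta (1 / 2 + I * (t + v : ℝ))) ^ 2‖
      ≤ 12800 * ((|v| + 2 * |v| ^ 2 + |v| ^ 3) * ‖KF κ v‖) := by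
    intro v
    have h3 := chi_shift ht v
    rw [← hℓ] at h3
    have hs2 : v ^ 2 = |v| ^ 2 := (sq_abs v).symm
    rw [hs2] at h3
    have hne : ‖cexp (-(I * v * ℓ))‖ = 1 := by
      rw [Complex.norm_exp]; simp
    have h4 : ‖chi (t + v) ^ 2 - (chi t * cexp (-(I * v * ℓ))) ^ 2‖
        ≤ 2 * (8 * (|v| + |v| ^ 2) / t) := by
      have e : chi (t + v) ^ 2 - (chi t * cexp (-(I * v * ℓ))) ^ 2
          = (chi (t + v) + chi t * cexp (-(I * v * ℓ)))
            * (chi (t + v) - chi t * cexp (-(I * v * ℓ))) := by ring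
      rw [e, norm_mul]
      have h5 : ‖chi (t + v) + chi t * cexp (-(I * v * ℓ))‖ ≤ 2 := by
        refine (norm_add_le _ _).trans ?_
        rw [norm_mul, norm_chi, norm_chi, hne]
        norm_num
      gcongr
    have h6 : ‖riemannZeta (1 / 2 + I * (t + v : ℝ))‖ ^ 2 ≤ 800 * t * (1 + |v|) := by
      refine (norm_zeta_sq_le t v).trans ?_
      rw [abs_of_pos ht0]
      have := abs_nonneg v
      nlinarith
    rw [norm_mul, norm_mul, norm_pow, Complex.norm_conj]
    calc ‖KF κ v‖ * ‖chi (t + v) ^ 2 - (chi t * cexp (-(I * v * ℓ))) ^ 2‖ *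
          ‖riemannZeta (1 / 2 + I * (t + v : ℝ))‖ ^ 2
        ≤ ‖KF κ v‖ * (2 * (8 * (|v| + |v| ^ 2) / t)) * (800 * t * (1 + |v|)) := by
          gcongr
      _ = _ := by
          field_simp
          ring
  have h4 : ‖∫ v : ℝ, KF κ v * (chi (t + v) ^ 2 - (chi t * cexp (-(I * v * ℓ))) ^ 2) *
      conj (riemannZeta (1 / 2 + I * (t + v : ℝ))) ^ 2‖ ≤ 12800 * M3 κ := by
    refine (norm_integral_le_of_norm_le ((integrable_M3 κ).const_mul _)
      (Eventually.of_forall hb)).trans (le_of_eq ?_)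
    rw [integral_const_mul]
    rfl
  rw [norm_mul]
  have h5 : ‖(1 / (2 * Real.pi) : ℂ)‖ = 1 / (2 * Real.pi) := by
    have : (1 / (2 * Real.pi) : ℂ) = ((1 / (2 * Real.pi) : ℝ) : ℂ) := by push_cast; ring
    rw [this, Complex.norm_real, Real.norm_eq_abs, abs_of_pos (by positivity)]
  rw [h5]
  have hM : 0 ≤ M3 κ := integral_nonneg fun v => by positivity
  have h6 : 1 / (2 * Real.pi) * 12800 ≤ 2200 := by
    have := Real.pi_gt_three
    rw [one_div, inv_mul_le_iff₀ (by positivity)]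
    linarith
  calc _ ≤ 1 / (2 * Real.pi) * (12800 * M3 κ) := by gcongr
    _ = (1 / (2 * Real.pi) * 12800) * M3 κ := by ring
    _ ≤ _ := by gcongr

/-! ### approximate identity -/

lemma pr_eta : Pr (-2) 1 2 1 := ⟨by norm_num, by norm_num, by norm_num⟩

lemma pr_GA {A : ℝ} (hA : 1 ≤ A) : Pr (-(2 * A)) A (2 * A) A :=
  ⟨by linarith, by linarith, by linarith⟩

lemma bm_scale {A : ℝ} (hA : 1 ≤ A) (x : ℝ) :
    bm (-(2 * A)) A (2 * A) A x = bm (-2) 1 2 1 (x / A) := by
  unfold bm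
  have hA0 : A ≠ 0 := by positivity
  have h1 : (x - -(2 * A)) / A = (x / A - -2) / 1 := by field_simp
  have h2 : (2 * A - x) / A = (2 - x / A) / 1 := by field_simp
  rw [h1, h2]

lemma KF_GA {A : ℝ} (hA : 1 ≤ A) (v : ℝ) :
    KF (BS (pr_GA hA)) v = A * KF (BS pr_eta) (A * v) := by
  have hA0 : 0 < A := by linarith
  unfold KF
  have h := Measure.integral_comp_div (fun x : ℝ => bm (-2) 1 2 1 x * cexp (I * (A * v : ℝ) * x)) A
  rw [abs_of_pos hA0] at h
  have h2 : (A : ℂ) * ∫ x : ℝ, BS pr_eta x * cexp (I * (A * v : ℝ) * x)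
      = A • ∫ x : ℝ, bm (-2) 1 2 1 x * cexp (I * (A * v : ℝ) * x) := by
    rw [Complex.real_smul]; rfl
  rw [h2, ← h]
  refine integral_congr_ae (Eventually.of_forall fun x => ?_)
  simp only
  rw [BS_apply, bm_scale hA]
  congr 2
  have : (A : ℂ) ≠ 0 := by exact_mod_cast hA0.ne'
  push_cast
  field_simp

lemma ZZ_GA {A : ℝ} (hA : 1 ≤ A) (t : ℝ) :
    ZZ (BS (pr_GA hA)) t = 1 / (2 * Real.pi) * ∫ w : ℝ, KF (BS pr_eta) w *
      riemannZeta (1 / 2 + I * (t + w / A : ℝ)) ^ 2 := by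
  have hA0 : 0 < A := by linarith
  unfold ZZ
  congr 1
  have h := Measure.integral_comp_mul_left (fun w : ℝ => KF (BS pr_eta) w *
      riemannZeta (1 / 2 + I * (t + w / A : ℝ)) ^ 2) A
  have h2 : A • ∫ x : ℝ, KF (BS pr_eta) (A * x) *
      riemannZeta (1 / 2 + I * (t + (A * x) / A : ℝ)) ^ 2
      = ∫ w : ℝ, KF (BS pr_eta) w * riemannZeta (1 / 2 + I * (t + w / A : ℝ)) ^ 2 := by
    rw [h, abs_of_pos (by positivity), smul_smul, mul_inv_cancel₀ hA0.ne', one_smul]
  rw [← h2, ← integral_smul]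
  refine integral_congr_ae (Eventually.of_forall fun x => ?_)
  simp only
  rw [KF_GA hA, Complex.real_smul, mul_div_cancel_left₀ _ hA0.ne']
  ring

/-- the transforms of wide windows tend to the square of zeta -/
theorem tendsto_ZZ (t : ℝ) :
    Tendsto (fun n : ℕ => 1 / (2 * Real.pi) * ∫ w : ℝ, KF (BS pr_eta) w *
      riemannZeta (1 / 2 + I * (t + w / ((n : ℝ) + 1) : ℝ)) ^ 2) atTop
      (𝓝 (riemannZeta (1 / 2 + I * t) ^ 2)) := by
  have hinv := inversion (BS pr_eta) 0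
  have h0 : BS pr_eta 0 = 1 := by
    rw [BS_apply]
    unfold bm
    rw [sg_one (by norm_num), sg_one (by norm_num)]
    ring
  rw [h0] at hinv
  simp only [Complex.ofReal_zero, mul_zero, neg_zero, Complex.exp_zero, mul_one] at hinv
  have e : riemannZeta (1 / 2 + I * t) ^ 2
      = 1 / (2 * Real.pi) * ∫ w : ℝ, KF (BS pr_eta) w * riemannZeta (1 / 2 + I * t) ^ 2 := by
    rw [integral_mul_const, ← mul_assoc, ← hinv, one_mul]
  rw [e]
  refine Tendsto.const_mul _ ?_
  have h3 := ((integrable_pow_KF (BS pr_eta) 0).add (integrable_pow_KF (BS pr_eta) 1)).const_mul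
    (400 * (1 + |t|))
  refine tendsto_integral_of_dominated_convergence _ ?_ h3 ?_ ?_
  · intro n
    have hc : Continuous (fun w : ℝ => riemannZeta (1 / 2 + I * (t + w / ((n : ℝ) + 1) : ℝ))) :=
      continuous_zeta.comp (f := fun w : ℝ => t + w / ((n : ℝ) + 1)) (by fun_prop)
    exact ((continuous_KF _).mul (hc.pow 2)).aestronglyMeasurable
  · intro n
    refine Eventually.of_forall fun v => ?_
    rw [norm_mul, norm_pow]
    simp only [Pi.add_apply]
    have h4 : |v / ((n : ℝ) + 1)| ≤ |v| := by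
      rw [abs_div]
      refine div_le_self (abs_nonneg _) ?_
      rw [abs_of_pos (by positivity)]
      have : (0 : ℝ) ≤ n := Nat.cast_nonneg n
      linarith
    calc ‖KF (BS pr_eta) v‖ * ‖riemannZeta (1 / 2 + I * (t + v / ((n : ℝ) + 1) : ℝ))‖ ^ 2
        ≤ ‖KF (BS pr_eta) v‖ * (400 * (1 + |t|) * (1 + |v / ((n : ℝ) + 1)|)) := by
          gcongr; exact norm_zeta_sq_le t _
      _ ≤ ‖KF (BS pr_eta) v‖ * (400 * (1 + |t|) * (1 + |v|)) := by gcongr
      _ = _ := by ring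
  · refine Eventually.of_forall fun v => ?_
    refine Tendsto.const_mul _ ?_
    refine Tendsto.pow ?_ 2
    refine (continuous_zeta.tendsto t).comp ?_
    have h5 : Tendsto (fun n : ℕ => v / ((n : ℝ) + 1)) atTop (𝓝 0) :=
      tendsto_const_nhds.div_atTop
        (tendsto_atTop_add_const_right _ _ tendsto_natCast_atTop_atTop)
    have := h5.const_add t
    rwa [add_zero] at this

end Pool.Agent.H20.Smooth
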