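import Mathlib
import Pool.Agent.Lib.MP_f9aece_nt_h20.Refl2

/-!
The zeta side of the smooth sums: linearity, reflection, approximate identity (first power).
-/

set_option autoImplicit false

namespace Pool.Agent.H20.Smooth

open MeasureTheory Complex Set Filter Topology FourierTransform
open scoped SchwartzMap ComplexConjugate ContDiff
open Pool.Agent.H20.Chi (chi zeta_eq norm_chi chi_shift)

/-- the zeta side of the identity for smooth sums -/
noncomputable def Z1 (κ : 𝓢(ℝ, ℂ)) (t : ℝ) : ℂ :=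
  1 / (2 * Real.pi) * ∫ v : ℝ, KF κ v * riemannZeta (1 / 2 + I * (t + v : ℝ))

lemma norm_zeta_shift_le_sqrt (t v : ℝ) : ‖riemannZeta (1 / 2 + I * (t + v : ℝ))‖
    ≤ 20 * Real.sqrt (1 + |t|) * (1 + |v|) := by
  refine (norm_zeta_le_sqrt (t + v)).trans ?_
  have h1 : 1 + |t + v| ≤ (1 + |t|) * (1 + |v|) := by
    have h2 : |t + v| ≤ |t| + |v| := abs_add_le _ _
    nlinarith [abs_nonneg t, abs_nonneg v, mul_nonneg (abs_nonneg t) (abs_nonneg v)]
  have h5 : Real.sqrt (1 + |t + v|) ≤ Real.sqrt (1 + |t|) * (1 + |v|) := by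
    refine (Real.sqrt_le_sqrt h1).trans ?_
    rw [Real.sqrt_mul (by positivity)]
    have h6 : Real.sqrt (1 + |v|) ≤ 1 + |v| := by
      rw [Real.sqrt_le_left (by positivity)]
      nlinarith [abs_nonneg v]
    gcongr
  calc 20 * Real.sqrt (1 + |t + v|) ≤ 20 * (Real.sqrt (1 + |t|) * (1 + |v|)) := by gcongr
    _ = _ := by ring

lemma integrable_Z1 (κ : 𝓢(ℝ, ℂ)) (t : ℝ) :
    Integrable (fun v : ℝ => KF κ v * riemannZeta (1 / 2 + I * (t + v : ℝ))) := by
  have h3 := ((integrable_pow_KF κ 0).add (integrable_pow_KF κ 1)).const_mul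
    (20 * Real.sqrt (1 + |t|))
  refine h3.mono' ((continuous_KF κ).mul
    (continuous_zeta_shift t)).aestronglyMeasurable (Eventually.of_forall fun v => ?_)
  rw [norm_mul]
  simp only [Pi.add_apply]
  calc ‖KF κ v‖ * ‖riemannZeta (1 / 2 + I * (t + v : ℝ))‖
      ≤ ‖KF κ v‖ * (20 * Real.sqrt (1 + |t|) * (1 + |v|)) := by
        gcongr; exact norm_zeta_shift_le_sqrt t v
    _ = _ := by ring

lemma Z1_add {κ κ₁ κ₂ : 𝓢(ℝ, ℂ)} (h : ∀ x, κ x = κ₁ x + κ₂ x) (t : ℝ) :
    Z1 κ t = Z1 κ₁ t + Z1 κ₂ t := by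
  unfold Z1
  rw [← mul_add, ← integral_add (integrable_Z1 κ₁ t) (integrable_Z1 κ₂ t)]
  congr 1
  refine integral_congr_ae (Eventually.of_forall fun v => ?_)
  simp only
  rw [KF_add h]
  ring

/-- **Reflection.** -/
theorem reflect1 {κ κ' : 𝓢(ℝ, ℂ)} {t : ℝ} (ht : 1 ≤ t)
    (h : ∀ y, κ' y = conj (κ (Real.log (t / (2 * Real.pi)) - y))) :
    ‖Z1 κ t - chi t * conj (Z1 κ' t)‖ ≤ 60 / Real.sqrt t * M3 κ := by
  set ℓ := Real.log (t / (2 * Real.pi)) with hℓ
  have ht0 : 0 < t := by linarith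
  have hpi := Real.pi_pos
  have hcK := continuous_KF κ
  have hcz := continuous_zeta_shift t
  have e1 : Z1 κ t - chi t * conj (Z1 κ' t)
      = 1 / (2 * Real.pi) * ∫ v : ℝ, KF κ v * (chi (t + v) -
          chi t * cexp (-(I * v * ℓ))) *
          conj (riemannZeta (1 / 2 + I * (t + v : ℝ))) := by
    unfold Z1
    have e2 : conj (1 / (2 * Real.pi) : ℂ) = 1 / (2 * Real.pi) := by
      simp only [map_div₀, map_one, map_mul, map_ofNat, Complex.conj_ofReal]
    have e3 : ∀ v : ℝ, conj (KF κ' v * riemannZeta (1 / 2 + I * (t + v : ℝ)))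
        = KF κ v * cexp (-(I * v * ℓ))
          * conj (riemannZeta (1 / 2 + I * (t + v : ℝ))) := by
      intro v
      rw [map_mul, KF_reflect h v]
    have e4 : ∀ v : ℝ, KF κ v * riemannZeta (1 / 2 + I * (t + v : ℝ))
        = KF κ v * (chi (t + v) * conj (riemannZeta (1 / 2 + I * (t + v : ℝ)))) := by
      intro v
      rw [← zeta_eq]
    have hIa : Integrable (fun v : ℝ => KF κ v * (chi (t + v) *
        conj (riemannZeta (1 / 2 + I * (t + v : ℝ))))) := by
      refine (integrable_Z1 κ t).congr (Eventually.of_forall fun v => ?_)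
      simp only
      rw [← e4]
    have hIb : Integrable (fun v : ℝ => KF κ v * cexp (-(I * v * ℓ)) *
        conj (riemannZeta (1 / 2 + I * (t + v : ℝ)))) := by
      have := (integrable_Z1 κ' t).norm
      refine ((integrable_norm_iff ?_).mp (this.congr (Eventually.of_forall fun v => ?_)))
      · have : Continuous (fun v : ℝ => cexp (-(I * v * ℓ))) := by fun_prop
        exact ((hcK.mul this).mul (Complex.continuous_conj.comp hcz)).aestronglyMeasurable
      · simp only
        rw [← e3, Complex.norm_conj]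
    have e6 : conj (∫ v : ℝ, KF κ' v * riemannZeta (1 / 2 + I * (t + v : ℝ)))
        = ∫ v : ℝ, KF κ v * cexp (-(I * v * ℓ)) *
          conj (riemannZeta (1 / 2 + I * (t + v : ℝ))) := by
      rw [← integral_conj]
      exact integral_congr_ae (Eventually.of_forall e3)
    have e7 : ∫ v : ℝ, KF κ v * riemannZeta (1 / 2 + I * (t + v : ℝ))
        = ∫ v : ℝ, KF κ v * (chi (t + v) *
          conj (riemannZeta (1 / 2 + I * (t + v : ℝ)))) :=
      integral_congr_ae (Eventually.of_forall e4)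
    rw [map_mul, e2, e6, e7]
    have e5 : ∫ v : ℝ, KF κ v * (chi (t + v) - chi t * cexp (-(I * v * ℓ))) *
          conj (riemannZeta (1 / 2 + I * (t + v : ℝ)))
        = (∫ v : ℝ, KF κ v * (chi (t + v) *
            conj (riemannZeta (1 / 2 + I * (t + v : ℝ)))))
          - chi t * ∫ v : ℝ, KF κ v * cexp (-(I * v * ℓ)) *
            conj (riemannZeta (1 / 2 + I * (t + v : ℝ))) := by
      rw [← integral_const_mul, ← integral_sub hIa (hIb.const_mul _)]
      refine integral_congr_ae (Eventually.of_forall fun v => ?_)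
      ring
    rw [e5]
    ring
  rw [e1]
  have hs1 : Real.sqrt (1 + |t|) ≤ Real.sqrt 2 * Real.sqrt t := by
    rw [← Real.sqrt_mul (by norm_num), abs_of_pos ht0]
    exact Real.sqrt_le_sqrt (by linarith)
  have hs2' : Real.sqrt 2 ≤ 1.5 := by
    rw [Real.sqrt_le_left (by norm_num)]; norm_num
  have hst : 0 < Real.sqrt t := Real.sqrt_pos.mpr ht0
  have hb : ∀ v : ℝ, ‖KF κ v * (chi (t + v) - chi t * cexp (-(I * v * ℓ))) *
      conj (riemannZeta (1 / 2 + I * (t + v : ℝ)))‖
      ≤ (240 / Real.sqrt t) * ((|v| + 2 * |v| ^ 2 + |v| ^ 3) * ‖KF κ v‖) := by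
    intro v
    have h3 := chi_shift ht v
    rw [← hℓ] at h3
    have hs2 : v ^ 2 = |v| ^ 2 := (sq_abs v).symm
    rw [hs2] at h3
    have h6 : ‖riemannZeta (1 / 2 + I * (t + v : ℝ))‖ ≤ 30 * Real.sqrt t * (1 + |v|) := by
      refine (norm_zeta_shift_le_sqrt t v).trans ?_
      have : 20 * Real.sqrt (1 + |t|) ≤ 30 * Real.sqrt t := by nlinarith
      gcongr
    rw [norm_mul, norm_mul, Complex.norm_conj]
    have h8 : t = Real.sqrt t * Real.sqrt t := (Real.mul_self_sqrt ht0.le).symm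
    calc ‖KF κ v‖ * ‖chi (t + v) - chi t * cexp (-(I * v * ℓ))‖ *
          ‖riemannZeta (1 / 2 + I * (t + v : ℝ))‖
        ≤ ‖KF κ v‖ * (8 * (|v| + |v| ^ 2) / t) * (30 * Real.sqrt t * (1 + |v|)) := by
          gcongr
      _ = ‖KF κ v‖ * (8 * (|v| + |v| ^ 2) / (Real.sqrt t * Real.sqrt t))
          * (30 * Real.sqrt t * (1 + |v|)) := by rw [← h8]
      _ = _ := by
          field_simp
          ring
  have h4 : ‖∫ v : ℝ, KF κ v * (chi (t + v) - chi t * cexp (-(I * v * ℓ))) *
      conj (riemannZeta (1 / 2 + I * (t + v : ℝ)))‖ ≤ (240 / Real.sqrt t) * M3 κ := by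
    refine (norm_integral_le_of_norm_le ((integrable_M3 κ).const_mul _)
      (Eventually.of_forall hb)).trans (le_of_eq ?_)
    rw [integral_const_mul]
    rfl
  rw [norm_mul]
  have h5 : ‖(1 / (2 * Real.pi) : ℂ)‖ = 1 / (2 * Real.pi) := by
    have : (1 / (2 * Real.pi) : ℂ) = ((1 / (2 * Real.pi) : ℝ) : ℂ) := by push_cast; ring
    rw [this, Complex.norm_real, Real.norm_eq_abs, abs_of_pos (by positivity)]
  rw [h5]
  have hM : 0 ≤ M3 κ := integral_nonneg fun v => by positivity
  have h6 : 1 / (2 * Real.pi) * 240 ≤ 60 := by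
    have := Real.pi_gt_three
    rw [one_div, inv_mul_le_iff₀ (by positivity)]
    linarith
  calc _ ≤ 1 / (2 * Real.pi) * ((240 / Real.sqrt t) * M3 κ) := by gcongr
    _ = (1 / (2 * Real.pi) * 240) / Real.sqrt t * M3 κ := by ring
    _ ≤ _ := by gcongr

lemma Z1_GA {A : ℝ} (hA : 1 ≤ A) (t : ℝ) :
    Z1 (BS (pr_GA hA)) t = 1 / (2 * Real.pi) * ∫ w : ℝ, KF (BS pr_eta) w *
      riemannZeta (1 / 2 + I * (t + w / A : ℝ)) := by
  have hA0 : 0 < A := by linarith
  unfold Z1
  congr 1
  have h := Measure.integral_comp_mul_left (fun w : ℝ => KF (BS pr_eta) w *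
      riemannZeta (1 / 2 + I * (t + w / A : ℝ))) A
  have h2 : A • ∫ x : ℝ, KF (BS pr_eta) (A * x) *
      riemannZeta (1 / 2 + I * (t + (A * x) / A : ℝ))
      = ∫ w : ℝ, KF (BS pr_eta) w * riemannZeta (1 / 2 + I * (t + w / A : ℝ)) := by
    rw [h, abs_of_pos (by positivity), smul_smul, mul_inv_cancel₀ hA0.ne', one_smul]
  rw [← h2, ← integral_smul]
  refine integral_congr_ae (Eventually.of_forall fun x => ?_)
  simp only
  rw [KF_GA hA, Complex.real_smul, mul_div_cancel_left₀ _ hA0.ne']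
  ring

/-- the transforms of wide windows tend to zeta -/
theorem tendsto_Z1 (t : ℝ) :
    Tendsto (fun n : ℕ => 1 / (2 * Real.pi) * ∫ w : ℝ, KF (BS pr_eta) w *
      riemannZeta (1 / 2 + I * (t + w / ((n : ℝ) + 1) : ℝ))) atTop
      (𝓝 (riemannZeta (1 / 2 + I * t))) := by
  have hinv := inversion (BS pr_eta) 0
  have h0 : BS pr_eta 0 = 1 := by
    rw [BS_apply]
    unfold bm
    rw [sg_one (by norm_num), sg_one (by norm_num)]
    ring
  rw [h0] at hinv
  simp only [Complex.ofReal_zero, mul_zero, neg_zero, Complex.exp_zero, mul_one] at hinv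
  have e : riemannZeta (1 / 2 + I * t)
      = 1 / (2 * Real.pi) * ∫ w : ℝ, KF (BS pr_eta) w * riemannZeta (1 / 2 + I * t) := by
    rw [integral_mul_const, ← mul_assoc, ← hinv, one_mul]
  rw [e]
  refine Tendsto.const_mul _ ?_
  have h3 := ((integrable_pow_KF (BS pr_eta) 0).add (integrable_pow_KF (BS pr_eta) 1)).const_mul
    (20 * Real.sqrt (1 + |t|))
  refine tendsto_integral_of_dominated_convergence _ ?_ h3 ?_ ?_
  · intro n
    have hc : Continuous (fun w : ℝ => riemannZeta (1 / 2 + I * (t + w / ((n : ℝ) + 1) : ℝ))) :=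
      continuous_zeta.comp (f := fun w : ℝ => t + w / ((n : ℝ) + 1)) (by fun_prop)
    exact ((continuous_KF _).mul hc).aestronglyMeasurable
  · intro n
    refine Eventually.of_forall fun v => ?_
    rw [norm_mul]
    simp only [Pi.add_apply]
    have h4 : |v / ((n : ℝ) + 1)| ≤ |v| := by
      rw [abs_div]
      refine div_le_self (abs_nonneg _) ?_
      rw [abs_of_pos (by positivity)]
      have : (0 : ℝ) ≤ n := Nat.cast_nonneg n
      linarith
    calc ‖KF (BS pr_eta) v‖ * ‖riemannZeta (1 / 2 + I * (t + v / ((n : ℝ) + 1) : ℝ))‖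
        ≤ ‖KF (BS pr_eta) v‖ * (20 * Real.sqrt (1 + |t|) * (1 + |v / ((n : ℝ) + 1)|)) := by
          gcongr; exact norm_zeta_shift_le_sqrt t _
      _ ≤ ‖KF (BS pr_eta) v‖ * (20 * Real.sqrt (1 + |t|) * (1 + |v|)) := by gcongr
      _ = _ := by ring
  · refine Eventually.of_forall fun v => ?_
    refine Tendsto.const_mul _ ?_
    refine (continuous_zeta.tendsto t).comp ?_
    have h5 : Tendsto (fun n : ℕ => v / ((n : ℝ) + 1)) atTop (𝓝 0) :=
      tendsto_const_nhds.div_atTop
        (tendsto_atTop_add_const_right _ _ tendsto_natCast_atTop_atTop)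
    have := h5.const_add t
    rwa [add_zero] at this

end Pool.Agent.H20.Smooth
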