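import Mathlib
import Pool.Agent.Lib.MP_f9aece_nt_h20.Refl1
import Pool.Agent.Lib.MP_f9aece_nt_h20.Polar
import Pool.Agent.Lib.MP_f9aece_nt_h20.AbelZ

/-!
The approximate functional equation of zeta on the critical line, as a pointwise bound by an
average of sharply cut Dirichlet polynomials.
-/

set_option autoImplicit false

namespace Pool.Agent.H20.Smooth

open MeasureTheory Complex Set Filter Topology FourierTransform
open scoped SchwartzMap ComplexConjugate ContDiff
open Pool.Agent.H20.Chi (chi zeta_eq norm_chi chi_shift)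

section

variable {a α b β : ℝ}

/-- the polar term of a window -/
theorem norm_polar_bm_le (h : Pr a α b β) (hα : 1 ≤ α) (hβ : 1 ≤ β) {B : ℝ} (hb : b ≤ B)
    {t : ℝ} (ht : 0 < t) :
    ‖∫ x : ℝ, BS h x * cexp ((1 / 2 - I * t) * x)‖ ≤ 4 * c1 * Real.exp (B / 2) / t := by
  have hFc : ContDiff ℝ ((1 : ℕ) : WithTop ℕ∞) (bm a α b β) :=
    bm_contDiff.of_le (by exact_mod_cast le_top)
  have h1 := norm_polar_le 1 hFc (bm_compact h) ht
  rw [pow_one] at h1
  have h2 : ∫ x : ℝ, BS h x * cexp ((1 / 2 - I * t) * x)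
      = ∫ x : ℝ, bm a α b β x * cexp ((1 / 2 - I * t) * x) := rfl
  rw [h2]
  refine h1.trans ?_
  gcongr
  have hc := c1_nonneg
  have hz : ∀ x, B < x → deriv (bm a α b β) x = 0 := by
    intro x hx
    have : bm a α b β =ᶠ[𝓝 x] fun _ => 0 := by
      filter_upwards [Ioi_mem_nhds hx] with y hy
      rw [bm_zero_right h (by have := mem_Ioi.mp hy; linarith)]
    rw [this.deriv_eq, deriv_const]
  have hi := integrableOn_exp_mul_Iic (a := (1 / 2 : ℝ)) (by norm_num) B
  have hi2 : IntegrableOn (fun x : ℝ => (2 * c1) * Real.exp (1 / 2 * x)) (Iic B) := hi.const_mul _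
  have hi3 : Integrable ((Iic B).indicator (fun x : ℝ => (2 * c1) * Real.exp (1 / 2 * x))) :=
    (integrable_indicator_iff measurableSet_Iic).mpr hi2
  calc ∫ x : ℝ, ‖iteratedDeriv 1 (bm a α b β) x‖ * Real.exp (x / 2)
      ≤ ∫ x : ℝ, (Iic B).indicator (fun x : ℝ => (2 * c1) * Real.exp (1 / 2 * x)) x := by
        refine integral_mono_of_nonneg (Eventually.of_forall fun x => by positivity) hi3
          (Eventually.of_forall fun x => ?_)
        simp only
        rw [iteratedDeriv_one]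
        by_cases hx : x ≤ B
        · rw [indicator_of_mem (mem_Iic.mpr hx)]
          have h7 := norm_deriv_bm_le h hα hβ x
          rw [show x / 2 = 1 / 2 * x by ring]
          gcongr
        · rw [indicator_of_notMem (by simpa using hx), hz x (not_le.mp hx), norm_zero, zero_mul]
    _ = (2 * c1) * (Real.exp (1 / 2 * B) / (1 / 2)) := by
        rw [integral_indicator measurableSet_Iic, integral_const_mul,
          integral_exp_mul_Iic (by norm_num)]
    _ = _ := by
        rw [show B / 2 = 1 / 2 * B by ring]; ring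

/-- the sum over a window which is `1` on `[0, b - β]` -/
lemma sum_window_le (h : Pr a α b β) (ha : a + α ≤ 0) {N : ℕ} (hN : Real.exp b ≤ N)
    (hβ : 1 ≤ β) (t : ℝ) :
    ‖∑ n ∈ Finset.Icc 1 N, BS h (Real.log n) * (n : ℂ) ^ (-(1 / 2 + I * t : ℂ))‖
      ≤ c1 * ∫ x in (b - β)..b, ‖PSum (fun n => (n : ℂ) ^ (-(1 / 2 + I * t : ℂ))) x‖ := by
  have hβ0 : 0 < β := h.hβ
  have h1 := norm_step_sum_le hβ0 b (fun n => (n : ℂ) ^ (-(1 / 2 + I * t : ℂ))) hN
  have h2 : ∑ n ∈ Finset.Icc 1 N, BS h (Real.log n) * (n : ℂ) ^ (-(1 / 2 + I * t : ℂ))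
      = ∑ n ∈ Finset.Icc 1 N, (Real.smoothTransition ((b - Real.log n) / β) : ℂ)
        * (n : ℂ) ^ (-(1 / 2 + I * t : ℂ)) := by
    refine Finset.sum_congr rfl fun n _ => ?_
    have h0 : 0 ≤ Real.log n := Real.log_natCast_nonneg n
    rw [BS_apply, bm_right h (by linarith)]
    rfl
  rw [h2]
  refine h1.trans ?_
  have h3 : 0 ≤ ∫ x in (b - β)..b, ‖PSum (fun n => (n : ℂ) ^ (-(1 / 2 + I * t : ℂ))) x‖ :=
    intervalIntegral.integral_nonneg (by linarith) fun x _ => norm_nonneg _
  have hc := c1_nonneg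
  have h4 : c1 / β ≤ c1 := div_le_self hc hβ
  gcongr

end

lemma sg_one_sub' (x : ℝ) : sg (1 - x) = 1 - sg x := by
  have h : Real.smoothTransition (1 - x) = 1 - Real.smoothTransition x := by
    unfold Real.smoothTransition
    have h := (Real.smoothTransition.pos_denom x).ne'
    have h' : expNegInvGlue (1 - x) + expNegInvGlue x ≠ 0 := by rwa [add_comm]
    rw [sub_sub_cancel, eq_sub_iff_add_eq, add_comm (expNegInvGlue (1 - x)) (expNegInvGlue x),
      ← add_div, add_comm (expNegInvGlue (1 - x)) (expNegInvGlue x), div_self h]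
  unfold sg
  rw [h]
  push_cast
  ring

/-- **Approximate functional equation**, as a bound by an average over the length. -/
theorem afe_line : ∃ C T0 : ℝ, 0 ≤ C ∧ 1 ≤ T0 ∧ ∀ T : ℝ, T0 ≤ T → ∀ t : ℝ, T / 4 ≤ t →
    t ≤ 2 * T → ‖riemannZeta (1 / 2 + I * t)‖ ≤ C * (1 + ∫ x in (Real.log T / 2 - 4)..(Real.log T / 2
      + 4), ‖PSum (fun n => (n : ℂ) ^ (-(1 / 2 + I * t : ℂ))) x‖) := by
  have hc1 := c1_nonneg
  set M : ℝ := Real.pi * (4 * cM 1 + 8 * cM 3 + 4 * cM 5) with hM
  have hpi := Real.pi_pos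
  have hM0 : 0 ≤ M := by
    have h1 := cM_nonneg 1
    have h3 := cM_nonneg 3
    have h5 := cM_nonneg 5
    positivity
  refine ⟨2 * c1 + 100 * c1 + 60 * M, Real.exp 4, by positivity, Real.one_le_exp (by norm_num), ?_⟩
  intro T hT t ht1 ht2
  have hT0 : 0 < T := (Real.exp_pos _).trans_le hT
  have he4 : (4 : ℝ) + 1 ≤ Real.exp 4 := Real.add_one_le_exp 4
  have ht : 1 ≤ t := by linarith
  have ht0 : 0 < t := by linarith
  set L : ℝ := Real.log T with hL
  have hL4 : 4 ≤ L := by
    rw [hL, Real.le_log_iff_exp_le hT0]; exact hT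
  have hTL : Real.exp L = T := Real.exp_log hT0
  set l : ℝ := Real.log (t / (2 * Real.pi)) with hl
  have hlL : l ≤ L := by
    rw [hl, hL]
    refine Real.log_le_log (by positivity) ?_
    rw [div_le_iff₀ (by positivity)]
    have := Real.pi_gt_three
    nlinarith
  have hlL2 : L - 4 ≤ l := by
    rw [hl, Real.le_log_iff_exp_le (by positivity), Real.exp_sub, hTL]
    rw [div_le_div_iff₀ (Real.exp_pos _) (by positivity)]
    have h1 : Real.pi ≤ 4 := Real.pi_le_four
    have h2 : (32 : ℝ) ≤ Real.exp 4 := by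
      have h3 : Real.exp 4 = Real.exp 1 ^ 4 := by rw [← Real.exp_nat_mul]; norm_num
      have h4 := Real.exp_one_gt_d9
      rw [h3]
      calc (32 : ℝ) ≤ 2.7 ^ 4 := by norm_num
        _ ≤ Real.exp 1 ^ 4 := pow_le_pow_left₀ (by norm_num) (by linarith) 4
    calc T * (2 * Real.pi) ≤ T * 8 := by nlinarith
      _ ≤ T / 4 * Real.exp 4 := by nlinarith
      _ ≤ t * Real.exp 4 := by gcongr
  set c : ℕ → ℂ := fun n => (n : ℂ) ^ (-(1 / 2 + I * t : ℂ)) with hc
  set J : ℝ := ∫ x in (L / 2 - 4)..(L / 2 + 4), ‖PSum c x‖ with hJ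
  have hJ0 : 0 ≤ J := intervalIntegral.integral_nonneg (by linarith) fun x _ => norm_nonneg _
  have hsub : ∀ u v : ℝ, L / 2 - 4 ≤ u → u ≤ v → v ≤ L / 2 + 4 →
      ∫ x in u..v, ‖PSum c x‖ ≤ J := by
    intro u v h1 h2 h3
    exact intervalIntegral.integral_mono_interval h1 h2 h3
      (Eventually.of_forall fun x => norm_nonneg _) ((intervalIntegrable_PSum c _ _).norm)
  -- windows
  have main : ∀ A : ℝ, 1 ≤ A → L ≤ A → ∀ hA : 1 ≤ A,
      ‖Z1 (BS (pr_GA hA)) t‖ ≤ (2 * c1 + 100 * c1 + 60 * M) * (1 + J) := by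
    intro A hA1 hA2 hA
    have p1 : Pr (-(2 * A)) A (L / 2) 1 := ⟨by linarith, by norm_num, by linarith⟩
    have p3 : Pr (L / 2 - 1) 1 (2 * A) A := ⟨by norm_num, by linarith, by linarith⟩
    have p4 : Pr (l - 2 * A) A (l - L / 2 + 1) 1 := ⟨by linarith, by norm_num, by linarith⟩
    have hA0 : A ≠ 0 := by positivity
    have hdec : ∀ x, BS (pr_GA hA) x = BS p1 x + BS p3 x := by
      intro x
      rw [BS_apply, BS_apply, BS_apply]
      unfold bm
      have e1 := sg_one_sub' ((L / 2 - x) / 1)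
      have e3 : (1 : ℝ) - (L / 2 - x) / 1 = (x - (L / 2 - 1)) / 1 := by ring
      rw [e3] at e1
      rw [e1]
      ring
    have hZ1 : Z1 (BS (pr_GA hA)) t = Z1 (BS p1) t + Z1 (BS p3) t := Z1_add hdec t
    have hrefl : ∀ y, BS p4 y = conj (BS p3 (l - y)) := by
      intro y
      rw [BS_apply, BS_apply]
      unfold bm
      have hc : ∀ z, conj (sg z) = sg z := fun z => by unfold sg; rw [Complex.conj_ofReal]
      rw [map_sub, map_add, hc, hc, map_one]
      have e1 : (l - y - (L / 2 - 1)) / 1 = (l - L / 2 + 1 - y) / 1 := by ring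
      have e2 : (2 * A - (l - y)) / A = (y - (l - 2 * A)) / A := by ring
      rw [e1, e2]
      ring
    have hR := reflect1 (κ := BS p3) (κ' := BS p4) ht hrefl
    have hM3 := M3_BS_le p3 le_rfl hA1
    -- polar terms
    have hexp : 4 * c1 * Real.exp (L / 2) / t ≤ 16 * c1 := by
      rw [div_le_iff₀ ht0]
      have h1 : Real.exp (L / 2) ≤ T := by
        rw [← hTL]
        exact Real.exp_le_exp.mpr (by linarith)
      calc 4 * c1 * Real.exp (L / 2) ≤ 4 * c1 * T := by gcongr
        _ = 16 * c1 * (T / 4) := by ring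
        _ ≤ 16 * c1 * t := by gcongr
    have q1 := norm_polar_bm_le p1 hA1 le_rfl (B := L) (by linarith) ht0
    have q4 := norm_polar_bm_le p4 hA1 le_rfl (B := L) (by linarith) ht0
    -- the sums
    set N : ℕ := ⌈Real.exp L⌉₊ with hN
    have hNL : Real.exp L ≤ N := Nat.le_ceil _
    have hN1 : 1 ≤ N := Nat.one_le_ceil_iff.mpr (Real.exp_pos _)
    have hlogN : L ≤ Real.log N := by
      have := Real.log_le_log (Real.exp_pos _) hNL
      rwa [Real.log_exp] at this
    have d1 := smooth_sum (BS p1) hN1 (fun x hx => by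
      rw [BS_apply]; exact bm_zero_right p1 (by linarith)) t
    have d4 := smooth_sum (BS p4) hN1 (fun x hx => by
      rw [BS_apply]; exact bm_zero_right p4 (by linarith)) t
    have s1 := sum_window_le p1 (by linarith) (N := N)
      ((Real.exp_le_exp.mpr (by linarith)).trans hNL) le_rfl t
    have s4 := sum_window_le p4 (by linarith) (N := N)
      ((Real.exp_le_exp.mpr (by linarith)).trans hNL) le_rfl t
    have i1 := hsub (L / 2 - 1) (L / 2) (by linarith) (by linarith) (by linarith)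
    have i4 := hsub (l - L / 2 + 1 - 1) (l - L / 2 + 1) (by linarith) (by linarith) (by linarith)
    have z1 : ‖Z1 (BS p1) t‖ ≤ c1 * J + 16 * c1 := by
      have e : Z1 (BS p1) t = (∑ n ∈ Finset.Icc 1 N, BS p1 (Real.log n) *
          (n : ℂ) ^ (-(1 / 2 + I * t : ℂ)))
          - ∫ x, BS p1 x * cexp ((1 / 2 - I * t) * x) := by
        rw [d1]; unfold Z1; ring
      rw [e]
      refine (norm_sub_le _ _).trans (add_le_add (s1.trans ?_) (q1.trans hexp))
      gcongr
    have z4 : ‖Z1 (BS p4) t‖ ≤ c1 * J + 16 * c1 := by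
      have e : Z1 (BS p4) t = (∑ n ∈ Finset.Icc 1 N, BS p4 (Real.log n) *
          (n : ℂ) ^ (-(1 / 2 + I * t : ℂ)))
          - ∫ x, BS p4 x * cexp ((1 / 2 - I * t) * x) := by
        rw [d4]; unfold Z1; ring
      rw [e]
      refine (norm_sub_le _ _).trans (add_le_add (s4.trans ?_) (q4.trans hexp))
      gcongr
    have hst : 1 ≤ Real.sqrt t := by rw [Real.one_le_sqrt]; exact ht
    have z3 : ‖Z1 (BS p3) t‖ ≤ (c1 * J + 16 * c1) + 60 * M := by
      have e : Z1 (BS p3) t = (Z1 (BS p3) t - chi t * conj (Z1 (BS p4) t))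
          + chi t * conj (Z1 (BS p4) t) := by ring
      rw [e]
      refine (norm_add_le _ _).trans ?_
      rw [add_comm]
      refine add_le_add ?_ (hR.trans ?_)
      · rw [norm_mul, norm_chi, one_mul, Complex.norm_conj]
        exact z4
      · have h60 : 60 / Real.sqrt t ≤ 60 := div_le_self (by norm_num) hst
        have hM3' : 0 ≤ M3 (BS p3) := integral_nonneg fun v => by positivity
        calc 60 / Real.sqrt t * M3 (BS p3) ≤ 60 * M3 (BS p3) := by gcongr
          _ ≤ 60 * M := by gcongr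
    rw [hZ1]
    refine (norm_add_le _ _).trans ((add_le_add z1 z3).trans ?_)
    nlinarith [mul_nonneg hc1 hJ0, mul_nonneg hM0 hJ0]
  have hlim := (tendsto_Z1 t).norm
  refine le_of_tendsto hlim ?_
  obtain ⟨n0, hn0⟩ := exists_nat_ge L
  filter_upwards [eventually_ge_atTop n0] with n hn
  have hn1 : (n0 : ℝ) ≤ n := by exact_mod_cast hn
  have h3 : (1 : ℝ) ≤ (n : ℝ) + 1 := by
    have : (0 : ℝ) ≤ n := Nat.cast_nonneg n
    linarith
  have h4 := main ((n : ℝ) + 1) h3 (by linarith) h3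
  rw [Z1_GA h3] at h4
  exact h4

end Pool.Agent.H20.Smooth
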