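import Mathlib
import Pool.Agent.Lib.MP_f9aece_nt_j4.Stmts
import Pool.Agent.Lib.MP_f9aece_nt_h20.Refl2
import Pool.Agent.Lib.MP_f9aece_nt_h20.Polar

/-!
The approximate functional equation for the square of zeta with smooth weights.
-/

set_option autoImplicit false

namespace Pool.Agent.H20.Smooth

open MeasureTheory Complex Set Filter Topology FourierTransform
open scoped SchwartzMap ComplexConjugate ContDiff
open Pool.Agent.H20.Chi (chi zeta_eq norm_chi chi_shift)
open Pool.Agent.Lib.J4 (dv cu DF Lo Lot Ce tau AFE)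
open Pool.Agent.Lib.MP_f9aece_nt (DP ev ev_single)

/-- the divisor sum -/
noncomputable def DD (κ : ℝ → ℂ) (N : ℕ) (t : ℝ) : ℂ :=
  ∑ n ∈ Finset.Icc 1 N, (n.divisors.card : ℂ) *
    (κ (Real.log n) * (n : ℂ) ^ (-(1 / 2 + I * t : ℂ)))

lemma DD_eq {a α b β : ℝ} (h : Pr a α b β) {N : ℕ} (hN : 1 ≤ N) (hb : b ≤ Real.log N) (t : ℝ) :
    DD (bm a α b β) N t = PO (BS h) t + ZZ (BS h) t :=
  smooth_sum2 (BS h) t hN (fun x hx => bm_zero_right h (by linarith)) (B := -a)
    (fun x hx => bm_zero_left h (by linarith))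

lemma ev_DF_eq (f : ℝ → ℝ) (κ : ℝ → ℂ) {N M : ℕ} (hNM : N ≤ M) (t : ℝ)
    (hf : ∀ n : ℕ, 1 ≤ n → n ≤ N → κ (Real.log n) = f (Real.log n))
    (h0 : ∀ n : ℕ, N < n → κ (Real.log n) = 0) : DD κ M t = ev t (DF f N) := by
  unfold DF DD
  rw [map_sum]
  have hsub : Finset.Icc 1 N ⊆ Finset.Icc 1 M := Finset.Icc_subset_Icc_right hNM
  rw [← Finset.sum_subset hsub]
  · refine Finset.sum_congr rfl fun n hn => ?_
    have hn' := Finset.mem_Icc.mp hn
    rw [ev_single, hf n hn'.1 hn'.2]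
    unfold dv
    push_cast
    ring
  · intro n hn hn2
    have hn' := Finset.mem_Icc.mp hn
    have : N < n := by
      by_contra hc
      exact hn2 (Finset.mem_Icc.mpr ⟨hn'.1, not_lt.mp hc⟩)
    rw [h0 n this]
    ring

lemma sT_one_sub (x : ℝ) :
    Real.smoothTransition (1 - x) = 1 - Real.smoothTransition x := by
  unfold Real.smoothTransition
  have h := (Real.smoothTransition.pos_denom x).ne'
  have h' : expNegInvGlue (1 - x) + expNegInvGlue x ≠ 0 := by rwa [add_comm]
  rw [sub_sub_cancel, eq_sub_iff_add_eq, add_comm (expNegInvGlue (1 - x)) (expNegInvGlue x),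
    ← add_div, add_comm (expNegInvGlue (1 - x)) (expNegInvGlue x), div_self h]

lemma sg_one_sub (x : ℝ) : sg (1 - x) = 1 - sg x := by
  unfold sg
  rw [sT_one_sub]
  push_cast
  ring

lemma exp_half_bound {L : ℝ} (hL : 0 ≤ L) :
    (1 + (L + 2)) * Real.exp ((L + 2) / 2) ≤ 9 * Real.exp L := by
  have h1 : L / 2 + 1 ≤ Real.exp (L / 2) := Real.add_one_le_exp _
  have h2 : Real.exp ((L + 2) / 2) = Real.exp (L / 2) * Real.exp 1 := by
    rw [← Real.exp_add]; congr 1; ring
  have h3 : Real.exp L = Real.exp (L / 2) * Real.exp (L / 2) := by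
    rw [← Real.exp_add]; congr 1; ring
  have h4 : Real.exp 1 < 3 := by
    have := Real.exp_one_lt_d9
    linarith
  have h5 : 0 < Real.exp (L / 2) := Real.exp_pos _
  rw [h2, h3]
  have h6 : 1 + (L + 2) ≤ 3 * Real.exp (L / 2) := by linarith
  calc (1 + (L + 2)) * (Real.exp (L / 2) * Real.exp 1)
      ≤ (3 * Real.exp (L / 2)) * (Real.exp (L / 2) * 3) := by gcongr
    _ = _ := by ring

end Pool.Agent.H20.Smooth

namespace Pool.Agent.Lib.J4

open MeasureTheory Complex Set Filter Topology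
open scoped ComplexConjugate
open Pool.Agent.H20.Chi (chi norm_chi)
open Pool.Agent.H20.Smooth
open Pool.Agent.Lib.MP_f9aece_nt (DP ev ev_single)

/-- **Approximate functional equation.** -/
theorem afe : AFE := by
  intro θ hθ hθ1
  set c0 : ℝ := 16 * (4 * c1 + 1) with hc0
  have hc1 := c1_nonneg
  set M : ℝ := Real.pi * (4 * cM 1 + 8 * cM 3 + 4 * cM 5) with hM
  have hpi := Real.pi_pos
  have hM0 : 0 ≤ M := by
    have h1 := cM_nonneg 1
    have h3 := cM_nonneg 3
    have h5 := cM_nonneg 5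
    positivity
  have hc00 : 0 ≤ c0 := by positivity
  refine ⟨3 * (c0 * 9 / θ) + 2200 * M, max (Real.exp 4) (1 / θ), by positivity,
    (Real.one_le_exp (by norm_num)).trans (le_max_left _ _), ?_⟩
  intro T hT t ht1 ht2
  have hT4 : Real.exp 4 ≤ T := (le_max_left _ _).trans hT
  have hTθ : 1 / θ ≤ T := (le_max_right _ _).trans hT
  have hT0 : 0 < T := (Real.exp_pos _).trans_le hT4
  have ht : 1 ≤ t := by
    rw [div_le_iff₀ hθ] at hTθ
    linarith
  have ht0 : 0 < t := by linarith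
  set L : ℝ := Real.log T with hL
  have hL4 : 4 ≤ L := by
    rw [hL, Real.le_log_iff_exp_le hT0]; exact hT4
  have hTL : Real.exp L = T := Real.exp_log hT0
  set l : ℝ := Real.log (t / (2 * Real.pi)) with hl
  have htau : tau T t = 2 * L - 2 * l := by
    unfold tau
    have : 2 * Real.pi * T / t = T / (t / (2 * Real.pi)) := by field_simp
    rw [this, Real.log_div hT0.ne' (by positivity)]
    ring
  have hlL : l ≤ L := by
    rw [hl, hL]
    refine Real.log_le_log (by positivity) ?_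
    rw [div_le_iff₀ (by positivity)]
    have := Real.pi_gt_three
    nlinarith
  -- the numbers of terms
  have hT1 : (1 : ℝ) ≤ T := (Real.one_le_exp (by norm_num)).trans hT4
  have hfl : L - 1 ≤ Real.log (⌊T⌋₊ : ℝ) := by
    have h1 : T - 1 < (⌊T⌋₊ : ℝ) := Nat.sub_one_lt_floor T
    have h5 : (5 : ℝ) ≤ T := by
      have := Real.add_one_le_exp (4 : ℝ)
      linarith
    rw [Real.le_log_iff_exp_le (by linarith), Real.exp_sub, hTL]
    have h6 : T / Real.exp 1 ≤ T / 2 := by
      have := Real.exp_one_gt_d9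
      gcongr
      linarith
    linarith
  have hN1 : 1 ≤ ⌊T⌋₊ := Nat.le_floor (by exact_mod_cast hT1)
  have hbig : ∀ n : ℕ, ⌊T⌋₊ < n → L ≤ Real.log n := by
    intro n hn
    have := Nat.lt_of_floor_lt hn
    exact Real.log_le_log hT0 this.le
  have hbig2 : ∀ n : ℕ, ⌊T * Real.exp 2⌋₊ < n → L + 2 ≤ Real.log n := by
    intro n hn
    have h1 := Nat.lt_of_floor_lt hn
    have h2 := Real.log_le_log (by positivity) h1.le
    rwa [Real.log_mul hT0.ne' (Real.exp_pos _).ne', Real.log_exp] at h2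
  -- windows
  have main : ∀ A : ℝ, 1 ≤ A → L + 2 ≤ A → 2 * l ≤ A → ∀ hA : 1 ≤ A,
      ‖ZZ (BS (pr_GA hA)) t
        - (ev t (Lo T) + chi t ^ 2 * conj (ev t (Lot T t)) + ev t (Ce T))‖
        ≤ 3 * (c0 * 9 / θ) + 2200 * M := by
    intro A hA1 hA2 hA3 hA
    have p1 : Pr (-(2 * A)) A (L - 1) 1 := ⟨by linarith, by norm_num, by linarith⟩
    have p2 : Pr (L - 2) 1 (L + 2) 1 := ⟨by norm_num, by norm_num, by linarith⟩
    have p3 : Pr (L + 1) 1 (2 * A) A := ⟨by norm_num, by linarith, by linarith⟩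
    have p4 : Pr (2 * l - 2 * A) A (2 * l - L - 1) 1 := ⟨by linarith, by norm_num, by linarith⟩
    have hA0 : A ≠ 0 := by positivity
    -- decomposition
    have hdec : ∀ x, BS (pr_GA hA) x = BS p1 x + (BS p2 + BS p3) x := by
      intro x
      rw [add_apply, BS_apply, BS_apply, BS_apply, BS_apply]
      unfold bm
      have e1 := sg_one_sub ((L - 1 - x) / 1)
      have e2 := sg_one_sub ((L + 2 - x) / 1)
      have e3 : (1 : ℝ) - (L - 1 - x) / 1 = (x - (L - 2)) / 1 := by ring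
      have e4 : (1 : ℝ) - (L + 2 - x) / 1 = (x - (L + 1)) / 1 := by ring
      rw [e3] at e1
      rw [e4] at e2
      rw [e1, e2]
      ring
    have hZ1 : ZZ (BS (pr_GA hA)) t = ZZ (BS p1) t + (ZZ (BS p2) t + ZZ (BS p3) t) := by
      rw [ZZ_add hdec t, ZZ_add (κ := BS p2 + BS p3) (κ₁ := BS p2) (κ₂ := BS p3)
        (fun x => rfl) t]
    -- reflection
    have hrefl : ∀ y, BS p4 y = conj (BS p3 (2 * l - y)) := by
      intro y
      rw [BS_apply, BS_apply]
      unfold bm
      have hc : ∀ z, conj (sg z) = sg z := fun z => by unfold sg; rw [Complex.conj_ofReal]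
      rw [map_sub, map_add, hc, hc, map_one]
      have e1 : (2 * l - y - (L + 1)) / 1 = (2 * l - L - 1 - y) / 1 := by ring
      have e2 : (2 * A - (2 * l - y)) / A = (y - (2 * l - 2 * A)) / A := by ring
      rw [e1, e2]
      ring
    have hR := reflect2 (κ := BS p3) (κ' := BS p4) ht hrefl
    have hM3 := M3_BS_le p3 le_rfl hA1
    -- polar terms
    have hPO : ∀ (a α b β : ℝ) (p : Pr a α b β), 1 ≤ α → 1 ≤ β → b ≤ L + 2 →
        ‖PO (BS p) t‖ ≤ c0 * 9 / θ := by
      intro a α b β p hα hβ hb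
      refine (norm_PO_le p hα hβ (B := L + 2) (by linarith) hb ht0).trans ?_
      rw [div_le_div_iff₀ ht0 hθ]
      have h1 := exp_half_bound (L := L) (by linarith)
      rw [hTL] at h1
      calc 16 * (4 * c1 + 1) * (1 + (L + 2)) * Real.exp ((L + 2) / 2) * θ
          = c0 * ((1 + (L + 2)) * Real.exp ((L + 2) / 2)) * θ := by rw [hc0]; ring
        _ ≤ c0 * (9 * T) * θ := by gcongr
        _ = c0 * 9 * (θ * T) := by ring
        _ ≤ c0 * 9 * t := by gcongr
    have q1 := hPO _ _ _ _ p1 hA1 le_rfl (by linarith)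
    have q2 := hPO _ _ _ _ p2 le_rfl le_rfl (by linarith)
    have q4 := hPO _ _ _ _ p4 hA1 le_rfl (by linarith)
    -- the sums
    have d1 := DD_eq p1 hN1 hfl t
    have d4 := DD_eq p4 hN1 (by linarith) t
    have hN2 : 1 ≤ ⌈T * Real.exp 2⌉₊ := Nat.one_le_ceil_iff.mpr (by positivity)
    have d2 := DD_eq p2 hN2 (by
      have h1 := Real.log_le_log (by positivity) (Nat.le_ceil (T * Real.exp 2))
      rwa [Real.log_mul hT0.ne' (Real.exp_pos _).ne', Real.log_exp] at h1) t
    have s1 : DD (bm (-(2 * A)) A (L - 1) 1) ⌊T⌋₊ t = ev t (Lo T) := by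
      refine ev_DF_eq _ _ le_rfl t (fun n hn _ => ?_) (fun n hn => ?_)
      · have h0 : 0 ≤ Real.log n := Real.log_natCast_nonneg n
        rw [bm_right p1 (by linarith)]
        rfl
      · exact bm_zero_right p1 (by linarith [hbig n hn])
    have s4 : DD (bm (2 * l - 2 * A) A (2 * l - L - 1) 1) ⌊T⌋₊ t = ev t (Lot T t) := by
      refine ev_DF_eq _ _ le_rfl t (fun n hn _ => ?_) (fun n hn => ?_)
      · have h0 : 0 ≤ Real.log n := Real.log_natCast_nonneg n
        rw [bm_right p4 (by linarith), htau]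
        unfold sg cu
        congr 2
        ring
      · exact bm_zero_right p4 (by linarith [hbig n hn])
    have s2 : DD (bm (L - 2) 1 (L + 2) 1) ⌈T * Real.exp 2⌉₊ t = ev t (Ce T) := by
      refine ev_DF_eq _ _ (Nat.floor_le_ceil _) t (fun n hn _ => ?_) (fun n hn => ?_)
      · set x := Real.log n
        unfold bm sg cu
        have e1 := sT_one_sub ((L - 1 - x) / 1)
        have e2 := sT_one_sub ((L + 2 - x) / 1)
        have e3 : (1 : ℝ) - (L - 1 - x) / 1 = (x - (L - 2)) / 1 := by ring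
        have e4 : (1 : ℝ) - (L + 2 - x) / 1 = (Real.log T - 1 - (2 * Real.log T - x)) / 1 := by
          rw [← hL]; ring
        rw [e3] at e1
        rw [e4] at e2
        rw [e1, e2, ← hL]
        push_cast
        ring
      · exact bm_zero_right p2 (hbig2 n hn)
    rw [s1] at d1
    rw [s2] at d2
    rw [s4] at d4
    rw [hZ1, d1, d2, d4, map_add]
    have e : ZZ (BS p1) t + (ZZ (BS p2) t + ZZ (BS p3) t)
        - (PO (BS p1) t + ZZ (BS p1) t + chi t ^ 2 * (conj (PO (BS p4) t) + conj (ZZ (BS p4) t))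
          + (PO (BS p2) t + ZZ (BS p2) t))
        = (ZZ (BS p3) t - chi t ^ 2 * conj (ZZ (BS p4) t))
          - (PO (BS p1) t + PO (BS p2) t + chi t ^ 2 * conj (PO (BS p4) t)) := by ring
    rw [e]
    have h4 : ‖chi t ^ 2 * conj (PO (BS p4) t)‖ ≤ c0 * 9 / θ := by
      rw [norm_mul, norm_pow, norm_chi, one_pow, one_mul, Complex.norm_conj]
      exact q4
    calc ‖(ZZ (BS p3) t - chi t ^ 2 * conj (ZZ (BS p4) t))
          - (PO (BS p1) t + PO (BS p2) t + chi t ^ 2 * conj (PO (BS p4) t))‖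
        ≤ ‖ZZ (BS p3) t - chi t ^ 2 * conj (ZZ (BS p4) t)‖
          + ‖PO (BS p1) t + PO (BS p2) t + chi t ^ 2 * conj (PO (BS p4) t)‖ := norm_sub_le _ _
      _ ≤ 2200 * M3 (BS p3) + (‖PO (BS p1) t‖ + ‖PO (BS p2) t‖
          + ‖chi t ^ 2 * conj (PO (BS p4) t)‖) := by
          gcongr
          exact norm_add₃_le
      _ ≤ 2200 * M + (c0 * 9 / θ + c0 * 9 / θ + c0 * 9 / θ) := by
          gcongr
      _ = _ := by ring
  have hlim := tendsto_ZZ t
  have hlim2 := (hlim.sub_const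
    (ev t (Lo T) + chi t ^ 2 * conj (ev t (Lot T t)) + ev t (Ce T))).norm
  refine le_of_tendsto hlim2 ?_
  obtain ⟨n0, hn0⟩ := exists_nat_ge (max (L + 2) (2 * l))
  filter_upwards [eventually_ge_atTop n0] with n hn
  have hn1 : (n0 : ℝ) ≤ n := by exact_mod_cast hn
  have h1 : L + 2 ≤ n0 := (le_max_left _ _).trans hn0
  have h2 : 2 * l ≤ n0 := (le_max_right _ _).trans hn0
  have h3 : (1 : ℝ) ≤ (n : ℝ) + 1 := by
    have : (0 : ℝ) ≤ n := Nat.cast_nonneg n
    linarith
  have h4 := main ((n : ℝ) + 1) h3 (by linarith) (by linarith) h3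
  rw [ZZ_GA h3] at h4
  exact h4

end Pool.Agent.Lib.J4
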