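import Pool.Agent.Lib.MP_f9aece_nt_h20.RM

/-!
Random model norms of products `alpha * k_a * k_b`, where `k_a(n) = n^{-a}` and `alpha` is a product
of functions on disjoint blocks of primes.
-/

set_option autoImplicit false

open Finset

namespace Pool.Agent.H20.RM

/-! ### one prime -/

lemma mem_Sm_singleton {p n : ℕ} (hn : n ∈ Sm {p}) : ∃ k, n = p ^ k := by
  induction n using Nat.recOnMul with
  | zero => exact absurd rfl hn.1
  | one => exact ⟨0, by simp⟩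
  | prime q hq =>
    have := hn.2 q hq dvd_rfl
    rw [Set.mem_singleton_iff] at this
    exact ⟨1, by rw [this, pow_one]⟩
  | mul x y hx hy =>
    obtain ⟨i, hi⟩ := hx (dvd_mem_Sm hn (Dvd.intro _ rfl))
    obtain ⟨j, hj⟩ := hy (dvd_mem_Sm hn (Dvd.intro_left _ rfl))
    exact ⟨i + j, by rw [hi, hj, pow_add]⟩

lemma pow_mem_Sm {p : ℕ} (hp : p.Prime) {P : Set ℕ} (h : p ∈ P) (k : ℕ) : p ^ k ∈ Sm P :=
  ⟨pow_ne_zero _ hp.ne_zero, fun q hq hd => by
    rw [(Nat.prime_dvd_prime_iff_eq hq hp).mp (hq.dvd_of_dvd_pow hd)]; exact h⟩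

lemma prime_mem_Sm {p : ℕ} (hp : p.Prime) {P : Set ℕ} (h : p ∈ P) : p ∈ Sm P := by
  have := pow_mem_Sm hp h 1
  rwa [pow_one] at this

lemma mul_prime_pow {p : ℕ} (hp : p.Prime) (f g : ArithmeticFunction ℂ) (k : ℕ) :
    (f * g) (p ^ k) = ∑ i ∈ range (k + 1), f (p ^ i) * g (p ^ (k - i)) := by
  rw [ArithmeticFunction.mul_apply,
    Nat.sum_divisorsAntidiagonal (fun x y => f x * g y), Nat.sum_divisors_prime_pow hp]
  refine Finset.sum_congr rfl fun i hi => ?_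
  rw [Finset.mem_range] at hi
  rw [Nat.pow_div (by omega) hp.pos]

lemma sum_sq_geom (K : ℕ) : ∑ k ∈ range K, ((k : ℝ) + 3) ^ 2 / 2 ^ k
    = 36 - (2 * (K : ℝ) ^ 2 + 16 * K + 36) / 2 ^ K := by
  induction K with
  | zero => simp
  | succ K ih =>
    rw [Finset.sum_range_succ, ih, pow_succ]
    push_cast
    field_simp
    ring

/-- The norm of a function supported on the powers of one prime. -/
lemma NB.prime {p : ℕ} (hp : p.Prime) {f : ArithmeticFunction ℂ} (hf : Sup {p} f) {c D : ℝ}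
    (h0 : ‖f 1‖ ≤ 1) (h1 : ‖f p‖ ^ 2 ≤ c) (hD : 0 ≤ D)
    (h2 : ∀ k : ℕ, 2 ≤ k → ‖f (p ^ k)‖ ^ 2 ≤ D * ((k : ℝ) + 1) ^ 2) :
    NB f (Real.exp ((c / p + 36 * D / (p : ℝ) ^ 2) / 2)) := by
  classical
  refine ⟨(Real.exp_pos _).le, fun s => ?_⟩
  have hp0 : (0 : ℝ) < p := by exact_mod_cast hp.pos
  have hp2 : (2 : ℝ) ≤ p := by exact_mod_cast hp.two_le
  have hc : 0 ≤ c := (sq_nonneg _).trans h1
  -- restrict to powers of p
  obtain ⟨K, hK⟩ : ∃ K : ℕ, ∀ n ∈ s, n < p ^ (K + 2) := by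
    refine ⟨s.sup id, fun n hn => ?_⟩
    have h3 : n ≤ s.sup id := Finset.le_sup (f := id) hn
    calc n ≤ s.sup id := h3
      _ < p ^ (s.sup id) := Nat.lt_pow_self hp.one_lt
      _ ≤ p ^ (s.sup id + 2) := Nat.pow_le_pow_right hp.pos (by omega)
  have h3 : ∑ n ∈ s, ‖f n‖ ^ 2 / (n : ℝ)
      ≤ ∑ n ∈ (range (K + 2)).image (fun k => p ^ k), ‖f n‖ ^ 2 / (n : ℝ) := by
    have h4 : ∑ n ∈ s, ‖f n‖ ^ 2 / (n : ℝ)
        = ∑ n ∈ s.filter (fun n => f n ≠ 0), ‖f n‖ ^ 2 / (n : ℝ) := by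
      rw [Finset.sum_filter]
      refine Finset.sum_congr rfl fun n _ => ?_
      split_ifs with h
      · rfl
      · rw [not_not] at h
        rw [h]; simp
    rw [h4]
    refine Finset.sum_le_sum_of_subset_of_nonneg ?_ fun n _ _ => by positivity
    intro n hn
    rw [Finset.mem_filter] at hn
    obtain ⟨k, hk⟩ := mem_Sm_singleton (hf n hn.2)
    rw [Finset.mem_image]
    refine ⟨k, ?_, hk.symm⟩
    rw [Finset.mem_range]
    have := hK n hn.1
    rw [hk] at this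
    exact (Nat.pow_lt_pow_iff_right hp.one_lt).1 this
  refine h3.trans ?_
  rw [Finset.sum_image (fun i _ j _ h => Nat.pow_right_injective hp.two_le h)]
  rw [Finset.sum_range_succ', Finset.sum_range_succ']
  have h5 : ∑ k ∈ range K, ‖f (p ^ (k + 1 + 1))‖ ^ 2 / ((p ^ (k + 1 + 1) : ℕ) : ℝ)
      ≤ 36 * D / (p : ℝ) ^ 2 := by
    calc ∑ k ∈ range K, ‖f (p ^ (k + 1 + 1))‖ ^ 2 / ((p ^ (k + 1 + 1) : ℕ) : ℝ)
        ≤ ∑ k ∈ range K, D / (p : ℝ) ^ 2 * (((k : ℝ) + 3) ^ 2 / 2 ^ k) := by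
          refine Finset.sum_le_sum fun k _ => ?_
          have h6 := h2 (k + 1 + 1) (by omega)
          push_cast at h6 ⊢
          have h7 : (2 : ℝ) ^ k * (p : ℝ) ^ 2 ≤ (p : ℝ) ^ (k + 1 + 1) := by
            rw [show k + 1 + 1 = k + 2 from rfl, pow_add]
            gcongr
          calc ‖f (p ^ (k + 1 + 1))‖ ^ 2 / (p : ℝ) ^ (k + 1 + 1)
              ≤ (D * ((k : ℝ) + 1 + 1 + 1) ^ 2) / (2 ^ k * (p : ℝ) ^ 2) := by gcongr
            _ = D / (p : ℝ) ^ 2 * (((k : ℝ) + 3) ^ 2 / 2 ^ k) := by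
              field_simp
              ring
      _ = D / (p : ℝ) ^ 2 * (36 - (2 * (K : ℝ) ^ 2 + 16 * K + 36) / 2 ^ K) := by
          rw [← Finset.mul_sum, sum_sq_geom]
      _ ≤ D / (p : ℝ) ^ 2 * 36 := by
          have : 0 ≤ (2 * (K : ℝ) ^ 2 + 16 * K + 36) / 2 ^ K := by positivity
          have h8 : 0 ≤ D / (p : ℝ) ^ 2 := by positivity
          nlinarith
      _ = 36 * D / (p : ℝ) ^ 2 := by ring
  have h6 : ‖f (p ^ (0 + 1))‖ ^ 2 / ((p ^ (0 + 1) : ℕ) : ℝ) ≤ c / p := by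
    rw [zero_add, pow_one]
    gcongr
  have h7 : ‖f (p ^ 0)‖ ^ 2 / ((p ^ 0 : ℕ) : ℝ) ≤ 1 := by
    rw [pow_zero]
    simp only [Nat.cast_one, div_one]
    nlinarith [norm_nonneg (f 1)]
  have h8 : Real.exp ((c / p + 36 * D / (p : ℝ) ^ 2) / 2) ^ 2
      = Real.exp (c / p + 36 * D / (p : ℝ) ^ 2) := by
    rw [← Real.exp_nat_mul]; congr 1; push_cast; ring
  rw [h8]
  have h9 := Real.add_one_le_exp (c / p + 36 * D / (p : ℝ) ^ 2)
  linarith

/-! ### products over many blocks -/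

lemma Sup.prod {ι : Type*} (t : Finset ι) (P : ι → Set ℕ) (F : ι → ArithmeticFunction ℂ)
    (hS : ∀ i ∈ t, Sup (P i) (F i)) : Sup (⋃ i ∈ t, P i) (∏ i ∈ t, F i) := by
  classical
  induction t using Finset.induction_on with
  | empty =>
    rw [Finset.prod_empty]
    exact Sup.one _
  | insert a t ha ih =>
    rw [Finset.prod_insert ha, Finset.set_biUnion_insert]
    exact (hS a (Finset.mem_insert_self a t)).mul
      (ih fun i hi => hS i (Finset.mem_insert_of_mem hi))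

lemma NB.one : NB 1 1 := by
  refine ⟨zero_le_one, fun s => ?_⟩
  classical
  have h : ∀ n ∈ s, ‖(1 : ArithmeticFunction ℂ) n‖ ^ 2 / (n : ℝ) = if n = 1 then 1 else 0 := by
    intro n _
    split_ifs with h
    · rw [h, ArithmeticFunction.one_one]; simp
    · rw [ArithmeticFunction.one_apply_ne h]; simp
  rw [Finset.sum_congr rfl h, Finset.sum_ite_eq']
  split_ifs <;> norm_num

lemma NB.prod {ι : Type*} (t : Finset ι) (P : ι → Set ℕ) (F : ι → ArithmeticFunction ℂ)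
    (b : ι → ℝ) (hd : ∀ i ∈ t, ∀ j ∈ t, i ≠ j → Disjoint (P i) (P j))
    (hS : ∀ i ∈ t, Sup (P i) (F i)) (hN : ∀ i ∈ t, NB (F i) (b i)) :
    NB (∏ i ∈ t, F i) (∏ i ∈ t, b i) := by
  classical
  induction t using Finset.induction_on with
  | empty =>
    rw [Finset.prod_empty, Finset.prod_empty]
    exact NB.one
  | insert a t ha ih =>
    rw [Finset.prod_insert ha, Finset.prod_insert ha]
    refine NB.tensor (P := P a) (Q := ⋃ i ∈ t, P i) ?_ (hS a (Finset.mem_insert_self a t))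
      (Sup.prod t P F fun i hi => hS i (Finset.mem_insert_of_mem hi))
      (hN a (Finset.mem_insert_self a t))
      (ih (fun i hi j hj => hd i (Finset.mem_insert_of_mem hi) j (Finset.mem_insert_of_mem hj))
        (fun i hi => hS i (Finset.mem_insert_of_mem hi))
        (fun i hi => hN i (Finset.mem_insert_of_mem hi)))
    rw [Set.disjoint_iUnion₂_right]
    intro i hi
    exact hd a (Finset.mem_insert_self a t) i (Finset.mem_insert_of_mem hi)
      (fun h => ha (h ▸ hi))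

/-! ### the completely multiplicative functions -/

open Classical in
/-- `n ↦ n^{-a}` on the numbers composed of primes of `P` -/
noncomputable def kap (a : ℂ) (P : Set ℕ) : ArithmeticFunction ℂ :=
  ⟨fun n => if n ∈ Sm P then (n : ℂ) ^ (-a) else 0, by
    rw [if_neg]; exact fun h => h.1 rfl⟩

lemma kap_of_mem (a : ℂ) {P : Set ℕ} {n : ℕ} (h : n ∈ Sm P) : kap a P n = (n : ℂ) ^ (-a) := by
  simp only [kap, ArithmeticFunction.coe_mk]
  rw [if_pos h]

lemma kap_of_notMem (a : ℂ) {P : Set ℕ} {n : ℕ} (h : n ∉ Sm P) : kap a P n = 0 := by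
  simp only [kap, ArithmeticFunction.coe_mk]
  rw [if_neg h]

lemma kap_sup (a : ℂ) (P : Set ℕ) : Sup P (kap a P) := by
  intro n hn
  by_contra h
  exact hn (kap_of_notMem a h)

lemma kap_one (a : ℂ) (P : Set ℕ) : kap a P 1 = 1 := by
  rw [kap_of_mem a (one_mem_Sm P)]; simp

lemma norm_kap_le (a : ℂ) (ha : 0 ≤ a.re) (P : Set ℕ) (n : ℕ) : ‖kap a P n‖ ≤ 1 := by
  by_cases h : n ∈ Sm P
  · rw [kap_of_mem a h]
    have hn : 1 ≤ n := Nat.one_le_iff_ne_zero.2 h.1
    rw [Complex.norm_natCast_cpow_of_pos (by omega), Complex.neg_re]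
    exact Real.rpow_le_one_of_one_le_of_nonpos (by exact_mod_cast hn) (by linarith)
  · rw [kap_of_notMem a h]; simp

lemma kap_union (a : ℂ) {P Q : Set ℕ} (hPQ : Disjoint P Q) :
    kap a (P ∪ Q) = kap a P * kap a Q := by
  ext n
  by_cases hn : n ∈ Sm (P ∪ Q)
  · obtain ⟨x, hx, y, hy, rfl⟩ := exists_factor hn
    rw [Sup.mul_apply hPQ (kap_sup a P) (kap_sup a Q) hx hy, kap_of_mem a hn, kap_of_mem a hx,
      kap_of_mem a hy]
    push_cast
    rw [Complex.natCast_mul_natCast_cpow]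
  · rw [kap_of_notMem a hn]
    by_contra h
    exact hn (((kap_sup a P).mul (kap_sup a Q)) n (Ne.symm h))

lemma kap_empty (a : ℂ) : kap a ∅ = 1 := by
  ext n
  by_cases h : n = 1
  · rw [h, kap_one, ArithmeticFunction.one_one]
  · rw [ArithmeticFunction.one_apply_ne h, kap_of_notMem]
    intro hn
    obtain ⟨p, hp, hd⟩ := Nat.exists_prime_and_dvd h
    exact hn.2 p hp hd

lemma kap_iUnion {ι : Type*} (a : ℂ) (t : Finset ι) (P : ι → Set ℕ)
    (hd : ∀ i ∈ t, ∀ j ∈ t, i ≠ j → Disjoint (P i) (P j)) :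
    kap a (⋃ i ∈ t, P i) = ∏ i ∈ t, kap a (P i) := by
  classical
  induction t using Finset.induction_on with
  | empty => simp [kap_empty]
  | insert b t hb ih =>
    rw [Finset.prod_insert hb, Finset.set_biUnion_insert, kap_union,
      ih (fun i hi j hj => hd i (Finset.mem_insert_of_mem hi) j (Finset.mem_insert_of_mem hj))]
    rw [Set.disjoint_iUnion₂_right]
    intro i hi
    exact hd b (Finset.mem_insert_self b t) i (Finset.mem_insert_of_mem hi)
      (fun h => hb (h ▸ hi))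

/-- agreement up to `N` is inherited by products -/
lemma mul_congr {N : ℕ} {f f' g g' : ArithmeticFunction ℂ} (hf : ∀ n ≤ N, f n = f' n)
    (hg : ∀ n ≤ N, g n = g' n) : ∀ n ≤ N, (f * g) n = (f' * g') n := by
  intro n hn
  rw [ArithmeticFunction.mul_apply, ArithmeticFunction.mul_apply]
  refine Finset.sum_congr rfl fun x hx => ?_
  have h1 := Nat.divisor_le (Nat.fst_mem_divisors_of_mem_antidiagonal hx)
  have h2 := Nat.divisor_le (Nat.snd_mem_divisors_of_mem_antidiagonal hx)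
  rw [hf x.1 (h1.trans hn), hg x.2 (h2.trans hn)]

lemma kap_congr (a : ℂ) {P Q : Set ℕ} {N : ℕ} (h : ∀ p, p.Prime → p ≤ N → (p ∈ P ↔ p ∈ Q)) :
    ∀ n ≤ N, kap a P n = kap a Q n := by
  intro n hn
  have : n ∈ Sm P ↔ n ∈ Sm Q := by
    constructor
    · rintro ⟨h0, h1⟩
      exact ⟨h0, fun p hp hd => (h p hp ((Nat.le_of_dvd (Nat.pos_of_ne_zero h0) hd).trans hn)).1
        (h1 p hp hd)⟩
    · rintro ⟨h0, h1⟩
      exact ⟨h0, fun p hp hd => (h p hp ((Nat.le_of_dvd (Nat.pos_of_ne_zero h0) hd).trans hn)).2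
        (h1 p hp hd)⟩
  by_cases hP : n ∈ Sm P
  · rw [kap_of_mem a hP, kap_of_mem a (this.1 hP)]
  · rw [kap_of_notMem a hP, kap_of_notMem a (fun h => hP (this.2 h))]

lemma NB.of_agree {f : ArithmeticFunction ℂ} {B : ℝ}
    (h : ∀ N : ℕ, ∃ f' : ArithmeticFunction ℂ, (∀ n ≤ N, f n = f' n) ∧ NB f' B) : NB f B := by
  refine ⟨(h 0).choose_spec.2.1, fun s => ?_⟩
  obtain ⟨f', h1, h2⟩ := h (s.sup id)
  have : ∑ n ∈ s, ‖f n‖ ^ 2 / (n : ℝ) = ∑ n ∈ s, ‖f' n‖ ^ 2 / (n : ℝ) :=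
    Finset.sum_congr rfl fun n hn => by rw [h1 n (Finset.le_sup (f := id) hn)]
  rw [this]
  exact h2.2 s

/-- value of `k_a * k_b` at the powers of a prime -/
lemma norm_kap_mul_le {a b : ℂ} (ha : 0 ≤ a.re) (hb : 0 ≤ b.re) (P : Set ℕ) {p : ℕ}
    (hp : p.Prime) (k : ℕ) : ‖(kap a P * kap b P) (p ^ k)‖ ≤ (k : ℝ) + 1 := by
  rw [mul_prime_pow hp]
  calc ‖∑ i ∈ range (k + 1), kap a P (p ^ i) * kap b P (p ^ (k - i))‖
      ≤ ∑ i ∈ range (k + 1), ‖kap a P (p ^ i) * kap b P (p ^ (k - i))‖ := norm_sum_le _ _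
    _ ≤ ∑ i ∈ range (k + 1), (1 : ℝ) := by
        refine Finset.sum_le_sum fun i _ => ?_
        rw [norm_mul]
        have h1 := norm_kap_le a ha P (p ^ i)
        have h2 := norm_kap_le b hb P (p ^ (k - i))
        have h3 := norm_nonneg (kap a P (p ^ i))
        have h4 := norm_nonneg (kap b P (p ^ (k - i)))
        nlinarith
    _ = (k : ℝ) + 1 := by rw [Finset.sum_const, Finset.card_range, nsmul_eq_mul]; push_cast; ring

lemma mul_apply_one (f g : ArithmeticFunction ℂ) : (f * g) 1 = f 1 * g 1 := by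
  rw [ArithmeticFunction.mul_apply, Nat.divisorsAntidiagonal_one, Finset.sum_singleton]

lemma mul_apply_prime {p : ℕ} (hp : p.Prime) (f g : ArithmeticFunction ℂ) :
    (f * g) p = f 1 * g p + f p * g 1 := by
  have := mul_prime_pow hp f g 1
  rw [pow_one] at this
  rw [this, Finset.sum_range_succ, Finset.sum_range_one]
  simp

end Pool.Agent.H20.RM
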