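import Mathlib

/-!
Elementary bound for Kloosterman sums to an arbitrary modulus:
`‖S(m,n;q)‖^4 * φ(q) ≤ 2 * gcd(m,n,q) * τ(q)^2 * q^4`.
-/

set_option autoImplicit false

open Finset

namespace Pool.Agent.H20.Kloo

section Count

variable {q : ℕ} [NeZero q]

/-- fibres of the reduction map -/
lemma card_fiber {d : ℕ} (h : d ∣ q) (r : ZMod d) :
    #{x : ZMod q | ZMod.castHom h (ZMod d) x = r} * d = q := by
  have hd : d ≠ 0 := fun h0 => NeZero.ne q (by rwa [h0, zero_dvd_iff] at h)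
  have : NeZero d := ⟨hd⟩
  have hs : Function.Surjective (ZMod.castHom h (ZMod d)) := ZMod.castHom_surjective h
  have h1 : ∀ r' : ZMod d, #{x : ZMod q | ZMod.castHom h (ZMod d) x = r'}
      = #{x : ZMod q | ZMod.castHom h (ZMod d) x = r} := by
    intro r'
    exact AddMonoidHom.card_fiber_eq_of_mem_range (ZMod.castHom h (ZMod d)).toAddMonoidHom
      (hs r') (hs r)
  have h2 : (Finset.univ : Finset (ZMod q)).card
      = ∑ r' : ZMod d, #{x : ZMod q | ZMod.castHom h (ZMod d) x = r'} :=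
    Finset.card_eq_sum_card_fiberwise (fun x _ => Finset.mem_univ _)
  rw [Finset.sum_congr rfl (fun r' _ => h1 r'), Finset.sum_const, Finset.card_univ,
    Finset.card_univ, ZMod.card, ZMod.card, smul_eq_mul] at h2
  rw [mul_comm]; exact h2.symm

lemma castHom_eq_zero_iff {d : ℕ} (h : d ∣ q) (x : ZMod q) :
    ZMod.castHom h (ZMod d) x = 0 ↔ d ∣ x.val := by
  have : ZMod.castHom h (ZMod d) x = ((x.val : ℕ) : ZMod d) := by
    conv_lhs => rw [← ZMod.natCast_zmod_val x]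
    rw [map_natCast]
  rw [this]
  exact ZMod.natCast_eq_zero_iff _ _

lemma castHom_zero_of_dvd {d e : ℕ} (h : d ∣ q) (he : e ∣ q) (hed : e ∣ d) (x : ZMod q)
    (hx : ZMod.castHom h (ZMod d) x = 0) : ZMod.castHom he (ZMod e) x = 0 := by
  rw [castHom_eq_zero_iff] at hx ⊢
  exact hed.trans hx

/-- two congruences -/
lemma card_two {m₁ m₂ : ℕ} (h₁ : m₁ ∣ q) (h₂ : m₂ ∣ q) (r₁ : ZMod m₁) (r₂ : ZMod m₂) :
    #{x : ZMod q | ZMod.castHom h₁ (ZMod m₁) x = r₁ ∧ ZMod.castHom h₂ (ZMod m₂) x = r₂}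
      * Nat.lcm m₁ m₂ ≤ q := by
  classical
  have hl : Nat.lcm m₁ m₂ ∣ q := Nat.lcm_dvd h₁ h₂
  by_cases hne : ∃ x₀ : ZMod q, ZMod.castHom h₁ (ZMod m₁) x₀ = r₁ ∧
      ZMod.castHom h₂ (ZMod m₂) x₀ = r₂
  · obtain ⟨x₀, hx₁, hx₂⟩ := hne
    have hsub : ({x : ZMod q | ZMod.castHom h₁ (ZMod m₁) x = r₁ ∧
        ZMod.castHom h₂ (ZMod m₂) x = r₂} : Finset (ZMod q)) ⊆
        ({x : ZMod q | ZMod.castHom hl (ZMod (Nat.lcm m₁ m₂)) x =
          ZMod.castHom hl (ZMod (Nat.lcm m₁ m₂)) x₀} : Finset (ZMod q)) := by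
      intro x hx
      simp only [Finset.mem_filter, Finset.mem_univ, true_and] at hx ⊢
      have e1 : ZMod.castHom h₁ (ZMod m₁) (x - x₀) = 0 := by rw [map_sub, hx.1, hx₁, sub_self]
      have e2 : ZMod.castHom h₂ (ZMod m₂) (x - x₀) = 0 := by rw [map_sub, hx.2, hx₂, sub_self]
      rw [castHom_eq_zero_iff] at e1 e2
      have e3 : ZMod.castHom hl (ZMod (Nat.lcm m₁ m₂)) (x - x₀) = 0 := by
        rw [castHom_eq_zero_iff]
        exact Nat.lcm_dvd e1 e2
      rw [map_sub, sub_eq_zero] at e3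
      exact e3
    calc _ ≤ #{x : ZMod q | ZMod.castHom hl (ZMod (Nat.lcm m₁ m₂)) x =
          ZMod.castHom hl (ZMod (Nat.lcm m₁ m₂)) x₀} * Nat.lcm m₁ m₂ :=
        Nat.mul_le_mul_right _ (Finset.card_le_card hsub)
      _ = q := card_fiber hl _
  · push Not at hne
    have : ({x : ZMod q | ZMod.castHom h₁ (ZMod m₁) x = r₁ ∧
        ZMod.castHom h₂ (ZMod m₂) x = r₂} : Finset (ZMod q)) = ∅ := by
      ext x
      simp only [Finset.mem_filter, Finset.mem_univ, true_and, Finset.notMem_empty, iff_false,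
        not_and]
      exact hne x
    rw [this]; simp

/-- the three congruences -/
lemma card_three {d₁ d₂ d₃ : ℕ} (h₁ : d₁ ∣ q) (h₂ : d₂ ∣ q) (h₃ : d₃ ∣ q) (c : ZMod q)
    (hc : ∀ g : ℕ, ∀ hg : g ∣ q, ZMod.castHom hg (ZMod g) c = 0 → g ≤ 2) :
    #{p : ZMod q × ZMod q | ZMod.castHom h₁ (ZMod d₁) p.1 = 0 ∧
      ZMod.castHom h₂ (ZMod d₂) p.2 = 0 ∧ ZMod.castHom h₃ (ZMod d₃) (p.2 - p.1 + c) = 0}
      * (d₁ * d₂ * d₃) ≤ 2 * q ^ 2 := by
  classical
  set S : Finset (ZMod q × ZMod q) := {p : ZMod q × ZMod q | ZMod.castHom h₁ (ZMod d₁) p.1 = 0 ∧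
      ZMod.castHom h₂ (ZMod d₂) p.2 = 0 ∧ ZMod.castHom h₃ (ZMod d₃) (p.2 - p.1 + c) = 0} with hS
  have hh₂ : Nat.gcd d₂ d₃ ∣ q := (Nat.gcd_dvd_left _ _).trans h₂
  have hg : Nat.gcd d₁ (Nat.gcd d₂ d₃) ∣ q := (Nat.gcd_dvd_left _ _).trans h₁
  -- the set of possible first coordinates
  set A : Finset (ZMod q) := {u : ZMod q | ZMod.castHom h₁ (ZMod d₁) u = 0 ∧
    ZMod.castHom hh₂ (ZMod (Nat.gcd d₂ d₃)) u = ZMod.castHom hh₂ (ZMod (Nat.gcd d₂ d₃)) c} with hA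
  have hmem : ∀ p ∈ S, p.1 ∈ A := by
    intro p hp
    simp only [hS, hA, Finset.mem_filter, Finset.mem_univ, true_and] at hp ⊢
    refine ⟨hp.1, ?_⟩
    have e2 := castHom_zero_of_dvd h₂ hh₂ (Nat.gcd_dvd_left _ _) p.2 hp.2.1
    have e3 := castHom_zero_of_dvd h₃ hh₂ (Nat.gcd_dvd_right _ _) _ hp.2.2
    rw [map_add, map_sub, e2, zero_sub, neg_add_eq_zero] at e3
    exact e3
  rcases S.eq_empty_or_nonempty with h0 | ⟨p₀, hp₀⟩
  · rw [h0]; simp
  -- the gcd is at most two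
  have hg2 : Nat.gcd d₁ (Nat.gcd d₂ d₃) ≤ 2 := by
    apply hc _ hg
    have hp1 := hmem p₀ hp₀
    simp only [hA, Finset.mem_filter, Finset.mem_univ, true_and] at hp1
    have e1 := castHom_zero_of_dvd h₁ hg (Nat.gcd_dvd_left _ _) p₀.1 hp1.1
    have e2 : ZMod.castHom hh₂ (ZMod (Nat.gcd d₂ d₃)) (p₀.1 - c) = 0 := by
      rw [map_sub, hp1.2, sub_self]
    have e3 := castHom_zero_of_dvd hh₂ hg (Nat.gcd_dvd_right _ _) _ e2
    rw [map_sub, e1, zero_sub, neg_eq_zero] at e3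
    exact e3
  have hfib : ∀ u ∈ A, #{p ∈ S | p.1 = u} * Nat.lcm d₂ d₃ ≤ q := by
    intro u _
    refine le_trans (Nat.mul_le_mul_right _ ?_) (card_two h₂ h₃ 0
      (ZMod.castHom h₃ (ZMod d₃) (u - c)))
    apply Finset.card_le_card_of_injOn (fun p => p.2)
    · intro p hp
      simp only [hS, Finset.coe_filter, Finset.mem_filter, Finset.mem_univ, true_and,
        Set.mem_ofPred_eq] at hp ⊢
      refine ⟨hp.1.2.1, ?_⟩
      have := hp.1.2.2
      rw [hp.2] at this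
      have e : p.2 = (p.2 - u + c) + (u - c) := by ring
      rw [e, map_add, this, zero_add]
    · intro p hp p' hp' hpp
      simp only [Finset.coe_filter, Set.mem_ofPred_eq] at hp hp'
      exact Prod.ext (hp.2.trans hp'.2.symm) hpp
  have hcard : S.card = ∑ u ∈ A, #{p ∈ S | p.1 = u} :=
    Finset.card_eq_sum_card_fiberwise hmem
  have hAc : A.card * Nat.lcm d₁ (Nat.gcd d₂ d₃) ≤ q := card_two h₁ hh₂ 0 _
  have hb : S.card * Nat.lcm d₂ d₃ ≤ A.card * q := by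
    rw [hcard, Finset.sum_mul]
    calc _ ≤ ∑ u ∈ A, q := Finset.sum_le_sum hfib
      _ = A.card * q := by rw [Finset.sum_const, smul_eq_mul]
  have hq : 0 < q := Nat.pos_of_ne_zero (NeZero.ne q)
  have hd2 : 0 < d₂ := Nat.pos_of_dvd_of_pos h₂ hq
  have hgpos : 0 < Nat.gcd d₂ d₃ := Nat.gcd_pos_of_pos_left _ hd2
  have hl2 : Nat.gcd d₂ d₃ * Nat.lcm d₂ d₃ = d₂ * d₃ := Nat.gcd_mul_lcm _ _
  have hl1 : Nat.gcd d₁ (Nat.gcd d₂ d₃) * Nat.lcm d₁ (Nat.gcd d₂ d₃) = d₁ * Nat.gcd d₂ d₃ :=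
    Nat.gcd_mul_lcm _ _
  set h := Nat.gcd d₂ d₃
  set g := Nat.gcd d₁ h
  set l₁ := Nat.lcm d₁ h
  set l₂ := Nat.lcm d₂ d₃
  have hprod : d₁ * d₂ * d₃ = g * l₁ * l₂ := by
    have : h * (d₁ * d₂ * d₃) = h * (g * l₁ * l₂) := by
      calc h * (d₁ * d₂ * d₃) = (d₁ * h) * (d₂ * d₃) := by ring
        _ = (g * l₁) * (h * l₂) := by rw [hl1, hl2]
        _ = _ := by ring
    exact Nat.eq_of_mul_eq_mul_left hgpos this
  calc S.card * (d₁ * d₂ * d₃) = g * (l₁ * (S.card * l₂)) := by rw [hprod]; ring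
    _ ≤ g * (l₁ * (A.card * q)) := by gcongr
    _ = g * ((A.card * l₁) * q) := by ring
    _ ≤ 2 * (q * q) := by gcongr
    _ = 2 * q ^ 2 := by ring

/-- solutions of a product of three linear forms with small common divisors -/
lemma card_prod (c : ZMod q)
    (hc : ∀ g : ℕ, ∀ hg : g ∣ q, ZMod.castHom hg (ZMod g) c = 0 → g ≤ 2) :
    #{p : ZMod q × ZMod q | p.1 * p.2 * (p.2 - p.1 + c) = 0} ≤ 2 * q * (q.divisors.card) ^ 2 := by
  classical
  have hq : 0 < q := Nat.pos_of_ne_zero (NeZero.ne q)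
  set S : Finset (ZMod q × ZMod q) := {p : ZMod q × ZMod q | p.1 * p.2 * (p.2 - p.1 + c) = 0}
    with hS
  -- the map to pairs of divisors
  let f : ZMod q × ZMod q → ℕ × ℕ := fun p => (Nat.gcd p.1.val q, Nat.gcd p.2.val q)
  have hf : ∀ p ∈ S, f p ∈ q.divisors ×ˢ q.divisors := by
    intro p _
    simp only [f, Finset.mem_product, Nat.mem_divisors]
    exact ⟨⟨Nat.gcd_dvd_right _ _, hq.ne'⟩, ⟨Nat.gcd_dvd_right _ _, hq.ne'⟩⟩
  rw [Finset.card_eq_sum_card_fiberwise hf]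
  have hfib : ∀ b ∈ q.divisors ×ˢ q.divisors, #{p ∈ S | f p = b} ≤ 2 * q := by
    rintro ⟨d₁, d₂⟩ hb
    simp only [Finset.mem_product, Nat.mem_divisors] at hb
    obtain ⟨⟨h₁, -⟩, ⟨h₂, -⟩⟩ := hb
    set D := Nat.gcd q (d₁ * d₂) with hD
    have hDq : D ∣ q := Nat.gcd_dvd_left _ _
    have h₃ : q / D ∣ q := Nat.div_dvd_of_dvd hDq
    have hsub : ({p ∈ S | f p = (d₁, d₂)} : Finset (ZMod q × ZMod q)) ⊆
        ({p : ZMod q × ZMod q | ZMod.castHom h₁ (ZMod d₁) p.1 = 0 ∧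
      ZMod.castHom h₂ (ZMod d₂) p.2 = 0 ∧
      ZMod.castHom h₃ (ZMod (q / D)) (p.2 - p.1 + c) = 0} : Finset (ZMod q × ZMod q)) := by
      intro p hp
      simp only [hS, f, Finset.mem_filter, Finset.mem_univ, true_and, Prod.mk.injEq] at hp ⊢
      obtain ⟨hp0, hp1, hp2⟩ := hp
      rw [castHom_eq_zero_iff, castHom_eq_zero_iff, castHom_eq_zero_iff]
      refine ⟨hp1 ▸ Nat.gcd_dvd_left _ _, hp2 ▸ Nat.gcd_dvd_left _ _, ?_⟩
      have hz : q ∣ p.1.val * (p.2.val * (p.2 - p.1 + c).val) := by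
        rw [← ZMod.natCast_eq_zero_iff]
        push_cast
        rw [ZMod.natCast_zmod_val, ZMod.natCast_zmod_val, ZMod.natCast_zmod_val, ← mul_assoc]
        exact hp0
      have hz1 : q ∣ d₁ * (p.2.val * (p.2 - p.1 + c).val) := by
        have := Nat.dvd_gcd hz (Dvd.intro_left _ rfl :
          q ∣ (p.2.val * (p.2 - p.1 + c).val) * q)
        rw [mul_comm _ q, Nat.gcd_mul_right, hp1] at this
        exact this
      have hz2 : q ∣ d₂ * (d₁ * (p.2 - p.1 + c).val) := by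
        have e : d₁ * (p.2.val * (p.2 - p.1 + c).val) = p.2.val * (d₁ * (p.2 - p.1 + c).val) := by
          ring
        rw [e] at hz1
        have := Nat.dvd_gcd hz1 (Dvd.intro_left _ rfl :
          q ∣ (d₁ * (p.2 - p.1 + c).val) * q)
        rw [mul_comm _ q, Nat.gcd_mul_right, hp2] at this
        exact this
      have hz3 : q ∣ D * (p.2 - p.1 + c).val := by
        have e : d₂ * (d₁ * (p.2 - p.1 + c).val) = (d₁ * d₂) * (p.2 - p.1 + c).val := by ring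
        rw [e] at hz2
        have := Nat.dvd_gcd (Dvd.intro _ rfl :
          q ∣ q * (p.2 - p.1 + c).val) hz2
        rw [Nat.gcd_mul_right] at this
        exact this
      exact (Nat.div_dvd_iff_dvd_mul hDq (Nat.pos_of_dvd_of_pos hDq hq)).mpr hz3
    have h3 := card_three h₁ h₂ h₃ c hc
    have h4 := Finset.card_le_card hsub
    have hprod : q ≤ d₁ * d₂ * (q / D) := by
      have hD1 : D ≤ d₁ * d₂ := Nat.le_of_dvd (Nat.mul_pos (Nat.pos_of_dvd_of_pos h₁ hq)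
        (Nat.pos_of_dvd_of_pos h₂ hq)) (Nat.gcd_dvd_right _ _)
      calc q = D * (q / D) := (Nat.mul_div_cancel' hDq).symm
        _ ≤ d₁ * d₂ * (q / D) := Nat.mul_le_mul_right _ hD1
    have h5 : #{p ∈ S | f p = (d₁, d₂)} * q ≤ (2 * q) * q := by
      calc _ ≤ _ := Nat.mul_le_mul h4 hprod
        _ ≤ 2 * q ^ 2 := h3
        _ = (2 * q) * q := by ring
    exact Nat.le_of_mul_le_mul_right h5 hq
  calc ∑ b ∈ q.divisors ×ˢ q.divisors, #{p ∈ S | f p = b}
      ≤ ∑ _b ∈ q.divisors ×ˢ q.divisors, 2 * q := Finset.sum_le_sum hfib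
    _ = 2 * q * (q.divisors.card) ^ 2 := by
      rw [Finset.sum_const, Finset.card_product, smul_eq_mul]; ring

omit [NeZero q] in
/-- twice a unit has only the divisors 1, 2 in common with the modulus -/
lemma two_unit (x : (ZMod q)ˣ) (g : ℕ) (hg : g ∣ q)
    (h : ZMod.castHom hg (ZMod g) (2 * (x : ZMod q)) = 0) : g ≤ 2 := by
  rw [map_mul] at h
  have hu : IsUnit (ZMod.castHom hg (ZMod g) (x : ZMod q)) := x.isUnit.map _
  have h2 : ZMod.castHom hg (ZMod g) (2 : ZMod q) = 0 := by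
    have := hu.mul_left_eq_zero.mp h
    exact this
  have h3 : ((2 : ℕ) : ZMod g) = 0 := by
    rw [map_ofNat] at h2
    exact_mod_cast h2
  rw [ZMod.natCast_eq_zero_iff] at h3
  exact Nat.le_of_dvd (by norm_num) h3

/-- difference of two units -/
def al (p : (ZMod q)ˣ × (ZMod q)ˣ) : ZMod q := (p.1 : ZMod q) - (p.2 : ZMod q)

/-- difference of the inverses -/
def be (p : (ZMod q)ˣ × (ZMod q)ˣ) : ZMod q :=
  ((p.1⁻¹ : (ZMod q)ˣ) : ZMod q) - ((p.2⁻¹ : (ZMod q)ˣ) : ZMod q)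

/-- the quadruples in the fourth moment -/
def quad (q : ℕ) [NeZero q] : Finset (((ZMod q)ˣ × (ZMod q)ˣ) × ((ZMod q)ˣ × (ZMod q)ˣ)) :=
  {p | al p.1 + al p.2 = 0 ∧ be p.1 + be p.2 = 0}

lemma mem_quad (p : ((ZMod q)ˣ × (ZMod q)ˣ) × ((ZMod q)ˣ × (ZMod q)ˣ)) :
    p ∈ quad q ↔ (((p.1.1 : ZMod q) - (p.1.2 : ZMod q)) + ((p.2.1 : ZMod q) - (p.2.2 : ZMod q)) = 0 ∧
      (((p.1.1⁻¹ : (ZMod q)ˣ) : ZMod q) - ((p.1.2⁻¹ : (ZMod q)ˣ) : ZMod q)) +
      (((p.2.1⁻¹ : (ZMod q)ˣ) : ZMod q) - ((p.2.2⁻¹ : (ZMod q)ˣ) : ZMod q)) = 0) := by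
  rw [quad, Finset.mem_filter]
  simp only [al, be, Finset.mem_univ, true_and]

lemma card_quad : (quad q).card ≤ 2 * q ^ 2 * (q.divisors.card) ^ 2 := by
  classical
  have hmap : ∀ p ∈ quad q, (p.1.1 : (ZMod q)ˣ) ∈ (Finset.univ : Finset (ZMod q)ˣ) :=
    fun p _ => Finset.mem_univ _
  rw [Finset.card_eq_sum_card_fiberwise hmap]
  have hfib : ∀ x ∈ (Finset.univ : Finset (ZMod q)ˣ),
      #{p ∈ quad q | p.1.1 = x} ≤ 2 * q * (q.divisors.card) ^ 2 := by
    intro x _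
    refine le_trans ?_ (card_prod (2 * (x : ZMod q)) (two_unit x))
    -- u = x1 + x2, w = y - x1
    apply Finset.card_le_card_of_injOn
      (fun p => ((p.1.1 : ZMod q) + (p.2.1 : ZMod q), (p.1.2 : ZMod q) - (p.1.1 : ZMod q)))
    · intro p hp
      simp only [mem_quad, Finset.coe_filter, Finset.mem_univ, true_and,
        Set.mem_ofPred_eq] at hp ⊢
      obtain ⟨⟨ha, hb⟩, hx⟩ := hp
      subst hx
      obtain ⟨⟨a, b⟩, ⟨c, d⟩⟩ := p
      simp only at ha hb ⊢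
      have hd : (d : ZMod q) = a - b + c := by linear_combination -ha
      have hd1 : (d : ZMod q) * ((d⁻¹ : (ZMod q)ˣ) : ZMod q) = 1 := by
        rw [← Units.val_mul, mul_inv_cancel, Units.val_one]
      have ha1 : (a : ZMod q) * ((a⁻¹ : (ZMod q)ˣ) : ZMod q) = 1 := by
        rw [← Units.val_mul, mul_inv_cancel, Units.val_one]
      have hb1 : (b : ZMod q) * ((b⁻¹ : (ZMod q)ˣ) : ZMod q) = 1 := by
        rw [← Units.val_mul, mul_inv_cancel, Units.val_one]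
      have hc1 : (c : ZMod q) * ((c⁻¹ : (ZMod q)ˣ) : ZMod q) = 1 := by
        rw [← Units.val_mul, mul_inv_cancel, Units.val_one]
      generalize ((d⁻¹ : (ZMod q)ˣ) : ZMod q) = d' at *
      generalize ((a⁻¹ : (ZMod q)ˣ) : ZMod q) = a' at *
      generalize ((b⁻¹ : (ZMod q)ˣ) : ZMod q) = b' at *
      generalize ((c⁻¹ : (ZMod q)ˣ) : ZMod q) = c' at *
      generalize (d : ZMod q) = D at *
      generalize (a : ZMod q) = A at *
      generalize (b : ZMod q) = B at *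
      generalize (c : ZMod q) = C at *
      subst hd
      -- (A - B + C) (a' - b' + c') = 1
      have key : (A - B + C) * (a' - b' + c') = 1 := by
        rw [← hd1]
        have : d' = a' - b' + c' := by linear_combination -hb
        rw [this]
      -- multiply by A B C
      have k2 : (A - B + C) * (B * C - A * C + A * B) = A * B * C := by
        have e : (A - B + C) * (B * C - A * C + A * B)
            = A * B * C * ((A - B + C) * (a' - b' + c'))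
              + (A - B + C) * (B * C * (1 - A * a') - A * C * (1 - B * b')
                + A * B * (1 - C * c')) := by ring
        rw [e, key, ha1, hb1, hc1]; ring
      linear_combination -k2
    · intro p hp p' hp' hpp
      simp only [mem_quad, Finset.coe_filter, Set.mem_ofPred_eq] at hp hp'
      simp only [Prod.mk.injEq] at hpp
      obtain ⟨⟨a, b⟩, ⟨c, d⟩⟩ := p
      obtain ⟨⟨a1, b1⟩, ⟨c1, d1⟩⟩ := p'
      simp only at hp hp' hpp
      obtain ⟨⟨ha, -⟩, hx⟩ := hp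
      obtain ⟨⟨ha', -⟩, hx'⟩ := hp'
      subst hx
      subst hx'
      have hc : (c : ZMod q) = c1 := by linear_combination hpp.1
      have hb : (b : ZMod q) = b1 := by linear_combination hpp.2
      have hd : (d : ZMod q) = d1 := by linear_combination ha' - ha + hc - hb
      rw [Units.ext hc, Units.ext hb, Units.ext hd]
  calc ∑ x : (ZMod q)ˣ, #{p ∈ quad q | p.1.1 = x}
      ≤ ∑ _x : (ZMod q)ˣ, 2 * q * (q.divisors.card) ^ 2 := Finset.sum_le_sum hfib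
    _ = Fintype.card (ZMod q)ˣ * (2 * q * (q.divisors.card) ^ 2) := by
      rw [Finset.sum_const, Finset.card_univ, smul_eq_mul]
    _ ≤ q * (2 * q * (q.divisors.card) ^ 2) := by
      gcongr
      rw [ZMod.card_units_eq_totient]
      exact Nat.totient_le q
    _ = 2 * q ^ 2 * (q.divisors.card) ^ 2 := by ring

end Count

section Sum

variable {q : ℕ} [NeZero q]

/-- Kloosterman sum -/
noncomputable def kl (q : ℕ) [NeZero q] (m n : ZMod q) : ℂ :=
  ∑ x : (ZMod q)ˣ, ZMod.stdAddChar (m * (x : ZMod q) + n * ((x⁻¹ : (ZMod q)ˣ) : ZMod q))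

lemma kl_mul_conj (m n : ZMod q) :
    kl q m n * (starRingEnd ℂ) (kl q m n) = ∑ p : (ZMod q)ˣ × (ZMod q)ˣ,
      ZMod.stdAddChar (m * al p + n * be p) := by
  unfold kl
  rw [map_sum, Finset.sum_mul_sum, Fintype.sum_prod_type]
  refine Finset.sum_congr rfl (fun x _ => Finset.sum_congr rfl (fun y _ => ?_))
  rw [← AddChar.map_neg_eq_conj, ← AddChar.map_add_eq_mul]
  congr 1
  unfold al be
  ring

lemma kl_four (m n : ZMod q) :
    ((‖kl q m n‖ ^ 4 : ℝ) : ℂ) = ∑ p : ((ZMod q)ˣ × (ZMod q)ˣ) × ((ZMod q)ˣ × (ZMod q)ˣ),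
      ZMod.stdAddChar (m * (al p.1 + al p.2)) * ZMod.stdAddChar (n * (be p.1 + be p.2)) := by
  have h1 : ((‖kl q m n‖ ^ 4 : ℝ) : ℂ)
      = (kl q m n * (starRingEnd ℂ) (kl q m n)) * (kl q m n * (starRingEnd ℂ) (kl q m n)) := by
    rw [Complex.mul_conj, Complex.normSq_eq_norm_sq]
    push_cast
    ring
  rw [h1, kl_mul_conj, Finset.sum_mul_sum]
  conv_rhs => rw [Fintype.sum_prod_type]
  refine Finset.sum_congr rfl (fun x _ => Finset.sum_congr rfl (fun y _ => ?_))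
  rw [← AddChar.map_add_eq_mul, ← AddChar.map_add_eq_mul]
  congr 1
  ring

lemma fourth_moment :
    ∑ m : ZMod q, ∑ n : ZMod q, ‖kl q m n‖ ^ 4 = (q : ℝ) ^ 2 * (quad q).card := by
  classical
  have h : ((∑ m : ZMod q, ∑ n : ZMod q, ‖kl q m n‖ ^ 4 : ℝ) : ℂ)
      = (((q : ℝ) ^ 2 * (quad q).card : ℝ) : ℂ) := by
    have e1 : ((∑ m : ZMod q, ∑ n : ZMod q, ‖kl q m n‖ ^ 4 : ℝ) : ℂ)
        = ∑ m : ZMod q, ∑ n : ZMod q,
          ∑ p : ((ZMod q)ˣ × (ZMod q)ˣ) × ((ZMod q)ˣ × (ZMod q)ˣ),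
      ZMod.stdAddChar (m * (al p.1 + al p.2)) * ZMod.stdAddChar (n * (be p.1 + be p.2)) := by
      rw [Complex.ofReal_sum]
      refine Finset.sum_congr rfl (fun m _ => ?_)
      rw [Complex.ofReal_sum]
      exact Finset.sum_congr rfl (fun n _ => kl_four m n)
    rw [e1]
    have e2 : ∀ m : ZMod q, ∑ n : ZMod q,
        ∑ p : ((ZMod q)ˣ × (ZMod q)ˣ) × ((ZMod q)ˣ × (ZMod q)ˣ),
        (ZMod.stdAddChar (m * (al p.1 + al p.2)) : ℂ) * ZMod.stdAddChar (n * (be p.1 + be p.2))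
        = ∑ p : ((ZMod q)ˣ × (ZMod q)ˣ) × ((ZMod q)ˣ × (ZMod q)ˣ), ∑ n : ZMod q,
        (ZMod.stdAddChar (m * (al p.1 + al p.2)) : ℂ) * ZMod.stdAddChar (n * (be p.1 + be p.2)) :=
      fun m => Finset.sum_comm
    rw [Finset.sum_congr rfl (fun m _ => e2 m), Finset.sum_comm]
    have e3 : ∀ p : ((ZMod q)ˣ × (ZMod q)ˣ) × ((ZMod q)ˣ × (ZMod q)ˣ),
        ∑ m : ZMod q, ∑ n : ZMod q,
        (ZMod.stdAddChar (m * (al p.1 + al p.2)) : ℂ) * ZMod.stdAddChar (n * (be p.1 + be p.2))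
        = if p ∈ quad q then ((q : ℂ) ^ 2) else 0 := by
      intro p
      rw [← Finset.sum_mul_sum, AddChar.sum_mulShift _ (ZMod.isPrimitive_stdAddChar q),
        AddChar.sum_mulShift _ (ZMod.isPrimitive_stdAddChar q), ZMod.card]
      simp only [quad, Finset.mem_filter, Finset.mem_univ, true_and]
      by_cases ha : al p.1 + al p.2 = 0
      · by_cases hb : be p.1 + be p.2 = 0
        · rw [if_pos ha, if_pos hb, if_pos ⟨ha, hb⟩]; ring
        · rw [if_pos ha, if_neg hb, if_neg (fun h => hb h.2), Nat.cast_zero, mul_zero]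
      · rw [if_neg ha, if_neg (show ¬ (al p.1 + al p.2 = 0 ∧ be p.1 + be p.2 = 0) from
          fun h => ha h.1), Nat.cast_zero, zero_mul]
    rw [Finset.sum_congr rfl (fun p _ => e3 p), Finset.sum_ite_mem, Finset.univ_inter,
      Finset.sum_const, nsmul_eq_mul]
    push_cast
    ring
  exact_mod_cast h

lemma fourth_moment_le :
    ∑ p : ZMod q × ZMod q, ‖kl q p.1 p.2‖ ^ 4 ≤ 2 * (q.divisors.card : ℝ) ^ 2 * (q : ℝ) ^ 4 := by
  rw [Fintype.sum_prod_type, fourth_moment]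
  have h : ((quad q).card : ℝ) ≤ 2 * (q : ℝ) ^ 2 * (q.divisors.card : ℝ) ^ 2 := by
    exact_mod_cast (card_quad (q := q))
  calc (q : ℝ) ^ 2 * (quad q).card ≤ (q : ℝ) ^ 2 * (2 * (q : ℝ) ^ 2 * (q.divisors.card : ℝ) ^ 2) := by
        gcongr
    _ = _ := by ring

lemma kl_twist (u : (ZMod q)ˣ) (m n : ZMod q) :
    kl q ((u : ZMod q) * m) (((u⁻¹ : (ZMod q)ˣ) : ZMod q) * n) = kl q m n := by
  unfold kl
  refine Fintype.sum_equiv (Equiv.mulLeft u) _ _ (fun x => ?_)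
  simp only [Equiv.coe_mulLeft, mul_inv_rev, Units.val_mul]
  congr 1
  ring

/-- the common annihilator -/
lemma card_ann (m n : ZMod q) :
    #{v : ZMod q | v * m = 0 ∧ v * n = 0} ≤ Nat.gcd (Nat.gcd m.val n.val) q := by
  classical
  have hq : 0 < q := Nat.pos_of_ne_zero (NeZero.ne q)
  have hiff : ∀ m v : ZMod q, ∀ h : q / Nat.gcd m.val q ∣ q,
      v * m = 0 → ZMod.castHom h (ZMod (q / Nat.gcd m.val q)) v = 0 := by
    intro m v h hv
    rw [castHom_eq_zero_iff]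
    have hgd : Nat.gcd m.val q ∣ q := Nat.gcd_dvd_right _ _
    rw [Nat.div_dvd_iff_dvd_mul hgd (Nat.pos_of_dvd_of_pos hgd hq)]
    have h1 : q ∣ m.val * v.val := by
      rw [← ZMod.natCast_eq_zero_iff]
      push_cast
      rw [ZMod.natCast_zmod_val, ZMod.natCast_zmod_val, mul_comm]
      exact hv
    have := Nat.dvd_gcd h1 (Dvd.intro _ rfl : q ∣ q * v.val)
    rwa [Nat.gcd_mul_right] at this
  have h₁ : q / Nat.gcd m.val q ∣ q := Nat.div_dvd_of_dvd (Nat.gcd_dvd_right _ _)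
  have h₂ : q / Nat.gcd n.val q ∣ q := Nat.div_dvd_of_dvd (Nat.gcd_dvd_right _ _)
  have hc := card_two h₁ h₂ 0 0
  have hsub : ({v : ZMod q | v * m = 0 ∧ v * n = 0} : Finset (ZMod q)) ⊆
      ({x : ZMod q | ZMod.castHom h₁ (ZMod (q / Nat.gcd m.val q)) x = 0 ∧
        ZMod.castHom h₂ (ZMod (q / Nat.gcd n.val q)) x = 0} : Finset (ZMod q)) := by
    intro v hv
    simp only [Finset.mem_filter, Finset.mem_univ, true_and] at hv ⊢
    exact ⟨hiff m v h₁ hv.1, hiff n v h₂ hv.2⟩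
  have hN := Finset.card_le_card hsub
  set L := Nat.lcm (q / Nat.gcd m.val q) (q / Nat.gcd n.val q) with hL
  have hLq : L ∣ q := Nat.lcm_dvd h₁ h₂
  have hLpos : 0 < L := Nat.pos_of_dvd_of_pos hLq hq
  have h3 : #{v : ZMod q | v * m = 0 ∧ v * n = 0} ≤ q / L := by
    rw [Nat.le_div_iff_mul_le hLpos]
    exact (Nat.mul_le_mul_right _ hN).trans hc
  refine h3.trans ?_
  have hdm : q / L ∣ Nat.gcd m.val q := by
    obtain ⟨k, hk⟩ := Nat.dvd_lcm_left (q / Nat.gcd m.val q) (q / Nat.gcd n.val q)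
    rw [← hL] at hk
    have hgd : Nat.gcd m.val q ∣ q := Nat.gcd_dvd_right _ _
    refine ⟨k, ?_⟩
    have h4 : q / Nat.gcd m.val q * Nat.gcd m.val q = q := Nat.div_mul_cancel hgd
    have h5 : q / L * L = q := Nat.div_mul_cancel hLq
    have hp : 0 < q / Nat.gcd m.val q := Nat.pos_of_dvd_of_pos h₁ hq
    apply Nat.eq_of_mul_eq_mul_left hp
    calc q / Nat.gcd m.val q * Nat.gcd m.val q = q / L * L := by rw [h4, h5]
      _ = q / L * (q / Nat.gcd m.val q * k) := by rw [← hk]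
      _ = q / Nat.gcd m.val q * (q / L * k) := by ring
  have hdn : q / L ∣ Nat.gcd n.val q := by
    obtain ⟨k, hk⟩ := Nat.dvd_lcm_right (q / Nat.gcd m.val q) (q / Nat.gcd n.val q)
    rw [← hL] at hk
    have hgd : Nat.gcd n.val q ∣ q := Nat.gcd_dvd_right _ _
    refine ⟨k, ?_⟩
    have h4 : q / Nat.gcd n.val q * Nat.gcd n.val q = q := Nat.div_mul_cancel hgd
    have h5 : q / L * L = q := Nat.div_mul_cancel hLq
    have hp : 0 < q / Nat.gcd n.val q := Nat.pos_of_dvd_of_pos h₂ hq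
    apply Nat.eq_of_mul_eq_mul_left hp
    calc q / Nat.gcd n.val q * Nat.gcd n.val q = q / L * L := by rw [h4, h5]
      _ = q / L * (q / Nat.gcd n.val q * k) := by rw [← hk]
      _ = q / Nat.gcd n.val q * (q / L * k) := by ring
  apply Nat.le_of_dvd (Nat.gcd_pos_of_pos_right _ hq)
  exact Nat.dvd_gcd (Nat.dvd_gcd (hdm.trans (Nat.gcd_dvd_left _ _))
    (hdn.trans (Nat.gcd_dvd_left _ _))) (hdm.trans (Nat.gcd_dvd_right _ _))

/-- **Kloosterman sums to an arbitrary modulus.** -/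
theorem kl_bound (m n : ZMod q) :
    ‖kl q m n‖ ^ 4 * (q.totient : ℝ)
      ≤ 2 * (Nat.gcd (Nat.gcd m.val n.val) q : ℝ) * (q.divisors.card : ℝ) ^ 2 * (q : ℝ) ^ 4 := by
  classical
  let f : (ZMod q)ˣ → ZMod q × ZMod q := fun u =>
    ((u : ZMod q) * m, ((u⁻¹ : (ZMod q)ˣ) : ZMod q) * n)
  have h1 : ‖kl q m n‖ ^ 4 * (q.totient : ℝ) = ∑ u : (ZMod q)ˣ, ‖kl q (f u).1 (f u).2‖ ^ 4 := by
    have : ∀ u : (ZMod q)ˣ, ‖kl q (f u).1 (f u).2‖ ^ 4 = ‖kl q m n‖ ^ 4 := by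
      intro u
      simp only [f]
      rw [kl_twist]
    rw [Finset.sum_congr rfl (fun u _ => this u), Finset.sum_const, Finset.card_univ,
      ZMod.card_units_eq_totient, nsmul_eq_mul, mul_comm]
  have h2 : ∑ u : (ZMod q)ˣ, ‖kl q (f u).1 (f u).2‖ ^ 4
      = ∑ p : ZMod q × ZMod q, ∑ u : (ZMod q)ˣ with f u = p, ‖kl q (f u).1 (f u).2‖ ^ 4 :=
    (Finset.sum_fiberwise_of_maps_to (fun u _ => Finset.mem_univ (f u)) _).symm
  have hfib : ∀ p : ZMod q × ZMod q, #{u : (ZMod q)ˣ | f u = p}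
      ≤ Nat.gcd (Nat.gcd m.val n.val) q := by
    intro p
    by_cases hne : ∃ u₀ : (ZMod q)ˣ, f u₀ = p
    · obtain ⟨u₀, hu₀⟩ := hne
      refine le_trans ?_ (card_ann m n)
      apply Finset.card_le_card_of_injOn (fun u : (ZMod q)ˣ => (u : ZMod q) - (u₀ : ZMod q))
      · intro u hu
        simp only [Finset.coe_filter, Finset.mem_univ, true_and, Set.mem_ofPred_eq] at hu ⊢
        rw [← hu₀] at hu
        simp only [f, Prod.mk.injEq] at hu
        obtain ⟨hu1, hu2⟩ := hu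
        refine ⟨by rw [sub_mul, hu1, sub_self], ?_⟩
        have e1 : (u : ZMod q) * ((u⁻¹ : (ZMod q)ˣ) : ZMod q) = 1 := by
          rw [← Units.val_mul, mul_inv_cancel, Units.val_one]
        have e2 : (u₀ : ZMod q) * ((u₀⁻¹ : (ZMod q)ˣ) : ZMod q) = 1 := by
          rw [← Units.val_mul, mul_inv_cancel, Units.val_one]
        have e3 : ((u : ZMod q) - u₀) * n
            = (u : ZMod q) * (u₀ : ZMod q) * ((((u₀⁻¹ : (ZMod q)ˣ) : ZMod q) * n)
              - (((u⁻¹ : (ZMod q)ˣ) : ZMod q) * n)) := by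
          linear_combination (-(u : ZMod q) * n) * e2 + ((u₀ : ZMod q) * n) * e1
        rw [e3, hu2, sub_self, mul_zero]
      · intro u _ u' _ h
        have h' : (u : ZMod q) - (u₀ : ZMod q) = (u' : ZMod q) - (u₀ : ZMod q) := h
        exact Units.ext (sub_left_injective h')
    · push Not at hne
      rw [Finset.filter_false_of_mem (fun u _ => hne u)]
      simp
  rw [h1, h2]
  calc ∑ p : ZMod q × ZMod q, ∑ u : (ZMod q)ˣ with f u = p, ‖kl q (f u).1 (f u).2‖ ^ 4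
      ≤ ∑ p : ZMod q × ZMod q,
        (Nat.gcd (Nat.gcd m.val n.val) q : ℝ) * ‖kl q p.1 p.2‖ ^ 4 := by
        refine Finset.sum_le_sum (fun p _ => ?_)
        have e : ∑ u : (ZMod q)ˣ with f u = p, ‖kl q (f u).1 (f u).2‖ ^ 4
            = ∑ u : (ZMod q)ˣ with f u = p, ‖kl q p.1 p.2‖ ^ 4 := by
          refine Finset.sum_congr rfl (fun u hu => ?_)
          rw [(Finset.mem_filter.mp hu).2]
        rw [e, Finset.sum_const, nsmul_eq_mul]
        have := hfib p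
        gcongr
    _ = (Nat.gcd (Nat.gcd m.val n.val) q : ℝ) * ∑ p : ZMod q × ZMod q, ‖kl q p.1 p.2‖ ^ 4 := by
        rw [Finset.mul_sum]
    _ ≤ (Nat.gcd (Nat.gcd m.val n.val) q : ℝ) *
        (2 * (q.divisors.card : ℝ) ^ 2 * (q : ℝ) ^ 4) := by
        gcongr
        exact fourth_moment_le
    _ = _ := by ring

end Sum

end Pool.Agent.H20.Kloo

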