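import Mathlib

/-!
The norm of the random model: `(∑ |f n|^2 / n)^(1/2)` for arithmetic functions, as a predicate
`NB f B` (the norm of `f` is at most `B`); triangle inequality, Minkowski inequality for integrals
and products over disjoint sets of primes.
-/

set_option autoImplicit false

open Finset MeasureTheory

namespace Pool.Agent.H20.RM

/-- The random model norm of `f` is at most `B`. -/
def NB (f : ArithmeticFunction ℂ) (B : ℝ) : Prop :=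
  0 ≤ B ∧ ∀ s : Finset ℕ, ∑ n ∈ s, ‖f n‖ ^ 2 / (n : ℝ) ≤ B ^ 2

namespace NB

variable {f g : ArithmeticFunction ℂ} {B C : ℝ}

lemma nonneg (h : NB f B) : 0 ≤ B := h.1

lemma sum_le (h : NB f B) (s : Finset ℕ) : ∑ n ∈ s, ‖f n‖ ^ 2 / (n : ℝ) ≤ B ^ 2 := h.2 s

lemma sqrt_le (h : NB f B) (s : Finset ℕ) : Real.sqrt (∑ n ∈ s, ‖f n‖ ^ 2 / (n : ℝ)) ≤ B := by
  rw [Real.sqrt_le_left h.1]
  exact h.2 s

lemma of_norm_le (h : NB g B) (hfg : ∀ n, ‖f n‖ ≤ ‖g n‖) : NB f B :=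
  ⟨h.1, fun s => (Finset.sum_le_sum fun n _ => by
    have := hfg n
    gcongr).trans (h.2 s)⟩

lemma mono (h : NB f B) (hBC : B ≤ C) : NB f C :=
  ⟨h.1.trans hBC, fun s => (h.2 s).trans (by have := h.1; gcongr)⟩

lemma zero : NB 0 0 := ⟨le_rfl, fun s => by simp⟩

lemma smul (h : NB f B) (c : ℂ) : NB (c • f) (‖c‖ * B) := by
  refine ⟨mul_nonneg (norm_nonneg _) h.1, fun s => ?_⟩
  have : ∑ n ∈ s, ‖(c • f) n‖ ^ 2 / (n : ℝ) = ‖c‖ ^ 2 * ∑ n ∈ s, ‖f n‖ ^ 2 / (n : ℝ) := by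
    rw [Finset.mul_sum]
    refine Finset.sum_congr rfl fun n _ => ?_
    rw [ArithmeticFunction.smul_map, smul_eq_mul, norm_mul]
    ring
  rw [this, mul_pow]
  have := h.2 s
  gcongr

/-- Cauchy-Schwarz for finite sums in the weighted space. -/
lemma cs (u v : ℕ → ℝ) (s : Finset ℕ) :
    ∑ n ∈ s, u n * v n / (n : ℝ)
      ≤ Real.sqrt (∑ n ∈ s, u n ^ 2 / (n : ℝ)) * Real.sqrt (∑ n ∈ s, v n ^ 2 / (n : ℝ)) := by
  have h := Real.sum_mul_le_sqrt_mul_sqrt s (fun n => u n / Real.sqrt n) (fun n => v n / Real.sqrt n)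
  have e1 : ∀ (a : ℕ → ℝ), ∀ n ∈ s, (a n / Real.sqrt n) ^ 2 = a n ^ 2 / (n : ℝ) := by
    intro a n _
    rw [div_pow, Real.sq_sqrt (Nat.cast_nonneg n)]
  rw [Finset.sum_congr rfl (e1 u), Finset.sum_congr rfl (e1 v)] at h
  refine le_trans (le_of_eq ?_) h
  refine Finset.sum_congr rfl fun n _ => ?_
  rw [div_mul_div_comm, Real.mul_self_sqrt (Nat.cast_nonneg n)]

lemma of_sqrt_le (hB : 0 ≤ B) (h : ∀ s : Finset ℕ,
    Real.sqrt (∑ n ∈ s, ‖f n‖ ^ 2 / (n : ℝ)) ≤ B) : NB f B := by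
  refine ⟨hB, fun s => ?_⟩
  have h1 := h s
  rw [Real.sqrt_le_left hB] at h1
  exact h1

/-- If the square sum is at most `B` times its root then the root is at most `B`. -/
lemma root_le {S B : ℝ} (hS : 0 ≤ S) (hB : 0 ≤ B) (h : S ≤ Real.sqrt S * B) : Real.sqrt S ≤ B := by
  rcases hS.eq_or_lt with h0 | h0
  · rw [← h0, Real.sqrt_zero]; exact hB
  · have hs : 0 < Real.sqrt S := Real.sqrt_pos.2 h0
    have h2 : Real.sqrt S * Real.sqrt S ≤ Real.sqrt S * B := by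
      rw [Real.mul_self_sqrt hS]; exact h
    exact le_of_mul_le_mul_left h2 hs

lemma add (hf : NB f B) (hg : NB g C) : NB (f + g) (B + C) := by
  have hBC : 0 ≤ B + C := add_nonneg hf.1 hg.1
  refine of_sqrt_le hBC fun s => ?_
  set S := ∑ n ∈ s, ‖(f + g) n‖ ^ 2 / (n : ℝ) with hS
  have hS0 : 0 ≤ S := Finset.sum_nonneg fun n _ => by positivity
  refine root_le hS0 hBC ?_
  have h1 : S ≤ ∑ n ∈ s, ‖(f + g) n‖ * ‖f n‖ / (n : ℝ) + ∑ n ∈ s, ‖(f + g) n‖ * ‖g n‖ / (n : ℝ) := by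
    rw [hS, ← Finset.sum_add_distrib]
    refine Finset.sum_le_sum fun n _ => ?_
    rw [← add_div, ← mul_add, pow_two]
    have : ‖(f + g) n‖ ≤ ‖f n‖ + ‖g n‖ := by
      rw [ArithmeticFunction.add_apply]; exact norm_add_le _ _
    gcongr
  refine h1.trans ?_
  rw [mul_add]
  refine add_le_add ?_ ?_
  · refine (cs _ _ s).trans ?_
    have := hf.sqrt_le s
    gcongr
  · refine (cs _ _ s).trans ?_
    have := hg.sqrt_le s
    gcongr

lemma sum {ι : Type*} (t : Finset ι) (F : ι → ArithmeticFunction ℂ) (b : ι → ℝ)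
    (h : ∀ i ∈ t, NB (F i) (b i)) : NB (∑ i ∈ t, F i) (∑ i ∈ t, b i) := by
  classical
  induction t using Finset.induction_on with
  | empty => simpa using NB.zero
  | insert a t ha ih =>
    rw [Finset.sum_insert ha, Finset.sum_insert ha]
    exact (h a (Finset.mem_insert_self a t)).add (ih fun i hi => h i (Finset.mem_insert_of_mem hi))

/-- Minkowski inequality for integrals. -/
lemma integral {X : Type*} [MeasurableSpace X] {μ : Measure X} (m : X → ℂ)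
    (F : X → ArithmeticFunction ℂ) (b : X → ℝ)
    (hF : ∀ x, NB (F x) (b x)) (hint : ∀ n, Integrable (fun x => m x * F x n) μ)
    (hb : Integrable (fun x => ‖m x‖ * b x) μ) (hf : ∀ n, f n = ∫ x, m x * F x n ∂μ) :
    NB f (∫ x, ‖m x‖ * b x ∂μ) := by
  have hB : 0 ≤ ∫ x, ‖m x‖ * b x ∂μ :=
    MeasureTheory.integral_nonneg fun x => mul_nonneg (norm_nonneg _) (hF x).1
  refine of_sqrt_le hB fun s => ?_
  set S := ∑ n ∈ s, ‖f n‖ ^ 2 / (n : ℝ) with hS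
  have hS0 : 0 ≤ S := Finset.sum_nonneg fun n _ => by positivity
  refine root_le hS0 hB ?_
  have h1 : (S : ℂ) = ∫ x, m x * ∑ n ∈ s, (starRingEnd ℂ (f n) / n) * F x n ∂μ := by
    have e1 : ∀ x, m x * ∑ n ∈ s, (starRingEnd ℂ (f n) / n) * F x n
        = ∑ n ∈ s, (starRingEnd ℂ (f n) / n) * (m x * F x n) := by
      intro x
      rw [Finset.mul_sum]
      exact Finset.sum_congr rfl fun n _ => by ring
    simp_rw [e1]
    rw [MeasureTheory.integral_finsetSum _ fun n _ => (hint n).const_mul _]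
    rw [hS]
    push_cast
    refine Finset.sum_congr rfl fun n _ => ?_
    rw [MeasureTheory.integral_const_mul, ← hf n]
    have : (starRingEnd ℂ) (f n) * f n = ((‖f n‖ : ℂ)) ^ 2 := by
      rw [mul_comm, Complex.mul_conj, Complex.normSq_eq_norm_sq]; push_cast; rfl
    rw [← this]; ring
  have h2 : S = ‖(S : ℂ)‖ := by rw [Complex.norm_real, Real.norm_eq_abs, abs_of_nonneg hS0]
  have h3 : ∀ x, ‖m x * ∑ n ∈ s, (starRingEnd ℂ (f n) / n) * F x n‖
      ≤ Real.sqrt S * (‖m x‖ * b x) := by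
    intro x
    rw [norm_mul]
    have h4 : ‖∑ n ∈ s, (starRingEnd ℂ (f n) / n) * F x n‖ ≤ Real.sqrt S * b x := by
      refine (norm_sum_le _ _).trans ?_
      have h5 : ∑ n ∈ s, ‖(starRingEnd ℂ (f n) / n) * F x n‖
          = ∑ n ∈ s, ‖f n‖ * ‖F x n‖ / (n : ℝ) := by
        refine Finset.sum_congr rfl fun n _ => ?_
        rw [norm_mul, norm_div, RCLike.norm_conj, Complex.norm_natCast]
        ring
      rw [h5]
      refine (cs _ _ s).trans ?_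
      have := (hF x).sqrt_le s
      gcongr
    calc ‖m x‖ * ‖∑ n ∈ s, (starRingEnd ℂ (f n) / n) * F x n‖
        ≤ ‖m x‖ * (Real.sqrt S * b x) := by gcongr
      _ = Real.sqrt S * (‖m x‖ * b x) := by ring
  calc S = ‖(S : ℂ)‖ := h2
    _ = ‖∫ x, m x * ∑ n ∈ s, (starRingEnd ℂ (f n) / n) * F x n ∂μ‖ := by rw [h1]
    _ ≤ ∫ x, Real.sqrt S * (‖m x‖ * b x) ∂μ :=
        norm_integral_le_of_norm_le (hb.const_mul _) (Filter.Eventually.of_forall h3)
    _ = Real.sqrt S * ∫ x, ‖m x‖ * b x ∂μ := MeasureTheory.integral_const_mul _ _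

end NB

/-! ### numbers composed of primes of a set -/

/-- numbers all of whose prime factors lie in `P` -/
def Sm (P : Set ℕ) : Set ℕ := {n | n ≠ 0 ∧ ∀ p, p.Prime → p ∣ n → p ∈ P}

lemma one_mem_Sm (P : Set ℕ) : 1 ∈ Sm P :=
  ⟨one_ne_zero, fun _ hp h => absurd (Nat.dvd_one.mp h) hp.one_lt.ne'⟩

lemma mul_mem_Sm {P : Set ℕ} {a b : ℕ} (ha : a ∈ Sm P) (hb : b ∈ Sm P) : a * b ∈ Sm P := by
  refine ⟨mul_ne_zero ha.1 hb.1, fun p hp h => ?_⟩
  rcases (hp.dvd_mul).mp h with h | h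
  · exact ha.2 p hp h
  · exact hb.2 p hp h

lemma Sm_mono {P Q : Set ℕ} (h : P ⊆ Q) : Sm P ⊆ Sm Q :=
  fun _ hn => ⟨hn.1, fun p hp hd => h (hn.2 p hp hd)⟩

lemma dvd_mem_Sm {P : Set ℕ} {a b : ℕ} (hb : b ∈ Sm P) (h : a ∣ b) : a ∈ Sm P :=
  ⟨fun h0 => hb.1 (by rw [h0] at h; exact Nat.eq_zero_of_zero_dvd h),
    fun p hp hd => hb.2 p hp (hd.trans h)⟩

lemma coprime_Sm {P Q : Set ℕ} (hPQ : Disjoint P Q) {a b : ℕ} (ha : a ∈ Sm P) (hb : b ∈ Sm Q) :
    Nat.Coprime a b := by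
  rw [Nat.coprime_iff_gcd_eq_one]
  by_contra hne
  obtain ⟨p, hp, hd⟩ := Nat.exists_prime_and_dvd hne
  exact Set.disjoint_left.1 hPQ (ha.2 p hp (hd.trans (Nat.gcd_dvd_left _ _)))
    (hb.2 p hp (hd.trans (Nat.gcd_dvd_right _ _)))

lemma factor_unique {P Q : Set ℕ} (hPQ : Disjoint P Q) {a b x y : ℕ} (ha : a ∈ Sm P)
    (hb : b ∈ Sm Q) (hx : x ∈ Sm P) (hy : y ∈ Sm Q) (h : x * y = a * b) : x = a ∧ y = b := by
  have h1 : a ∣ x := (coprime_Sm hPQ ha hy).dvd_of_dvd_mul_right (h ▸ Dvd.intro _ rfl)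
  have h2 : x ∣ a := (coprime_Sm hPQ hx hb).dvd_of_dvd_mul_right (h ▸ Dvd.intro _ rfl)
  have h3 : x = a := Nat.dvd_antisymm h2 h1
  refine ⟨h3, ?_⟩
  rw [h3] at h
  exact Nat.eq_of_mul_eq_mul_left (Nat.pos_of_ne_zero ha.1) h

/-- every number composed of primes of the union is a product -/
lemma exists_factor {P Q : Set ℕ} {n : ℕ} (hn : n ∈ Sm (P ∪ Q)) :
    ∃ a ∈ Sm P, ∃ b ∈ Sm Q, n = a * b := by
  induction n using Nat.recOnMul with
  | zero => exact absurd rfl hn.1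
  | one => exact ⟨1, one_mem_Sm P, 1, one_mem_Sm Q, rfl⟩
  | prime p hp =>
    have hpp := hp
    rcases hn.2 p hpp dvd_rfl with h | h
    · refine ⟨p, ⟨hp.ne_zero, fun q hq hd => ?_⟩, 1, one_mem_Sm Q, (mul_one p).symm⟩
      rw [(Nat.prime_dvd_prime_iff_eq hq hp).mp hd]; exact h
    · refine ⟨1, one_mem_Sm P, p, ⟨hp.ne_zero, fun q hq hd => ?_⟩, (one_mul p).symm⟩
      rw [(Nat.prime_dvd_prime_iff_eq hq hp).mp hd]; exact h
  | mul x y hx hy =>
    obtain ⟨a, ha, b, hb, h1⟩ := hx (dvd_mem_Sm hn (Dvd.intro _ rfl))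
    obtain ⟨a', ha', b', hb', h2⟩ := hy (dvd_mem_Sm hn (Dvd.intro_left _ rfl))
    refine ⟨a * a', mul_mem_Sm ha ha', b * b', mul_mem_Sm hb hb', ?_⟩
    rw [h1, h2]; ring

/-- `f` is supported on numbers composed of primes of `P` -/
def Sup (P : Set ℕ) (f : ArithmeticFunction ℂ) : Prop := ∀ n, f n ≠ 0 → n ∈ Sm P

lemma Sup.mul_apply {P Q : Set ℕ} (hPQ : Disjoint P Q) {f g : ArithmeticFunction ℂ}
    (hf : Sup P f) (hg : Sup Q g) {a b : ℕ} (ha : a ∈ Sm P) (hb : b ∈ Sm Q) :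
    (f * g) (a * b) = f a * g b := by
  rw [ArithmeticFunction.mul_apply]
  rw [Finset.sum_eq_single (a, b)]
  · rintro ⟨x, y⟩ hxy hne
    rw [Nat.mem_divisorsAntidiagonal] at hxy
    by_contra hc
    have hfx : f x ≠ 0 := fun h => hc (by simp [h])
    have hgy : g y ≠ 0 := fun h => hc (by simp [h])
    obtain ⟨h1, h2⟩ := factor_unique hPQ ha hb (hf x hfx) (hg y hgy) hxy.1
    exact hne (by rw [h1, h2])
  · intro h
    exact absurd (Nat.mem_divisorsAntidiagonal.2 ⟨rfl, mul_ne_zero ha.1 hb.1⟩) h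

lemma Sup.mul {P Q : Set ℕ} {f g : ArithmeticFunction ℂ}
    (hf : Sup P f) (hg : Sup Q g) : Sup (P ∪ Q) (f * g) := by
  intro n hn
  rw [ArithmeticFunction.mul_apply] at hn
  obtain ⟨⟨x, y⟩, hxy, hne⟩ := Finset.exists_ne_zero_of_sum_ne_zero hn
  rw [Nat.mem_divisorsAntidiagonal] at hxy
  have hfx : f x ≠ 0 := fun h => hne (by simp [h])
  have hgy : g y ≠ 0 := fun h => hne (by simp [h])
  rw [← hxy.1]
  exact mul_mem_Sm (Sm_mono Set.subset_union_left (hf x hfx))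
    (Sm_mono Set.subset_union_right (hg y hgy))

lemma Sup.mul_same {P : Set ℕ} {f g : ArithmeticFunction ℂ}
    (hf : Sup P f) (hg : Sup P g) : Sup P (f * g) := by
  have := hf.mul hg
  rwa [Set.union_self] at this

lemma Sup.mono {P Q : Set ℕ} {f : ArithmeticFunction ℂ} (hf : Sup P f) (h : P ⊆ Q) : Sup Q f :=
  fun n hn => Sm_mono h (hf n hn)

lemma Sup.one (P : Set ℕ) : Sup P 1 := by
  intro n hn
  by_cases h : n = 1
  · rw [h]; exact one_mem_Sm P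
  · rw [ArithmeticFunction.one_apply_ne h] at hn; exact absurd rfl hn

/-- Products of functions on disjoint sets of primes. -/
lemma NB.tensor {P Q : Set ℕ} (hPQ : Disjoint P Q) {f g : ArithmeticFunction ℂ} {B C : ℝ}
    (hf : Sup P f) (hg : Sup Q g) (hB : NB f B) (hC : NB g C) : NB (f * g) (B * C) := by
  classical
  refine ⟨mul_nonneg hB.1 hC.1, fun s => ?_⟩
  -- choose the factorization
  have hex : ∀ n : ℕ, ∃ a b : ℕ, n ∈ Sm (P ∪ Q) → a ∈ Sm P ∧ b ∈ Sm Q ∧ n = a * b := by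
    intro n
    by_cases hn : n ∈ Sm (P ∪ Q)
    · obtain ⟨a, ha, b, hb, h⟩ := exists_factor hn
      exact ⟨a, b, fun _ => ⟨ha, hb, h⟩⟩
    · exact ⟨0, 0, fun h => absurd h hn⟩
  choose u v huv using hex
  set t := s.filter (fun n => (f * g) n ≠ 0) with ht
  have hmem : ∀ n ∈ t, n ∈ Sm (P ∪ Q) := fun n hn => (hf.mul hg) n (Finset.mem_filter.1 hn).2
  have h1 : ∑ n ∈ s, ‖(f * g) n‖ ^ 2 / (n : ℝ) = ∑ n ∈ t, ‖(f * g) n‖ ^ 2 / (n : ℝ) := by
    rw [ht, Finset.sum_filter]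
    refine Finset.sum_congr rfl fun n _ => ?_
    split_ifs with h
    · rfl
    · rw [not_not] at h
      rw [h]; simp
  have h2 : ∑ n ∈ t, ‖(f * g) n‖ ^ 2 / (n : ℝ)
      = ∑ n ∈ t, (‖f (u n)‖ ^ 2 / (u n : ℝ)) * (‖g (v n)‖ ^ 2 / (v n : ℝ)) := by
    refine Finset.sum_congr rfl fun n hn => ?_
    obtain ⟨ha, hb, h⟩ := huv n (hmem n hn)
    have e1 : (f * g) n = f (u n) * g (v n) := by
      conv_lhs => rw [h]
      exact Sup.mul_apply hPQ hf hg ha hb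
    have e2 : (n : ℝ) = u n * v n := by exact_mod_cast h
    rw [e1, e2, norm_mul, mul_pow, div_mul_div_comm]
  have hinj : Set.InjOn (fun n => (u n, v n)) (t : Set ℕ) := by
    intro n hn n' hn' heq
    obtain ⟨_, _, h⟩ := huv n (hmem n hn)
    obtain ⟨_, _, h'⟩ := huv n' (hmem n' hn')
    simp only [Prod.mk.injEq] at heq
    rw [h, h', heq.1, heq.2]
  have h3 : ∑ n ∈ t, (‖f (u n)‖ ^ 2 / (u n : ℝ)) * (‖g (v n)‖ ^ 2 / (v n : ℝ))
      = ∑ x ∈ t.image (fun n => (u n, v n)), (‖f x.1‖ ^ 2 / (x.1 : ℝ)) * (‖g x.2‖ ^ 2 / (x.2 : ℝ)) := by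
    rw [Finset.sum_image hinj]
  have h4 : t.image (fun n => (u n, v n)) ⊆ (t.image u) ×ˢ (t.image v) := by
    intro x hx
    rw [Finset.mem_image] at hx
    obtain ⟨n, hn, rfl⟩ := hx
    exact Finset.mem_product.2 ⟨Finset.mem_image_of_mem u hn, Finset.mem_image_of_mem v hn⟩
  rw [h1, h2, h3]
  refine (Finset.sum_le_sum_of_subset_of_nonneg h4 fun x _ _ => by positivity).trans ?_
  rw [Finset.sum_product]
  simp only []
  rw [← Finset.sum_mul_sum, mul_pow]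
  have h5 := hB.2 (t.image u)
  have h6 := hC.2 (t.image v)
  have h7 : 0 ≤ ∑ n ∈ t.image v, ‖g n‖ ^ 2 / (n : ℝ) := Finset.sum_nonneg fun n _ => by positivity
  gcongr

end Pool.Agent.H20.RM
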